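import Mathlib

/-!
# A universal model for coverings given by labels of regions

`PF ι G` is the space of partial functions `ι → G` with nonempty domain; a set is open if it is
closed under restriction.  The group `G` acts by left multiplication, and the quotient map is a
covering.
-/

set_option autoImplicit false

open scoped Topology unitInterval

noncomputable section

namespace Pool.Agent.H414_LK

/-- Partial functions with nonempty domain. -/
structure PF (ι G : Type) where
  f : ι → Option G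
  ne : ∃ i g, f i = some g

namespace PF

variable {ι G : Type}

theorem ext' {x y : PF ι G} (h : ∀ i, x.f i = y.f i) : x = y := by
  cases x; cases y; simp only [PF.mk.injEq]; exact funext h

/-- `y` is a restriction of `x` -/
def le (y x : PF ι G) : Prop := ∀ i g, y.f i = some g → x.f i = some g

theorem le_refl (x : PF ι G) : x.le x := fun _ _ h => h

theorem le_trans {x y z : PF ι G} (h : x.le y) (h' : y.le z) : x.le z :=
  fun i g hg => h' i g (h i g hg)

instance : TopologicalSpace (PF ι G) where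
  IsOpen U := ∀ x ∈ U, ∀ y : PF ι G, y.le x → y ∈ U
  isOpen_univ := fun _ _ _ _ => trivial
  isOpen_inter := fun _ _ h h' x hx y hy => ⟨h x hx.1 y hy, h' x hx.2 y hy⟩
  isOpen_sUnion := fun _ h x ⟨t, ht, hx⟩ y hy => ⟨t, ht, h t ht x hx y hy⟩

theorem isOpen_iff {U : Set (PF ι G)} : IsOpen U ↔ ∀ x ∈ U, ∀ y : PF ι G, y.le x → y ∈ U :=
  Iff.rfl

theorem down_mem_nhds (x : PF ι G) : {y : PF ι G | y.le x} ∈ 𝓝 x :=
  IsOpen.mem_nhds (isOpen_iff.2 fun _ hy _ hz => le_trans hz hy) (le_refl x)

theorem mem_nhds_iff' {x : PF ι G} {V : Set (PF ι G)} :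
    V ∈ 𝓝 x ↔ ∀ y : PF ι G, y.le x → y ∈ V := by
  constructor
  · intro h y hy
    obtain ⟨U, hUV, hU, hx⟩ := mem_nhds_iff.1 h
    exact hUV (hU x hx y hy)
  · intro h
    exact Filter.mem_of_superset (down_mem_nhds x) h

theorem continuous_iff' {X : Type*} [TopologicalSpace X] {φ : X → PF ι G} :
    Continuous φ ↔ ∀ a, ∀ᶠ b in 𝓝 a, (φ b).le (φ a) := by
  rw [continuous_iff_continuousAt]
  constructor
  · intro h a
    exact (h a) (down_mem_nhds _)
  · intro h a V hV
    rw [Filter.mem_map]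
    filter_upwards [h a] with b hb
    exact mem_nhds_iff'.1 hV _ hb

variable [Group G]

instance : MulAction G (PF ι G) where
  smul g x := ⟨fun i => (x.f i).map (g * ·), by
    obtain ⟨i, a, h⟩ := x.ne
    exact ⟨i, g * a, by rw [h]; rfl⟩⟩
  one_smul x := by
    apply ext'
    intro i
    show (x.f i).map (1 * ·) = x.f i
    simp
  mul_smul g h x := by
    apply ext'
    intro i
    show (x.f i).map (g * h * ·) = ((x.f i).map (h * ·)).map (g * ·)
    rw [Option.map_map]
    congr 1
    funext a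
    exact mul_assoc g h a

theorem smul_f (g : G) (x : PF ι G) (i : ι) : (g • x).f i = (x.f i).map (g * ·) := rfl

theorem smul_le {g : G} {x y : PF ι G} (h : x.le y) : (g • x).le (g • y) := by
  intro i a ha
  rw [smul_f, Option.map_eq_some_iff] at ha ⊢
  obtain ⟨b, hb, hba⟩ := ha
  exact ⟨b, h i b hb, hba⟩

instance : ContinuousConstSMul G (PF ι G) where
  continuous_const_smul g := by
    rw [continuous_iff']
    intro a
    filter_upwards [down_mem_nhds a] with b hb
    exact smul_le hb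

theorem eq_one_of_le {g : G} {x y z : PF ι G} (hy : y.le x) (hz : z.le x) (h : g • y = z) :
    g = 1 := by
  obtain ⟨i, a, ha⟩ := z.ne
  have h1 : (g • y).f i = some a := by rw [h]; exact ha
  rw [smul_f, Option.map_eq_some_iff] at h1
  obtain ⟨b, hb, hba⟩ := h1
  have h2 := hz i a ha
  have h3 := hy i b hb
  rw [h3] at h2
  have h4 : b = a := Option.some.inj h2
  rw [h4] at hba
  exact mul_eq_right.1 hba

theorem smul_left_inj {g g' : G} {x : PF ι G} (h : g • x = g' • x) : g = g' := by
  have : (g'⁻¹ * g) • x = x := by rw [mul_smul, h, inv_smul_smul]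
  have h2 := eq_one_of_le (le_refl x) (le_refl x) this
  rw [inv_mul_eq_one] at h2
  exact h2.symm

end PF

/-- The quotient of the space of partial functions. -/
def PQ (ι G : Type) [Group G] : Type := Quotient (MulAction.orbitRel G (PF ι G))

variable {ι G : Type} [Group G]

instance : TopologicalSpace (PQ ι G) :=
  inferInstanceAs (TopologicalSpace (Quotient (MulAction.orbitRel G (PF ι G))))

/-- the quotient map -/
def pq : PF ι G → PQ ι G := Quotient.mk (MulAction.orbitRel G (PF ι G))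

theorem pq_eq {x y : PF ι G} : pq x = pq y ↔ x ∈ MulAction.orbit G y := Quotient.eq''

theorem pq_smul (g : G) (x : PF ι G) : pq (g • x) = pq x := pq_eq.2 ⟨g, rfl⟩

theorem pq_continuous : Continuous (pq : PF ι G → PQ ι G) := continuous_quotient_mk'

theorem pq_covering : IsQuotientCoveringMap (pq : PF ι G → PQ ι G) G where
  toIsQuotientMap := isQuotientMap_quotient_mk'
  toContinuousConstSMul := inferInstance
  apply_eq_iff_mem_orbit := pq_eq
  disjoint e := by
    refine ⟨{y | y.le e}, PF.down_mem_nhds e, ?_⟩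
    rintro g ⟨z, ⟨y, hy, hyz⟩, hz⟩
    exact PF.eq_one_of_le hy hz hyz

theorem pq_cov : IsCoveringMap (pq : PF ι G → PQ ι G) := pq_covering.isCoveringMap

/-- A labelling which is locally, up to the action, a restriction, gives a continuous map. -/
theorem continuous_pq_comp {X : Type*} [TopologicalSpace X] {φ : X → PF ι G}
    (h : ∀ a, ∀ᶠ b in 𝓝 a, ∃ g : G, (g • φ b).le (φ a)) : Continuous (fun a => pq (φ a)) := by
  rw [continuous_iff_continuousAt]
  intro a
  rw [ContinuousAt]
  intro V hV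
  have h1 : pq ⁻¹' V ∈ 𝓝 (φ a) := pq_continuous.continuousAt.preimage_mem_nhds hV
  rw [Filter.mem_map]
  filter_upwards [h a] with b hb
  obtain ⟨g, hg⟩ := hb
  have h2 : pq (g • φ b) ∈ V := PF.mem_nhds_iff'.1 h1 _ hg
  rwa [pq_smul] at h2

section holonomy

variable {X : Type*} [TopologicalSpace X] (φ : X → PF ι G)

/-- The path `γ` has holonomy `g`. -/
def Hol {p p' : X} (γ : Path p p') (g : G) : Prop :=
  ∃ Γ : Path (φ p) (g • φ p'), ∀ t, pq (Γ t) = pq (φ (γ t))

variable {φ}

theorem Hol.trans {p p' p'' : X} {γ : Path p p'} {γ' : Path p' p''} {g g' : G}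
    (h : Hol φ γ g) (h' : Hol φ γ' g') : Hol φ (γ.trans γ') (g * g') := by
  obtain ⟨Γ, hΓ⟩ := h
  obtain ⟨Γ', hΓ'⟩ := h'
  let Δ : Path (g • φ p') ((g * g') • φ p'') :=
    (Γ'.map (continuous_const_smul g)).cast rfl (by rw [mul_smul])
  refine ⟨Γ.trans Δ, fun t => ?_⟩
  rw [Path.trans_apply, Path.trans_apply]
  split_ifs with ht
  · exact hΓ _
  · show pq (g • Γ' _) = _
    rw [pq_smul]
    exact hΓ' _

theorem Hol.symm {p p' : X} {γ : Path p p'} {g : G} (h : Hol φ γ g) : Hol φ γ.symm g⁻¹ := by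
  obtain ⟨Γ, hΓ⟩ := h
  let Δ : Path (φ p') (g⁻¹ • φ p) :=
    (Γ.symm.map (continuous_const_smul g⁻¹)).cast (by rw [inv_smul_smul]) rfl
  refine ⟨Δ, fun t => ?_⟩
  show pq (g⁻¹ • Γ.symm t) = _
  rw [pq_smul]
  exact hΓ _

/-- The holonomy only depends on the homotopy class. -/
theorem Hol.unique (hφ : Continuous (fun a => pq (φ a))) {p p' : X} {γ γ' : Path p p'}
    {g g' : G} (hγ : γ.Homotopic γ') (h : Hol φ γ g) (h' : Hol φ γ' g') : g = g' := by
  obtain ⟨Γ, hΓ⟩ := h
  obtain ⟨Γ', hΓ'⟩ := h'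
  let δ : C(I, PQ ι G) := ⟨fun t => pq (φ (γ t)), hφ.comp γ.continuous⟩
  let δ' : C(I, PQ ι G) := ⟨fun t => pq (φ (γ' t)), hφ.comp γ'.continuous⟩
  have h0 : δ 0 = pq (φ p) := by show pq (φ (γ 0)) = _; rw [γ.source]
  have h0' : δ' 0 = pq (φ p) := by show pq (φ (γ' 0)) = _; rw [γ'.source]
  have hδ : δ.HomotopicRel δ' {0, 1} := by
    obtain ⟨F⟩ := hγ
    refine ⟨⟨⟨⟨fun z => pq (φ (F z)), hφ.comp F.continuous⟩, ?_, ?_⟩, ?_⟩⟩
    · intro t
      show pq (φ (F (0, t))) = pq (φ (γ t))
      rw [F.apply_zero]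
      rfl
    · intro t
      show pq (φ (F (1, t))) = pq (φ (γ' t))
      rw [F.apply_one]
      rfl
    · intro s t ht
      show pq (φ (F (s, t))) = pq (φ (γ t))
      have := F.prop' s t ht
      have h2 : F (s, t) = γ t := this
      rw [h2]
  have e1 : (Γ : C(I, PF ι G)) = pq_cov.liftPath δ (φ p) h0 := by
    rw [IsCoveringMap.eq_liftPath_iff']
    exact ⟨funext hΓ, Γ.source⟩
  have e2 : (Γ' : C(I, PF ι G)) = pq_cov.liftPath δ' (φ p) h0' := by
    rw [IsCoveringMap.eq_liftPath_iff']
    exact ⟨funext hΓ', Γ'.source⟩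
  have e3 := pq_cov.liftPath_apply_one_eq_of_homotopicRel hδ (φ p) h0 h0'
  rw [← e1, ← e2] at e3
  have e4 : g • φ p' = g' • φ p' := by
    have a1 : (Γ : C(I, PF ι G)) 1 = g • φ p' := Γ.target
    have a2 : (Γ' : C(I, PF ι G)) 1 = g' • φ p' := Γ'.target
    rw [← a1, ← a2, e3]
  exact PF.smul_left_inj e4

end holonomy

end Pool.Agent.H414_LK
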