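import Mathlib

/-!
# Long knots, framed long knots and the space `Z_n`

Definitions for the question whether the space of long knots in `ℝⁿ` (or its framed analogue)
is a retract up to homotopy of `Ω² Σ² (∐_{q ≥ 2} Ω Conf(ℝⁿ⁻¹, q))`.
-/

set_option autoImplicit false

open scoped unitInterval ContDiff Topology

noncomputable section

namespace Pool.Agent.H414_LK

/-- Euclidean `n`-space. -/
abbrev Eu (n : ℕ) : Type := EuclideanSpace ℝ (Fin n)

/-- The point `(t, 0, …, 0)` of `ℝⁿ`. -/
def axis (n : ℕ) [NeZero n] (t : ℝ) : Eu n := EuclideanSpace.single 0 t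

/-- A long knot in `ℝⁿ`: a smooth embedding `ℝ → ℝⁿ` (smooth, injective derivative at every point,
homeomorphism onto its image) which agrees with `t ↦ (t, 0, …, 0)` for `|t| ≥ 1` and maps `[-1, 1]`
into the closed unit ball. -/
structure LongKnot (n : ℕ) [NeZero n] where
  /-- the underlying map -/
  toFun : ℝ → Eu n
  smooth : ContDiff ℝ ∞ toFun
  embedding : Topology.IsEmbedding toFun
  immersion : ∀ t, deriv toFun t ≠ 0
  standard : ∀ t, 1 ≤ |t| → toFun t = axis n t
  ball : ∀ t, |t| ≤ 1 → toFun t ∈ Metric.closedBall (0 : Eu n) 1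

/-- The derivative of order `k` of a smooth map `ℝ → ℝⁿ`, as a continuous map. -/
def jet {n : ℕ} (f : ℝ → Eu n) (hf : ContDiff ℝ ∞ f) (k : ℕ) : C(ℝ, Eu n) :=
  ⟨iteratedDeriv k f, hf.continuous_iteratedDeriv k (by exact_mod_cast le_top)⟩

/-- The `C^∞` topology on the space of long knots: the coarsest topology for which all the
derivatives `f ↦ f⁽ᵏ⁾` are continuous, where continuous maps carry the compact-open topology
(uniform convergence on compact sets). -/
instance (n : ℕ) [NeZero n] : TopologicalSpace (LongKnot n) :=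
  TopologicalSpace.induced (fun f : LongKnot n => fun k : ℕ => jet f.toFun f.smooth k) inferInstance

/-- A framed long knot in `ℝⁿ`: a long knot `f` together with `n - 1` smooth vector fields along
`f`, indexed by the nonzero elements `j` of `Fin n`, which are pointwise orthonormal and orthogonal
to the derivative of `f`, and which are the standard basis vectors for `|t| ≥ 1`. -/
structure FramedLongKnot (n : ℕ) [NeZero n] extends LongKnot n where
  /-- the vector fields -/
  frame : {j : Fin n // j ≠ 0} → ℝ → Eu n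
  frame_smooth : ∀ j, ContDiff ℝ ∞ (frame j)
  frame_orthonormal : ∀ t, Orthonormal ℝ (fun j => frame j t)
  frame_normal : ∀ j t, inner ℝ (frame j t) (deriv toFun t) = 0
  frame_standard : ∀ j t, 1 ≤ |t| → frame j t = EuclideanSpace.single j.1 1

/-- The `C^∞` topology on the space of framed long knots. -/
instance (n : ℕ) [NeZero n] : TopologicalSpace (FramedLongKnot n) :=
  TopologicalSpace.induced
    (fun F : FramedLongKnot n => (fun k : ℕ => jet F.toFun F.smooth k,
      fun (j : {j : Fin n // j ≠ 0}) (k : ℕ) => jet (F.frame j) (F.frame_smooth j) k))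
    inferInstance

/-- The ordered configuration space of `q` distinct points in `ℝᵐ`. -/
abbrev Conf (m q : ℕ) : Type := {x : Fin q → Eu m // Function.Injective x}

/-- The based loop space, with the compact-open topology. -/
abbrev Loop (X : Type) [TopologicalSpace X] (x : X) : Type := Path x x

/-- The relation on `X × [0, 1]` that collapses `X × {0, 1} ∪ {x₀} × [0, 1]` to a point. -/
def suspSetoid (X : Type) (x₀ : X) : Setoid (X × I) where
  r a b := a = b ∨ ((a.1 = x₀ ∨ a.2 = 0 ∨ a.2 = 1) ∧ (b.1 = x₀ ∨ b.2 = 0 ∨ b.2 = 1))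
  iseqv := by
    refine ⟨fun a => Or.inl rfl, ?_, ?_⟩
    · rintro a b (h | ⟨h1, h2⟩)
      · exact Or.inl h.symm
      · exact Or.inr ⟨h2, h1⟩
    · rintro a b c (h | ⟨h1, h2⟩) (h' | ⟨h1', h2'⟩)
      · exact Or.inl (h.trans h')
      · exact Or.inr ⟨h ▸ h1', h2'⟩
      · exact Or.inr ⟨h1, h' ▸ h2⟩
      · exact Or.inr ⟨h1, h2'⟩

/-- The reduced suspension of the pointed space `(X, x₀)`. -/
def Susp (X : Type) [TopologicalSpace X] (x₀ : X) : Type := Quotient (suspSetoid X x₀)

instance (X : Type) [TopologicalSpace X] (x₀ : X) : TopologicalSpace (Susp X x₀) :=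
  inferInstanceAs (TopologicalSpace (Quotient (suspSetoid X x₀)))

/-- The base point of the reduced suspension. -/
def Susp.pt (X : Type) [TopologicalSpace X] (x₀ : X) : Susp X x₀ :=
  Quotient.mk (suspSetoid X x₀) (x₀, 0)

/-- The space `Y_n = ∐_{q ≥ 2} Ω Conf(ℝⁿ⁻¹, q)`, where `c q` is the base point of
`Conf(ℝⁿ⁻¹, q)`. -/
def Y (n : ℕ) (c : ∀ q : {q : ℕ // 2 ≤ q}, Conf (n - 1) q) : Type :=
  Σ q : {q : ℕ // 2 ≤ q}, Loop (Conf (n - 1) q) (c q)

instance (n : ℕ) (c : ∀ q : {q : ℕ // 2 ≤ q}, Conf (n - 1) q) : TopologicalSpace (Y n c) :=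
  inferInstanceAs (TopologicalSpace (Σ q : {q : ℕ // 2 ≤ q}, Loop (Conf (n - 1) q) (c q)))

/-- The reduced double suspension `Σ² X` of the pointed space `(X, x₀)`. -/
def Susp2 (X : Type) [TopologicalSpace X] (x₀ : X) : Type := Susp (Susp X x₀) (Susp.pt X x₀)

instance (X : Type) [TopologicalSpace X] (x₀ : X) : TopologicalSpace (Susp2 X x₀) :=
  inferInstanceAs (TopologicalSpace (Susp (Susp X x₀) (Susp.pt X x₀)))

/-- The base point of the double suspension. -/
def Susp2.pt (X : Type) [TopologicalSpace X] (x₀ : X) : Susp2 X x₀ :=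
  Susp.pt (Susp X x₀) (Susp.pt X x₀)

/-- The double loop space `Ω² (X, x₀)`. -/
def Loop2 (X : Type) [TopologicalSpace X] (x₀ : X) : Type := Loop (Loop X x₀) (Path.refl x₀)

instance (X : Type) [TopologicalSpace X] (x₀ : X) : TopologicalSpace (Loop2 X x₀) :=
  inferInstanceAs (TopologicalSpace (Loop (Loop X x₀) (Path.refl x₀)))

/-- The space `Z_n = Ω² Σ² Y_n`, where `y₀` is the base point of `Y_n`. -/
def Z (n : ℕ) (c : ∀ q : {q : ℕ // 2 ≤ q}, Conf (n - 1) q) (y₀ : Y n c) : Type :=
  Loop2 (Susp2 (Y n c) y₀) (Susp2.pt (Y n c) y₀)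

instance (n : ℕ) (c : ∀ q : {q : ℕ // 2 ≤ q}, Conf (n - 1) q) (y₀ : Y n c) :
    TopologicalSpace (Z n c y₀) :=
  inferInstanceAs (TopologicalSpace (Loop2 (Susp2 (Y n c) y₀) (Susp2.pt (Y n c) y₀)))

/-- `X` is a retract of `Z` up to homotopy: there are continuous maps `i : X → Z` and `r : Z → X`
such that `r ∘ i` is homotopic to the identity of `X`. -/
def IsHRetract (X Z : Type) [TopologicalSpace X] [TopologicalSpace Z] : Prop :=
  ∃ (i : C(X, Z)) (r : C(Z, X)), (r.comp i).Homotopic (ContinuousMap.id X)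

end Pool.Agent.H414_LK
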