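import Pool.Agent.H414_LK.Defs

/-!
# Fundamental groups of homotopy retracts of loop spaces are abelian
-/

set_option autoImplicit false

open scoped unitInterval Topology

noncomputable section

namespace Pool.Agent.H414_LK

open Path.Homotopic

/-- the homotopy class of a path -/
abbrev cls {X : Type*} [TopologicalSpace X] {x y : X} (p : Path x y) :
    Path.Homotopic.Quotient x y := Path.Homotopic.Quotient.mk p

theorem comm_group_aux {X : Type*} [TopologicalSpace X] {x y : X}
    (p q : Path.Homotopic.Quotient y x) (H : ∀ a b : Path.Homotopic.Quotient x x,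
      ((p.trans a).trans p.symm).trans ((q.trans b).trans q.symm) =
      ((q.trans b).trans q.symm).trans ((p.trans a).trans p.symm))
    (a b : Path.Homotopic.Quotient x x) : a.trans b = b.trans a := by
  -- put `b' = θ⁻¹ b θ` with `θ = p⁻¹ q`
  have h := H a (((q.symm.trans p).trans b).trans (p.symm.trans q))
  have h2 := congrArg (fun z => (p.symm.trans z).trans p) h
  simp only [Quotient.trans_assoc] at h2
  have e2 : ∀ {z : X} (r : Path.Homotopic.Quotient x z), p.symm.trans (p.trans r) = r := by
    intro z r; rw [← Quotient.trans_assoc, Quotient.symm_trans, Quotient.refl_trans]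
  have e3 : ∀ {z : X} (r : Path.Homotopic.Quotient y z), q.trans (q.symm.trans r) = r := by
    intro z r; rw [← Quotient.trans_assoc, Quotient.trans_symm, Quotient.refl_trans]
  simp only [e2, e3, Quotient.symm_trans, Quotient.trans_refl] at h2
  exact h2

/-- If `T : X × X → X` is a continuous map whose restrictions to `X × {x₀}` and `{x₀} × X` are
freely homotopic to the identity, then the fundamental group of `X` at `x₀` is commutative. -/
theorem comm_of_mul {X : Type*} [TopologicalSpace X] (x₀ : X) (T : C(X × X, X))
    (hL : (T.comp ((ContinuousMap.id X).prodMk (ContinuousMap.const X x₀))).Homotopic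
      (ContinuousMap.id X))
    (hR : (T.comp ((ContinuousMap.const X x₀).prodMk (ContinuousMap.id X))).Homotopic
      (ContinuousMap.id X))
    (a b : Path.Homotopic.Quotient x₀ x₀) : a.trans b = b.trans a := by
  obtain ⟨F⟩ := hL
  obtain ⟨G⟩ := hR
  let y := T (x₀, x₀)
  let P' : Path y x₀ := F.evalAt x₀
  let Q' : Path y x₀ := G.evalAt x₀
  refine comm_group_aux (cls P') (cls Q') ?_ a b
  intro a b
  induction a using Path.Homotopic.Quotient.ind with | mk α =>
  induction b using Path.Homotopic.Quotient.ind with | mk β =>
  let A : Path y y := (α.prod (Path.refl x₀)).map T.continuous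
  let B : Path y y := ((Path.refl x₀).prod β).map T.continuous
  have hα : (cls A).trans (cls P') = (cls P').trans (cls α) := by
    rw [← Quotient.mk_trans, ← Quotient.mk_trans]
    exact Path.Homotopic.Quotient.eq.2 (Path.Homotopic.map_trans_evalAt F α)
  have hβ : (cls B).trans (cls Q') = (cls Q').trans (cls β) := by
    rw [← Quotient.mk_trans, ← Quotient.mk_trans]
    exact Path.Homotopic.Quotient.eq.2 (Path.Homotopic.map_trans_evalAt G β)
  have hα' : ((cls P').trans (cls α)).trans (cls P').symm = cls A := by
    rw [← hα, Quotient.trans_assoc, Quotient.trans_symm, Quotient.trans_refl]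
  have hβ' : ((cls Q').trans (cls β)).trans (cls Q').symm = cls B := by
    rw [← hβ, Quotient.trans_assoc, Quotient.trans_symm, Quotient.trans_refl]
  rw [hα', hβ']
  have h1 : cls A = ((Path.Homotopic.prod (cls α) (cls (Path.refl x₀))).map T) := by
    rw [Path.Homotopic.prod_lift, ← Path.Homotopic.Quotient.mk_map]
  have h2 : cls B = ((Path.Homotopic.prod (cls (Path.refl x₀)) (cls β)).map T) := by
    rw [Path.Homotopic.prod_lift, ← Path.Homotopic.Quotient.mk_map]
  have hmap : ∀ u v : Path.Homotopic.Quotient (x₀, x₀) (x₀, x₀),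
      (u.map T).trans (v.map T) = (u.trans v).map T := by
    intro u v
    induction u using Path.Homotopic.Quotient.ind with | mk u =>
    induction v using Path.Homotopic.Quotient.ind with | mk v =>
    rw [← Quotient.mk_map, ← Quotient.mk_map, ← Quotient.mk_trans, ← Quotient.mk_trans,
      ← Quotient.mk_map, Path.map_trans]
  rw [h1, h2, hmap, hmap, Path.Homotopic.comp_prod_eq_prod_comp,
    Path.Homotopic.comp_prod_eq_prod_comp]
  simp

/-- The path `γ` reparametrised by the convex combination of `f` and the identity. -/
def rep {W : Type*} [TopologicalSpace W] {w v : W} (f : I → I)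
    (hf : Continuous f) (h0 : f 0 = 0) (h1 : f 1 = 1) (q : I × Path w v) : Path w v where
  toFun t := q.2 ⟨unitInterval.symm q.1 * f t + q.1 * t,
    show (unitInterval.symm q.1 : ℝ) • (f t : ℝ) + (q.1 : ℝ) • (t : ℝ) ∈ I from
      convex_Icc _ _ (f t).2 t.2 (by unit_interval) (by unit_interval) (by simp)⟩
  continuous_toFun := by fun_prop
  source' := by simp [h0]
  target' := by simp [h1]

theorem continuous_rep {W : Type*} [TopologicalSpace W] {w v : W} (f : I → I)
    (hf : Continuous f) (h0 : f 0 = 0) (h1 : f 1 = 1) :
    Continuous (rep (w := w) (v := v) f hf h0 h1) := by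
  rw [← Path.continuous_uncurry_iff]
  have : Continuous (fun z : (I × Path w v) × I => (z.1.2
      ⟨unitInterval.symm z.1.1 * f z.2 + z.1.1 * z.2,
    show (unitInterval.symm z.1.1 : ℝ) • (f z.2 : ℝ) + (z.1.1 : ℝ) • (z.2 : ℝ) ∈ I from
      convex_Icc _ _ (f z.2).2 z.2.2 (by unit_interval) (by unit_interval) (by simp)⟩ : W)) := by
    refine Continuous.eval (by fun_prop) ?_
    refine Continuous.subtype_mk ?_ _
    fun_prop
  exact this

/-- Reparametrisation of paths is homotopic to the identity. -/
theorem reparam_homotopic {W : Type*} [TopologicalSpace W] {w v : W} (f : I → I)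
    (hf : Continuous f) (h0 : f 0 = 0) (h1 : f 1 = 1) (S : C(Path w v, Path w v))
    (hS : ∀ γ, S γ = γ.reparam f hf h0 h1) : S.Homotopic (ContinuousMap.id _) := by
  refine ⟨⟨⟨_, continuous_rep f hf h0 h1⟩, ?_, ?_⟩⟩
  · intro γ
    rw [hS]
    ext t
    simp [rep]
  · intro γ
    ext t
    simp [rep]

/-- left and right multiplication on the loop space -/
def mulR {W : Type*} [TopologicalSpace W] {w : W} (p : Path w w) : C(Path w w, Path w w) :=
  ⟨fun η => η.trans p, by fun_prop⟩

def mulL {W : Type*} [TopologicalSpace W] {w : W} (p : Path w w) : C(Path w w, Path w w) :=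
  ⟨fun η => p.trans η, by fun_prop⟩

theorem mulR_refl {W : Type*} [TopologicalSpace W] {w : W} :
    (mulR (Path.refl w)).Homotopic (ContinuousMap.id _) :=
  ⟨(HSpace.hmulE (X := Path w w)).toHomotopy⟩

theorem mulL_refl {W : Type*} [TopologicalSpace W] {w : W} :
    (mulL (Path.refl w)).Homotopic (ContinuousMap.id _) :=
  ⟨(HSpace.eHmul (X := Path w w)).toHomotopy⟩

theorem mulR_congr {W : Type*} [TopologicalSpace W] {w : W} {p q : Path w w} (h : p.Homotopic q) :
    (mulR p).Homotopic (mulR q) := by
  obtain ⟨F⟩ := h
  have hF : Continuous (fun s : I => F.eval s) := by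
    rw [← Path.continuous_uncurry_iff]
    exact F.continuous
  refine ⟨⟨⟨fun q : I × Path w w => q.2.trans (F.eval q.1), by fun_prop⟩, ?_, ?_⟩⟩
  · intro γ; simp [mulR]
  · intro γ; simp [mulR]

theorem mulL_congr {W : Type*} [TopologicalSpace W] {w : W} {p q : Path w w} (h : p.Homotopic q) :
    (mulL p).Homotopic (mulL q) := by
  obtain ⟨F⟩ := h
  have hF : Continuous (fun s : I => F.eval s) := by
    rw [← Path.continuous_uncurry_iff]
    exact F.continuous
  refine ⟨⟨⟨fun q : I × Path w w => (F.eval q.1).trans q.2, by fun_prop⟩, ?_, ?_⟩⟩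
  · intro γ; simp [mulL]
  · intro γ; simp [mulL]

/-- the reparametrisation of the associativity homotopy -/
def asf (t : I) : I := ⟨Path.Homotopy.transAssocReparamAux t,
  Path.Homotopy.transAssocReparamAux_mem_I t⟩

theorem asf_cont : Continuous asf := by unfold asf; fun_prop

theorem asf_zero : asf 0 = 0 := Subtype.ext Path.Homotopy.transAssocReparamAux_zero

theorem asf_one : asf 1 = 1 := Subtype.ext Path.Homotopy.transAssocReparamAux_one

/-- `η ↦ (η p⁻¹) p` is homotopic to the identity -/
theorem homotopic_right {W : Type*} [TopologicalSpace W] {w : W} (p : Path w w) :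
    ((mulR p).comp (mulR p.symm)).Homotopic (ContinuousMap.id (Path w w)) := by
  let R : C(Path w w, Path w w) := ⟨fun γ => γ.reparam asf asf_cont asf_zero asf_one, by
      have := (continuous_rep (w := w) (v := w) asf asf_cont asf_zero asf_one).comp
          (Continuous.prodMk_right (0 : I))
      convert this using 2 with γ
      ext t
      simp [rep]⟩
  have hR : R.Homotopic (ContinuousMap.id _) :=
    reparam_homotopic asf asf_cont asf_zero asf_one R (fun γ => rfl)
  have h1 : (mulR p).comp (mulR p.symm) = R.comp (mulR (p.symm.trans p)) := by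
    ext1 η
    exact Path.Homotopy.trans_assoc_reparam η p.symm p
  rw [h1]
  have h2 : (R.comp (mulR (p.symm.trans p))).Homotopic ((ContinuousMap.id _).comp
      (mulR (p.symm.trans p))) := ContinuousMap.Homotopic.comp hR (ContinuousMap.Homotopic.refl _)
  refine h2.trans ?_
  rw [ContinuousMap.id_comp]
  exact (mulR_congr (Path.Homotopic.symm_trans p)).trans mulR_refl

/-- The fundamental group of a homotopy retract of a loop space is commutative, at every point. -/
theorem comm_of_retract {X : Type*} [TopologicalSpace X] {W : Type*} [TopologicalSpace W] {w : W}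
    (i : C(X, Path w w)) (r : C(Path w w, X)) (h : (r.comp i).Homotopic (ContinuousMap.id X))
    (x₀ : X) (a b : Path.Homotopic.Quotient x₀ x₀) : a.trans b = b.trans a := by
  let p : Path w w := i x₀
  let T : C(X × X, X) := ⟨fun z => r (((i z.1).trans p.symm).trans (i z.2)), by fun_prop⟩
  refine comm_of_mul x₀ T ?_ ?_ a b
  · have e : T.comp ((ContinuousMap.id X).prodMk (ContinuousMap.const X x₀)) =
        (r.comp ((mulR p).comp (mulR p.symm))).comp i := by
      ext1 z; rfl
    rw [e]
    have h1 : ((r.comp ((mulR p).comp (mulR p.symm))).comp i).Homotopic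
        ((r.comp (ContinuousMap.id _)).comp i) :=
      ContinuousMap.Homotopic.comp (ContinuousMap.Homotopic.comp
        (ContinuousMap.Homotopic.refl _) (homotopic_right p)) (ContinuousMap.Homotopic.refl _)
    refine h1.trans ?_
    rw [ContinuousMap.comp_id]
    exact h
  · have e : T.comp ((ContinuousMap.const X x₀).prodMk (ContinuousMap.id X)) =
        (r.comp (mulL (p.trans p.symm))).comp i := by
      ext1 z; rfl
    rw [e]
    have h1 : ((r.comp (mulL (p.trans p.symm))).comp i).Homotopic
        ((r.comp (ContinuousMap.id _)).comp i) :=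
      ContinuousMap.Homotopic.comp (ContinuousMap.Homotopic.comp
        (ContinuousMap.Homotopic.refl _)
        ((mulL_congr (Path.Homotopic.trans_symm p)).trans mulL_refl))
        (ContinuousMap.Homotopic.refl _)
    refine h1.trans ?_
    rw [ContinuousMap.comp_id]
    exact h

/-- In a space with commutative fundamental groups, freely homotopic loops at the same point are
homotopic relative to the end points. -/
theorem homotopic_of_free {X : Type*} [TopologicalSpace X] {x₀ : X}
    (hc : ∀ a b : Path.Homotopic.Quotient x₀ x₀, a.trans b = b.trans a)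
    (g₁ g₂ : Path x₀ x₀) (H : C(I × I, X)) (h0 : ∀ t, H (0, t) = g₁ t) (h1 : ∀ t, H (1, t) = g₂ t)
    (hs : ∀ s, H (s, 0) = H (s, 1)) : g₁.Homotopic g₂ := by
  let f : C(I, X) := g₁.toContinuousMap
  let g : C(I, X) := g₂.toContinuousMap
  let F : f.Homotopy g := ⟨H, h0, h1⟩
  let p : Path (0 : I) 1 := ⟨⟨fun t => t, continuous_id⟩, rfl, rfl⟩
  have key := Path.Homotopic.map_trans_evalAt F p
  let s0 : Path x₀ x₀ := (F.evalAt 0).cast (by simp [f]) (by simp [g])
  have e1 : ((p.map (map_continuous f)).trans (F.evalAt 1)).cast (x' := x₀) (y' := x₀)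
      (by simp [f]) (by simp [g]) = g₁.trans s0 := by
    ext t
    simp only [Path.trans_apply, Path.cast_coe]
    split_ifs with h
    · rfl
    · simp only [s0, Path.cast_coe]
      exact (hs _).symm
  have e2 : ((F.evalAt 0).trans (p.map (map_continuous g))).cast (x' := x₀) (y' := x₀)
      (by simp [f]) (by simp [g]) = s0.trans g₂ := by
    ext t
    simp only [Path.trans_apply, Path.cast_coe]
    split_ifs with h <;> rfl
  have key2 : (g₁.trans s0).Homotopic (s0.trans g₂) := by
    rw [← e1, ← e2]
    exact key.pathCast _ _
  have key3 := Path.Homotopic.Quotient.eq.2 key2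
  rw [Quotient.mk_trans, Quotient.mk_trans, hc (cls g₁) (cls s0)] at key3
  have key4 := congrArg (fun z => (cls s0).symm.trans z) key3
  simp only [← Quotient.trans_assoc, Quotient.symm_trans, Quotient.refl_trans] at key4
  exact Path.Homotopic.Quotient.eq.1 key4

end Pool.Agent.H414_LK
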