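import Pool.Agent.H414_LK.Knot
import Pool.Agent.H414_LK.LoopComm

/-!
# Two freely homotopic loops of framed long knots
-/

set_option autoImplicit false

open scoped Topology ContDiff unitInterval

noncomputable section

namespace Pool.Agent.H414_LK

theorem abs_0_le (x : Eu 3) : |x 0| ≤ ‖x‖ := by
  have h2 := PiLp.norm_apply_le x 0
  simpa using h2

theorem fderiv_tu_id {x : Eu 3} (h : 3 / 14 < |x 0|) :
    fderiv ℝ tu x = ContinuousLinearMap.id ℝ (Eu 3) := by
  have hc : Continuous (fun x : Eu 3 => |x 0|) :=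
    continuous_abs.comp (coord_contDiff' (n := ∞) contDiff_id 0).continuous
  have he : tu =ᶠ[𝓝 x] id := by
    filter_upwards [(hc.tendsto x).eventually (lt_mem_nhds h)] with y hy
    exact tu_id hy.le
  rw [he.fderiv_eq, fderiv_id]

section disjoint

variable {p r q u : ℝ}

/-- away from the second knot -/
theorem far_q (hr : 0 < r) (hpq : r / 4 + 1 / 4 ≤ |p - q|) {t : ℝ} (ht : 1 / 4 ≤ |t - q|) :
    1 / 4 ≤ |ccq ((p, r, q, u), t) 0| := by
  have e : ccq ((p, r, q, u), t) 0 = cc ((p, r, q, u), t) 0 - q := rfl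
  rw [e]
  rcases le_total (r / 4) |t - p| with h | h
  · rw [(cc_out (P := (p, r, q, u)) hr h).1]
    exact ht
  · have h1 := cc_in (P := (p, r, q, u)) hr h
    have h2 := abs_0_le (cc ((p, r, q, u), t) - v3 p 0 0)
    have h3 : |cc ((p, r, q, u), t) 0 - p| ≤ r / 4 := h2.trans h1
    have h4 : |p - q| ≤ |cc ((p, r, q, u), t) 0 - p| + |cc ((p, r, q, u), t) 0 - q| := by
      have := abs_sub_le p (cc ((p, r, q, u), t) 0) q
      rwa [abs_sub_comm p (cc ((p, r, q, u), t) 0)] at this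
    linarith

theorem far_eq (hr : 0 < r) (hpq : r / 4 + 1 / 4 ≤ |p - q|) {t : ℝ} (ht : 1 / 4 ≤ |t - q|) :
    Xi ((p, r, q, u), t) = cc ((p, r, q, u), t) ∧ DD ((p, r, q, u), t) = dc ((p, r, q, u), t) ∧
      VV ((p, r, q, u), t) = vc ((p, r, q, u), t) := by
  have h := far_q (u := u) hr hpq ht
  refine ⟨?_, ?_, ?_⟩
  · unfold Xi
    rw [tu_id (by linarith)]
    show v3 q 0 0 + (cc ((p, r, q, u), t) - v3 q 0 0) = _
    abel
  · unfold DD
    rw [fderiv_tu_id (by linarith)]
    rfl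
  · unfold VV
    rw [fderiv_tu_id (by linarith)]
    rfl

theorem near_p (hpq : r / 4 + 1 / 4 ≤ |p - q|) {t : ℝ} (ht : |t - q| ≤ 1 / 4) :
    r / 4 ≤ |t - p| := by
  have h4 := abs_sub_le p t q
  rw [abs_sub_comm p t] at h4
  linarith

theorem near_ccq (hr : 0 < r) (hpq : r / 4 + 1 / 4 ≤ |p - q|) {t : ℝ} (ht : |t - q| ≤ 1 / 4) :
    ccq ((p, r, q, u), t) = v3 (t - q) 0 0 := by
  show cc ((p, r, q, u), t) - v3 q 0 0 = _
  rw [(cc_out (P := (p, r, q, u)) hr (near_p hpq ht)).1]
  apply ext3 <;> simp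

theorem near_eq (hr : 0 < r) (hpq : r / 4 + 1 / 4 ≤ |p - q|) {t : ℝ} (ht : |t - q| ≤ 1 / 4) :
    Xi ((p, r, q, u), t) = v3 q 0 0 + be (t - q) ∧ DD ((p, r, q, u), t) = deriv be (t - q) ∧
      VV ((p, r, q, u), t) = ve (t - q) := by
  have h := near_ccq (u := u) hr hpq ht
  have h2 := cc_out (P := (p, r, q, u)) hr (near_p hpq ht)
  refine ⟨?_, ?_, ?_⟩
  · unfold Xi
    rw [h, tu_axis]
  · unfold DD
    rw [h, h2.2.1, fderiv_tu_axis]
    simp
  · unfold VV
    rw [h, h2.2.2, fderiv_tu_axis]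
    simp

theorem adm_disjoint (hr : 0 < r) (hp : |p| + r / 4 ≤ 1) (hq : |q| ≤ 1 / 2)
    (hpq : r / 4 + 1 / 4 ≤ |p - q|) : Adm (p, r, q, u) := by
  refine ⟨hr, hp, hq, ?_, ?_, ?_⟩
  · intro s _ t _ hst
    simp only at hst
    rcases le_or_gt (1 / 4) |s - q| with hs | hs <;> rcases le_or_gt (1 / 4) |t - q| with ht | ht
    · rw [(far_eq hr hpq hs).1, (far_eq hr hpq ht).1] at hst
      exact cc_inj (P := (p, r, q, u)) hr hst
    · exfalso
      have h1 := far_q (u := u) hr hpq hs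
      rw [(far_eq hr hpq hs).1, (near_eq hr hpq ht.le).1] at hst
      have h2 := be_0_lt ht
      have h3 : ccq ((p, r, q, u), s) 0 = be (t - q) 0 := by
        have := congrArg (fun v : Eu 3 => v 0) hst
        simp only [add_app, v3_0] at this
        show cc ((p, r, q, u), s) 0 - q = _
        rw [this]; ring
      rw [h3] at h1
      linarith
    · exfalso
      have h1 := far_q (u := u) hr hpq ht
      rw [(far_eq hr hpq ht).1, (near_eq hr hpq hs.le).1] at hst
      have h2 := be_0_lt hs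
      have h3 : ccq ((p, r, q, u), t) 0 = be (s - q) 0 := by
        have := congrArg (fun v : Eu 3 => v 0) hst
        simp only [add_app, v3_0] at this
        show cc ((p, r, q, u), t) 0 - q = _
        rw [← this]; ring
      rw [h3] at h1
      linarith
    · rw [(near_eq hr hpq hs.le).1, (near_eq hr hpq ht.le).1] at hst
      have := be_inj (add_left_cancel hst)
      linarith
  · intro t _
    rcases le_total (1 / 4) |t - q| with ht | ht
    · have h1 := far_q (u := u) hr hpq ht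
      rw [fderiv_tu_id (by linarith)]
      exact fun _ _ h => h
    · rw [near_ccq hr hpq ht]
      exact fderiv_tu_inj _
  · intro t ht1
    rcases le_total (1 / 4) |t - q| with ht | ht
    · rw [(far_eq hr hpq ht).1]
      rcases le_total (r / 4) |t - p| with h | h
      · rw [(cc_out (P := (p, r, q, u)) hr h).1, v3_norm_axis]
        exact ht1
      · have h1 := cc_in (P := (p, r, q, u)) hr h
        have h2 := norm_add_le (cc ((p, r, q, u), t) - v3 p 0 0) (v3 p 0 0)
        rw [sub_add_cancel, v3_norm_axis] at h2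
        simp only at h1
        linarith
    · rw [(near_eq hr hpq ht).1]
      have h2 := norm_add_le (v3 q 0 0) (be (t - q))
      rw [v3_norm_axis] at h2
      have h3 := be_ball ht
      linarith

end disjoint

theorem exists_r0 : ∃ r₀ : ℝ, 0 < r₀ ∧ r₀ ≤ 1 ∧ ∀ p u : ℝ, |p| ≤ 3 / 4 →
    Adm (p, r₀, 0, u) := by
  obtain ⟨ε, hε, hinj, hd, hb⟩ := exists_tube
  refine ⟨min 1 ε, lt_min one_pos hε, min_le_left _ _, fun p u hp => ?_⟩
  have hr : 0 < min 1 ε := lt_min one_pos hε
  set r := min 1 ε with hrdef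
  have hr1 : r ≤ 1 := min_le_left _ _
  have hrε : r ≤ ε := min_le_right _ _
  have hclose : ∀ t : ℝ, ‖cc ((p, r, 0, u), t) - v3 t 0 0‖ < ε := by
    intro t
    rcases le_total (r / 4) |t - p| with h | h
    · rw [(cc_out (P := (p, r, 0, u)) hr h).1, sub_self, norm_zero]
      exact hε
    · have h1 := cc_in (P := (p, r, 0, u)) hr h
      simp only at h1
      have h2 := norm_add_le (cc ((p, r, 0, u), t) - v3 p 0 0) (v3 p 0 0 - v3 t 0 0)
      have e : v3 p 0 0 - v3 t 0 0 = v3 (p - t) 0 0 := by apply ext3 <;> simp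
      rw [sub_add_sub_cancel, e, v3_norm_axis, abs_sub_comm] at h2
      linarith
  have hccq : ∀ t : ℝ, ccq ((p, r, 0, u), t) = cc ((p, r, 0, u), t) := by
    intro t
    show cc ((p, r, 0, u), t) - v3 0 0 0 = _
    have : v3 0 0 0 = 0 := by apply ext3 <;> simp
    rw [this, sub_zero]
  have hXi : ∀ t : ℝ, Xi ((p, r, 0, u), t) = tu (cc ((p, r, 0, u), t)) := by
    intro t
    unfold Xi
    rw [hccq]
    have : v3 0 0 0 = 0 := by apply ext3 <;> simp
    show v3 0 0 0 + _ = _
    rw [this, zero_add]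
  refine ⟨hr, ?_, by norm_num, ?_, ?_, ?_⟩
  · show |p| + r / 4 ≤ 1
    linarith
  · intro s hs t ht hst
    simp only [hXi] at hst
    exact cc_inj (P := (p, r, 0, u)) hr
      (hinj ⟨s, abs_le.2 hs, hclose s⟩ ⟨t, abs_le.2 ht, hclose t⟩ hst)
  · intro t ht
    rw [hccq]
    exact hd _ ⟨t, ht, hclose t⟩
  · intro t ht1
    rw [hXi]
    rcases le_total (3 / 14) |cc ((p, r, 0, u), t) 0| with hx | hx
    · rw [tu_id hx]
      rcases le_total (r / 4) |t - p| with h | h
      · rw [(cc_out (P := (p, r, 0, u)) hr h).1, v3_norm_axis]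
        exact ht1
      · have h1 := cc_in (P := (p, r, 0, u)) hr h
        have h2 := norm_add_le (cc ((p, r, 0, u), t) - v3 p 0 0) (v3 p 0 0)
        rw [sub_add_cancel, v3_norm_axis] at h2
        simp only at h1
        linarith
    · exact hb _ ⟨t, ht1, hclose t⟩ hx

/-- truncation to `[0, 1]` -/
def cl (x : ℝ) : ℝ := max 0 (min 1 x)

theorem cl_cont : Continuous cl := by unfold cl; fun_prop

theorem cl_zero {x : ℝ} (h : x ≤ 0) : cl x = 0 := by
  unfold cl; rw [min_eq_right (by linarith), max_eq_left h]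

theorem cl_one {x : ℝ} (h : 1 ≤ x) : cl x = 1 := by
  unfold cl; rw [min_eq_left h, max_eq_right zero_le_one]

theorem cl_nonneg (x : ℝ) : 0 ≤ cl x := le_max_left _ _

theorem cl_le_one (x : ℝ) : cl x ≤ 1 := max_le zero_le_one (min_le_left _ _)

/-- The path of parameters: the left knot shrinks, passes through the right knot, and expands. -/
def par (r₀ s u : ℝ) : Par :=
  (-1 / 2 - cl (3 * s) / 4 + 3 / 2 * cl (3 * s - 1) - cl (3 * s - 2) / 4,
    1 - (1 - r₀) * cl (3 * s) + (1 - r₀) * cl (3 * s - 2),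
    1 / 2 - cl (3 * s) / 2 - cl (3 * s - 2) / 2, u)

theorem adm_par {r₀ : ℝ} (h0 : 0 < r₀) (h1 : r₀ ≤ 1)
    (h : ∀ p u : ℝ, |p| ≤ 3 / 4 → Adm (p, r₀, 0, u)) (s u : ℝ) : Adm (par r₀ s u) := by
  unfold par
  rcases le_total (3 * s) 1 with hs | hs
  · rw [cl_zero (show 3 * s - 1 ≤ 0 by linarith), cl_zero (show 3 * s - 2 ≤ 0 by linarith)]
    have ha := cl_nonneg (3 * s)
    have ha1 := cl_le_one (3 * s)
    set a := cl (3 * s)
    have hra : 1 - (1 - r₀) * a + (1 - r₀) * 0 = 1 - (1 - r₀) * a := by ring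
    have hr0 : r₀ ≤ 1 - (1 - r₀) * a := by nlinarith
    have hr1 : 1 - (1 - r₀) * a ≤ 1 := by nlinarith
    rw [hra]
    have hp : |-1 / 2 - a / 4 + 3 / 2 * 0 - 0 / 4| = 1 / 2 + a / 4 := by
      rw [show -1 / 2 - a / 4 + 3 / 2 * 0 - 0 / 4 = -(1 / 2 + a / 4) by ring, abs_neg,
        abs_of_nonneg (by linarith)]
    have hq : |1 / 2 - a / 2 - 0 / 2| = 1 / 2 - a / 2 := by
      rw [show 1 / 2 - a / 2 - 0 / 2 = 1 / 2 - a / 2 by ring, abs_of_nonneg (by linarith)]
    have hpq : |-1 / 2 - a / 4 + 3 / 2 * 0 - 0 / 4 - (1 / 2 - a / 2 - 0 / 2)| = 1 - a / 4 := by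
      rw [show -1 / 2 - a / 4 + 3 / 2 * 0 - 0 / 4 - (1 / 2 - a / 2 - 0 / 2) = -(1 - a / 4) by ring,
        abs_neg, abs_of_nonneg (by linarith)]
    apply adm_disjoint
    · linarith
    · rw [hp]; linarith
    · rw [hq]; linarith
    · rw [hpq]; linarith
  · rcases le_total (3 * s) 2 with hs2 | hs2
    · rw [cl_one hs, cl_zero (show 3 * s - 2 ≤ 0 by linarith)]
      have ha := cl_nonneg (3 * s - 1)
      have ha1 := cl_le_one (3 * s - 1)
      set b := cl (3 * s - 1)
      have e : ((-1 / 2 - 1 / 4 + 3 / 2 * b - 0 / 4, 1 - (1 - r₀) * 1 + (1 - r₀) * 0,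
          1 / 2 - 1 / 2 - 0 / 2, u) : Par) = (-3 / 4 + 3 / 2 * b, r₀, 0, u) := by
        ext <;> simp
        ring
      rw [e]
      apply h
      rw [abs_le]; constructor <;> linarith
    · rw [cl_one hs, cl_one (show 1 ≤ 3 * s - 1 by linarith)]
      have ha := cl_nonneg (3 * s - 2)
      have ha1 := cl_le_one (3 * s - 2)
      set c := cl (3 * s - 2)
      have hra : 1 - (1 - r₀) * 1 + (1 - r₀) * c = r₀ + (1 - r₀) * c := by ring
      have hr0 : r₀ ≤ r₀ + (1 - r₀) * c := by nlinarith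
      have hr1 : r₀ + (1 - r₀) * c ≤ 1 := by nlinarith
      rw [hra]
      have hp : |-1 / 2 - 1 / 4 + 3 / 2 * 1 - c / 4| = 3 / 4 - c / 4 := by
        rw [show -1 / 2 - 1 / 4 + 3 / 2 * 1 - c / 4 = 3 / 4 - c / 4 by ring,
          abs_of_nonneg (by linarith)]
      have hq : |1 / 2 - 1 / 2 - c / 2| = c / 2 := by
        rw [show 1 / 2 - 1 / 2 - c / 2 = -(c / 2) by ring, abs_neg, abs_of_nonneg (by linarith)]
      have hpq : |-1 / 2 - 1 / 4 + 3 / 2 * 1 - c / 4 - (1 / 2 - 1 / 2 - c / 2)| =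
          3 / 4 + c / 4 := by
        rw [show -1 / 2 - 1 / 4 + 3 / 2 * 1 - c / 4 - (1 / 2 - 1 / 2 - c / 2) = 3 / 4 + c / 4 by
          ring, abs_of_nonneg (by linarith)]
      apply adm_disjoint
      · linarith
      · rw [hp]; linarith
      · rw [hq]; linarith
      · rw [hpq]; linarith

theorem LongKnot.ext' {n : ℕ} [NeZero n] {f g : LongKnot n} (h : f.toFun = g.toFun) : f = g := by
  cases f; cases g; simp only at h; subst h; rfl

theorem FramedLongKnot.ext' {n : ℕ} [NeZero n] {f g : FramedLongKnot n} (h : f.toFun = g.toFun)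
    (h2 : f.frame = g.frame) : f = g := by
  have h3 : f.toLongKnot = g.toLongKnot := LongKnot.ext' h
  cases f; cases g; simp only at h2 h3; subst h2; subst h3; rfl

theorem framed_eq {P P' : Par} (h : Adm P) (h' : Adm P')
    (he : ∀ t, Xi (P, t) = Xi (P', t) ∧ DD (P, t) = DD (P', t) ∧ VV (P, t) = VV (P', t)) :
    h.framed = h'.framed := by
  have e2 : ∀ t, N2 (P, t) = N2 (P', t) := by
    intro t
    unfold N2
    rw [(he t).2.1, (he t).2.2]
  have e1 : ∀ t, N1 (P, t) = N1 (P', t) := by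
    intro t
    unfold N1
    rw [e2, (he t).2.1]
  apply FramedLongKnot.ext'
  · funext t
    exact (he t).1
  · funext j t
    show (if j.1 = 1 then N1 (P, t) else N2 (P, t)) = if j.1 = 1 then N1 (P', t) else N2 (P', t)
    rw [e1, e2]

/-- a full turn changes nothing -/
theorem framed_two_pi {p r q : ℝ} (h : Adm (p, r, q, 2 * Real.pi)) (h' : Adm (p, r, q, 0)) :
    h.framed = h'.framed := by
  have hrot : ∀ x : Eu 3, rot (2 * Real.pi) x = rot 0 x := fun x => by rw [rot_two_pi, rot_zero]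
  have hcc : ∀ t, cc ((p, r, q, 2 * Real.pi), t) = cc ((p, r, q, 0), t) := by
    intro t
    show v3 p 0 0 + r • rot (2 * Real.pi) _ = v3 p 0 0 + r • rot 0 _
    rw [hrot]
  have hdc : ∀ t, dc ((p, r, q, 2 * Real.pi), t) = dc ((p, r, q, 0), t) := fun t => hrot _
  have hvc : ∀ t, vc ((p, r, q, 2 * Real.pi), t) = vc ((p, r, q, 0), t) := by
    intro t
    show Real.cos (2 * Real.pi) • rot (2 * Real.pi) _ - Real.sin (2 * Real.pi) •
      rot (2 * Real.pi) _ = Real.cos 0 • rot 0 _ - Real.sin 0 • rot 0 _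
    rw [hrot, hrot, Real.cos_two_pi, Real.sin_two_pi, Real.cos_zero, Real.sin_zero]
  have hccq : ∀ t, ccq ((p, r, q, 2 * Real.pi), t) = ccq ((p, r, q, 0), t) := by
    intro t
    unfold ccq
    rw [hcc]
  apply framed_eq
  intro t
  refine ⟨?_, ?_, ?_⟩
  · unfold Xi; rw [hccq]
  · unfold DD; rw [hccq, hdc]
  · unfold VV; rw [hccq, hvc]

theorem adm_left (u : ℝ) : Adm (-1 / 2, 1, 1 / 2, u) := by
  apply adm_disjoint one_pos <;> norm_num [abs_of_nonneg, abs_of_neg, abs_of_nonpos]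

theorem adm_right (u : ℝ) : Adm (1 / 2, 1, -1 / 2, u) := by
  apply adm_disjoint one_pos <;> norm_num [abs_of_nonneg, abs_of_neg, abs_of_nonpos]

/-- the base knot: a connected sum of two trefoils -/
def K0 : FramedLongKnot 3 := (adm_left 0).framed

theorem K0_eq : (adm_right 0).framed = K0 := by
  apply framed_eq
  intro t
  have hL : (1 : ℝ) / 4 + 1 / 4 ≤ |-1 / 2 - 1 / 2| := by norm_num
  have hR : (1 : ℝ) / 4 + 1 / 4 ≤ |1 / 2 - -1 / 2| := by norm_num
  have c1 : ∀ t : ℝ, cc ((-1 / 2, 1, 1 / 2, 0), t) = v3 (-1 / 2) 0 0 + be (t - -1 / 2) ∧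
      dc ((-1 / 2, 1, 1 / 2, 0), t) = deriv be (t - -1 / 2) ∧
      vc ((-1 / 2, 1, 1 / 2, 0), t) = ve (t - -1 / 2) := by
    intro t
    unfold cc dc vc
    simp only [rot_zero, one_smul, div_one, Real.cos_zero, Real.sin_zero, zero_smul, sub_zero]
    exact ⟨trivial, trivial, trivial⟩
  have c2 : ∀ t : ℝ, cc ((1 / 2, 1, -1 / 2, 0), t) = v3 (1 / 2) 0 0 + be (t - 1 / 2) ∧
      dc ((1 / 2, 1, -1 / 2, 0), t) = deriv be (t - 1 / 2) ∧
      vc ((1 / 2, 1, -1 / 2, 0), t) = ve (t - 1 / 2) := by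
    intro t
    unfold cc dc vc
    simp only [rot_zero, one_smul, div_one, Real.cos_zero, Real.sin_zero, zero_smul, sub_zero]
    exact ⟨trivial, trivial, trivial⟩
  rcases le_total (1 / 4) |t - 1 / 2| with h1 | h1
  · rcases le_total (1 / 4) |t - -1 / 2| with h2 | h2
    · obtain ⟨a1, a2, a3⟩ := far_eq (u := 0) one_pos hL h1
      obtain ⟨b1, b2, b3⟩ := far_eq (u := 0) one_pos hR h2
      obtain ⟨d1, d2, d3⟩ := c1 t
      obtain ⟨e1, e2, e3⟩ := c2 t
      rw [a1, a2, a3, b1, b2, b3, d1, d2, d3, e1, e2, e3, be_std (by linarith),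
        be_std (by linarith), deriv_be_std (by linarith), deriv_be_std (by linarith),
        ve_std (by linarith), ve_std (by linarith)]
      refine ⟨?_, rfl, rfl⟩
      apply ext3 <;> simp
    · obtain ⟨a1, a2, a3⟩ := far_eq (u := 0) one_pos hL h1
      obtain ⟨b1, b2, b3⟩ := near_eq (u := 0) one_pos hR h2
      obtain ⟨d1, d2, d3⟩ := c1 t
      rw [a1, a2, a3, b1, b2, b3, d1, d2, d3]
      exact ⟨rfl, rfl, rfl⟩
  · have h2 : 1 / 4 ≤ |t - -1 / 2| := by
      rw [abs_le] at h1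
      rw [abs_of_nonneg (by linarith)]; linarith
    obtain ⟨a1, a2, a3⟩ := near_eq (u := 0) one_pos hL h1
    obtain ⟨b1, b2, b3⟩ := far_eq (u := 0) one_pos hR h2
    obtain ⟨d1, d2, d3⟩ := c2 t
    rw [a1, a2, a3, b1, b2, b3, d1, d2, d3]
    exact ⟨rfl, rfl, rfl⟩

/-- the rotation of the left trefoil -/
def loop₁ : Path K0 K0 where
  toFun t := (adm_left (2 * Real.pi * t)).framed
  continuous_toFun := continuous_framed (γ := fun t : I => (-1 / 2, 1, 1 / 2, 2 * Real.pi * t))
    (by fun_prop) (fun t => adm_left _)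
  source' := framed_eq _ _ fun t => by simp
  target' := by
    have := framed_two_pi (adm_left (2 * Real.pi)) (adm_left 0)
    refine Eq.trans ?_ this
    exact framed_eq _ _ fun t => by simp

/-- the rotation of the right trefoil -/
def loop₂ : Path K0 K0 where
  toFun t := (adm_right (2 * Real.pi * t)).framed
  continuous_toFun := continuous_framed (γ := fun t : I => (1 / 2, 1, -1 / 2, 2 * Real.pi * t))
    (by fun_prop) (fun t => adm_right _)
  source' := by
    rw [← K0_eq]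
    exact framed_eq _ _ fun t => by simp
  target' := by
    rw [← K0_eq]
    have := framed_two_pi (adm_right (2 * Real.pi)) (adm_right 0)
    refine Eq.trans ?_ this
    exact framed_eq _ _ fun t => by simp

/-- The two rotations are freely homotopic. -/
theorem loops_free : ∃ H : C(I × I, FramedLongKnot 3), (∀ t, H (0, t) = loop₁ t) ∧
    (∀ t, H (1, t) = loop₂ t) ∧ ∀ s, H (s, 0) = H (s, 1) := by
  obtain ⟨r₀, h0, h1, h⟩ := exists_r0
  have hadm := adm_par h0 h1 h
  have hcont : Continuous (fun z : I × I => par r₀ z.1 (2 * Real.pi * z.2)) := by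
    unfold par
    have := cl_cont
    fun_prop
  refine ⟨⟨fun z => (hadm z.1 (2 * Real.pi * z.2)).framed, continuous_framed hcont _⟩, ?_, ?_, ?_⟩
  · intro t
    apply framed_eq
    intro x
    have e : par r₀ ((0 : I) : ℝ) (2 * Real.pi * t) = (-1 / 2, 1, 1 / 2, 2 * Real.pi * t) := by
      unfold par
      rw [cl_zero (by simp), cl_zero (by simp), cl_zero (by simp)]
      ext <;> simp
    simp only [e]
    exact ⟨trivial, trivial, trivial⟩
  · intro t
    apply framed_eq
    intro x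
    have e : par r₀ ((1 : I) : ℝ) (2 * Real.pi * t) = (1 / 2, 1, -1 / 2, 2 * Real.pi * t) := by
      unfold par
      rw [cl_one (by norm_num), cl_one (by norm_num), cl_one (by norm_num)]
      ext <;> simp <;> norm_num
    simp only [e]
    exact ⟨trivial, trivial, trivial⟩
  · intro s
    have := framed_two_pi (hadm s (2 * Real.pi)) (hadm s 0)
    have e0 : (hadm s (2 * Real.pi * ((0 : I) : ℝ))).framed = (hadm s 0).framed :=
      framed_eq _ _ fun t => by simp
    have e1 : (hadm s (2 * Real.pi * ((1 : I) : ℝ))).framed = (hadm s (2 * Real.pi)).framed :=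
      framed_eq _ _ fun t => by simp
    exact e0.trans (this.symm.trans e1.symm)

end Pool.Agent.H414_LK
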