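import Pool.Agent.H414_LK.Label
import Pool.Agent.H414_LK.Loops

/-!
# The complement of the connected sum of two trefoils, and its labelling
-/

set_option autoImplicit false

open scoped Topology unitInterval

noncomputable section

namespace Pool.Agent.H414_LK

/-- the base knot, on the left -/
theorem K0_left {t : ℝ} (ht : t ≤ 1 / 4) : K0.toFun t = v3 (-1 / 2) 0 0 + be (t + 1 / 2) := by
  have hL : (1 : ℝ) / 4 + 1 / 4 ≤ |-1 / 2 - 1 / 2| := by norm_num
  have h1 : 1 / 4 ≤ |t - 1 / 2| := by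
    rw [abs_of_nonpos (by linarith)]; linarith
  have := (far_eq (u := 0) one_pos hL h1).1
  show Xi ((-1 / 2, 1, 1 / 2, 0), t) = _
  rw [this]
  unfold cc
  simp only [rot_zero, one_smul, div_one]
  congr 2
  ring

/-- the base knot, on the right -/
theorem K0_right {t : ℝ} (ht : -1 / 4 ≤ t) : K0.toFun t = v3 (1 / 2) 0 0 + be (t - 1 / 2) := by
  have hL : (1 : ℝ) / 4 + 1 / 4 ≤ |1 / 2 - -1 / 2| := by norm_num
  have h1 : 1 / 4 ≤ |t - -1 / 2| := by
    rw [abs_of_nonneg (by linarith)]; linarith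
  have := (far_eq (u := 0) one_pos hL h1).1
  rw [← K0_eq]
  show Xi ((1 / 2, 1, -1 / 2, 0), t) = _
  rw [this]
  unfold cc
  simp only [rot_zero, one_smul, div_one]

theorem T_of_left {p : Eu 3} {t : ℝ} (h : v3 (-1 / 2) 0 0 + be (t + 1 / 2) = p) :
    T (28 * p 0 + 14) (28 * p 1) (28 * p 2) := by
  refine ⟨28 * (t + 1 / 2), ?_, ?_, ?_⟩
  · rw [← h]; simp [be]; ring
  · rw [← h]; simp [be]; ring
  · rw [← h]; simp [be]; ring

theorem T_of_right {p : Eu 3} {t : ℝ} (h : v3 (1 / 2) 0 0 + be (t - 1 / 2) = p) :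
    T (28 * p 0 - 14) (28 * p 1) (28 * p 2) := by
  refine ⟨28 * (t - 1 / 2), ?_, ?_, ?_⟩
  · rw [← h]; simp [be]; ring
  · rw [← h]; simp [be]; ring
  · rw [← h]; simp [be]; ring

theorem be_0_ge {t : ℝ} (h : -1 / 4 ≤ t) : -1 / 4 ≤ be t 0 := by
  rcases lt_or_ge |t| (1 / 4) with h1 | h1
  · have := (abs_lt.1 (be_0_lt h1)).1
    linarith
  · rw [be_std (by linarith)]
    simpa using h

theorem be_0_le {t : ℝ} (h : t ≤ 1 / 4) : be t 0 ≤ 1 / 4 := by
  rcases lt_or_ge |t| (1 / 4) with h1 | h1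
  · exact (abs_lt.1 (be_0_lt h1)).2.le
  · rw [be_std (by linarith)]
    simpa using h

theorem mem_left {p : Eu 3} (hp : 28 * p 0 < 8) :
    p ∈ Set.range K0.toFun ↔ T (28 * p 0 + 14) (28 * p 1) (28 * p 2) := by
  constructor
  · rintro ⟨t, ht⟩
    rcases le_or_gt t (1 / 4) with h | h
    · rw [K0_left h] at ht
      exact T_of_left ht
    · rw [K0_right (by linarith)] at ht
      have h1 := T_of_right ht
      have h0 : 1 / 4 ≤ p 0 := by
        rw [← ht]
        have := be_0_ge (t := t - 1 / 2) (by linarith)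
        simp only [add_app, v3_0]
        linarith
      rw [T_far (by rw [abs_of_nonpos (by linarith)]; linarith)] at h1
      rw [T_far (by rw [abs_of_nonneg (by linarith)]; linarith)]
      exact h1
  · rintro ⟨s, h0, h1, h2⟩
    rcases le_or_gt s 21 with h | h
    · refine ⟨s / 28 - 1 / 2, ?_⟩
      rw [K0_left (by linarith)]
      have e : 28 * (s / 28 - 1 / 2 + 1 / 2) = s := by ring
      unfold be
      rw [e, h0, h1, h2]
      apply ext3 <;> simp
      ring
    · rw [kx_std (Or.inr (by linarith))] at h0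
      rw [ky_std (Or.inr (by linarith))] at h1
      rw [kz_std (Or.inr (by linarith))] at h2
      refine ⟨p 0, ?_⟩
      rw [K0_right (by linarith), be_std (by rw [abs_of_nonpos (by linarith)]; linarith)]
      apply ext3
      · simp
      · simp only [add_app, v3_1]; linarith
      · simp only [add_app, v3_2]; linarith

theorem mem_right {p : Eu 3} (hp : -8 < 28 * p 0) :
    p ∈ Set.range K0.toFun ↔ T (28 * p 0 - 14) (28 * p 1) (28 * p 2) := by
  constructor
  · rintro ⟨t, ht⟩
    rcases le_or_gt (-1 / 4) t with h | h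
    · rw [K0_right h] at ht
      exact T_of_right ht
    · rw [K0_left (by linarith)] at ht
      have h1 := T_of_left ht
      have h0 : p 0 ≤ -1 / 4 := by
        rw [← ht]
        have := be_0_le (t := t + 1 / 2) (by linarith)
        simp only [add_app, v3_0]
        linarith
      rw [T_far (by rw [abs_of_nonneg (by linarith)]; linarith)] at h1
      rw [T_far (by rw [abs_of_nonpos (by linarith)]; linarith)]
      exact h1
  · rintro ⟨s, h0, h1, h2⟩
    rcases le_or_gt (-21) s with h | h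
    · refine ⟨s / 28 + 1 / 2, ?_⟩
      rw [K0_right (by linarith)]
      have e : 28 * (s / 28 + 1 / 2 - 1 / 2) = s := by ring
      unfold be
      rw [e, h0, h1, h2]
      apply ext3 <;> simp
      ring
    · rw [kx_std (Or.inl (by linarith))] at h0
      rw [ky_std (Or.inl (by linarith))] at h1
      rw [kz_std (Or.inl (by linarith))] at h2
      refine ⟨p 0, ?_⟩
      rw [K0_left (by linarith), be_std (by rw [abs_of_nonneg (by linarith)]; linarith)]
      apply ext3
      · simp only [add_app, v3_0]; ring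
      · simp only [add_app, v3_1]; linarith
      · simp only [add_app, v3_2]; linarith

/-- the complement of the base knot -/
abbrev Co : Type := {p : Eu 3 // p ∉ Set.range K0.toFun}

variable {G : Type} [Group G]

/-- translation of labels -/
def sh (c : ℤ) (x : PF (ℤ × ℤ) G) : PF (ℤ × ℤ) G where
  f ij := x.f (ij.1 - c, ij.2)
  ne := by
    obtain ⟨⟨i, j⟩, g, h⟩ := x.ne
    exact ⟨(i + c, j), g, by simpa using h⟩

omit [Group G] in
theorem sh_le {c : ℤ} {x y : PF (ℤ × ℤ) G} (h : x.le y) : (sh c x).le (sh c y) :=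
  fun ij g hg => h (ij.1 - c, ij.2) g hg

theorem sh_smul (c : ℤ) (g : G) (x : PF (ℤ × ℤ) G) : sh c (g • x) = g • sh c x :=
  PF.ext' fun _ => rfl

/-- labels in the left chart -/
def lamL (a b : G) (p : Eu 3) : PF (ℤ × ℤ) G :=
  sh (-14) (lam (lab a b) (28 * p 0 + 14) (28 * p 1) (28 * p 2))

/-- labels in the right chart -/
def lamR (a : G) (p : Eu 3) : PF (ℤ × ℤ) G :=
  sh 14 (lam (lab a a) (28 * p 0 - 14) (28 * p 1) (28 * p 2))

open Classical in
/-- the labels -/
def phi (a b : G) (p : Co) : PF (ℤ × ℤ) G :=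
  if 28 * p.1 0 < 0 then lamL a b p.1 else lamR a p.1

theorem lab_far (a b : G) {i j : ℤ} (h : 2 ≤ i ∨ i ≤ -3) :
    lab a b i j = if 0 ≤ j then 1 else a := by
  have hj : j = 1 ∨ j = 0 ∨ j = -1 ∨ j = -2 ∨ 2 ≤ j ∨ j ≤ -3 := by omega
  rcases hj with rfl | rfl | rfl | rfl | hj | hj
  · rw [lab_1, if_neg (by omega), if_pos (by omega)]
  · rw [lab_0, if_neg (by omega), if_neg (by omega), if_neg (by omega), if_pos (by omega)]
  · rw [lab_m1, if_neg (by omega), if_neg (by omega), if_neg (by omega), if_neg (by omega)]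
  · rw [lab_m2, if_neg (by omega), if_neg (by omega)]
  · rw [lab_up _ _ _ hj, if_pos (by omega)]
  · rw [lab_down _ _ _ hj, if_neg (by omega)]

theorem lval_far {L : ℤ → ℤ → G} {x : ℝ} (hx : 6 ≤ |x|) (y z : ℝ) (i j : ℤ) :
    lval L x y z i j = (open Classical in if y = 0 ∧ z < 0 then L i j else 1) := by
  unfold lval
  by_cases h : y = 0 ∧ z < 0
  · rw [if_neg (not_not.2 ⟨0, h.2, (T_far hx).2 ⟨h.1, rfl⟩⟩), if_pos, if_pos h]
    rintro ⟨w, hw, hw2⟩
    have := ((T_far hx).1 hw2).2
    linarith [h.2]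
  · rw [if_pos, if_neg h]
    rintro ⟨w, hw, hw2⟩
    obtain ⟨hy, hw0⟩ := (T_far hx).1 hw2
    rw [hw0] at hw
    exact h ⟨hy, hw⟩

open Classical in
theorem lam_f (L : ℤ → ℤ → G) (x y z : ℝ) (i j : ℤ) :
    (lam L x y z).f (i, j) = if NN x y i j then some (lval L x y z i j) else none := rfl

theorem lam_agree (a b : G) {p : Eu 3} (h1 : -8 < 28 * p 0) (h2 : 28 * p 0 < 8) :
    lamL a b p = lamR a p := by
  apply PF.ext'
  rintro ⟨i, j⟩
  show (lam (lab a b) (28 * p 0 + 14) (28 * p 1) (28 * p 2)).f (i - -14, j) =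
    (lam (lab a a) (28 * p 0 - 14) (28 * p 1) (28 * p 2)).f (i - 14, j)
  rw [lam_f, lam_f]
  have hN : NN (28 * p 0 + 14) (28 * p 1) (i - -14) j ↔
      NN (28 * p 0 - 14) (28 * p 1) (i - 14) j := by
    unfold NN
    push_cast
    constructor
    · rintro ⟨⟨a, b⟩, c⟩; exact ⟨⟨by linarith, by linarith⟩, c⟩
    · rintro ⟨⟨a, b⟩, c⟩; exact ⟨⟨by linarith, by linarith⟩, c⟩
  by_cases h : NN (28 * p 0 - 14) (28 * p 1) (i - 14) j
  · rw [if_pos h, if_pos (hN.2 h), lval_far, lval_far, lab_far, lab_far]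
    · right
      have := h.1.1
      push_cast at this
      have h3 : (i : ℝ) < 9 := by linarith
      have h4 : i < 9 := by exact_mod_cast h3
      omega
    · left
      have := h.1.2
      push_cast at this
      have h3 : (-10 : ℝ) < i := by linarith
      have h4 : -10 < i := by exact_mod_cast h3
      omega
    · rw [abs_of_nonpos (by linarith)]; linarith
    · rw [abs_of_nonneg (by linarith)]; linarith
  · rw [if_neg h, if_neg (fun h' => h (hN.1 h'))]

theorem phi_left (a b : G) {p : Co} (h : 28 * p.1 0 < 8) : phi a b p = lamL a b p.1 := by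
  unfold phi
  split_ifs with h0
  · rfl
  · exact (lam_agree a b (by linarith) h).symm

theorem phi_right (a b : G) {p : Co} (h : -8 < 28 * p.1 0) : phi a b p = lamR a p.1 := by
  unfold phi
  split_ifs with h0
  · exact lam_agree a b h (by linarith)
  · rfl

theorem coord_cont (i : Fin 3) : Continuous (fun p : Eu 3 => p i) :=
  (coord_contDiff' (n := ⊤) contDiff_id i).continuous

theorem phi_continuous {a b : G} (hab : a⁻¹ * b⁻¹ * a = b⁻¹ * a * b)
    (haa : a⁻¹ * a⁻¹ * a = a⁻¹ * a * a) : Continuous (fun p : Co => pq (phi a b p)) := by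
  apply continuous_pq_comp
  intro p
  have c0 : Continuous (fun q : Co => 28 * q.1 0) :=
    continuous_const.mul ((coord_cont 0).comp continuous_subtype_val)
  have c1 : Continuous (fun q : Co => 28 * q.1 1) :=
    continuous_const.mul ((coord_cont 1).comp continuous_subtype_val)
  have c2 : Continuous (fun q : Co => 28 * q.1 2) :=
    continuous_const.mul ((coord_cont 2).comp continuous_subtype_val)
  rcases lt_or_ge (28 * p.1 0) 8 with h | h
  · have hT : ¬ T (28 * p.1 0 + 14) (28 * p.1 1) (28 * p.1 2) := by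
      rw [← mem_left h]; exact p.2
    have h1 := (lab_good hab).near hT
    have hc : Continuous (fun q : Co => (28 * q.1 0 + 14, 28 * q.1 1, 28 * q.1 2)) :=
      (c0.add continuous_const).prodMk (c1.prodMk c2)
    have h2 := (hc.tendsto p).eventually h1
    have h3 : ∀ᶠ q : Co in 𝓝 p, 28 * q.1 0 < 8 := (c0.tendsto p).eventually (gt_mem_nhds h)
    filter_upwards [h2, h3] with q hq1 hq2
    obtain ⟨g, hg⟩ := hq1 (by rw [← mem_left hq2]; exact q.2)
    refine ⟨g, ?_⟩
    rw [phi_left a b h, phi_left a b hq2]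
    unfold lamL
    rw [← sh_smul]
    exact sh_le hg
  · have h' : -8 < 28 * p.1 0 := by linarith
    have hT : ¬ T (28 * p.1 0 - 14) (28 * p.1 1) (28 * p.1 2) := by
      rw [← mem_right h']; exact p.2
    have h1 := (lab_good haa).near hT
    have hc : Continuous (fun q : Co => (28 * q.1 0 - 14, 28 * q.1 1, 28 * q.1 2)) :=
      (c0.sub continuous_const).prodMk (c1.prodMk c2)
    have h2 := (hc.tendsto p).eventually h1
    have h3 : ∀ᶠ q : Co in 𝓝 p, -8 < 28 * q.1 0 := (c0.tendsto p).eventually (lt_mem_nhds h')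
    filter_upwards [h2, h3] with q hq1 hq2
    obtain ⟨g, hg⟩ := hq1 (by rw [← mem_right hq2]; exact q.2)
    refine ⟨g, ?_⟩
    rw [phi_right a b h', phi_right a b hq2]
    unfold lamR
    rw [← sh_smul]
    exact sh_le hg

/-! ### Holonomy along paths above and below the knot -/

/-- A path in the left chart with nothing above it has trivial holonomy. -/
theorem hol_top (a b : G) {p p' : Co} (γ : Path p p') (hx : ∀ t, 28 * (γ t).1 0 < 8)
    (hU : ∀ t, ¬ ∃ w, 28 * (γ t).1 2 < w ∧ T (28 * (γ t).1 0 + 14) (28 * (γ t).1 1) w) :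
    Hol (phi a b) γ 1 := by
  have hc : Continuous (fun t => phi a b (γ t)) := by
    rw [PF.continuous_iff']
    intro t
    have c0 : Continuous (fun s : I => 28 * (γ s).1 0 + 14) :=
      (continuous_const.mul ((coord_cont 0).comp (continuous_subtype_val.comp γ.continuous))).add
        continuous_const
    have c1 : Continuous (fun s : I => 28 * (γ s).1 1) :=
      continuous_const.mul ((coord_cont 1).comp (continuous_subtype_val.comp γ.continuous))
    filter_upwards [(c0.tendsto t).eventually (eventually_Cl _),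
      (c1.tendsto t).eventually (eventually_Cl _)] with s h0 h1
    rw [phi_left a b (hx s), phi_left a b (hx t)]
    unfold lamL
    apply sh_le
    have := lam_le (L := lab a b) (L' := lab a b) (g := (1 : G)) (x := 28 * (γ t).1 0 + 14)
      (y := 28 * (γ t).1 1) (z := 28 * (γ t).1 2) (x' := 28 * (γ s).1 0 + 14)
      (y' := 28 * (γ s).1 1) (z' := 28 * (γ s).1 2) (fun i j hij =>
        ⟨⟨h0.sub hij.1.1 hij.1.2, h1.sub hij.2.1 hij.2.2⟩, by
          unfold lval
          rw [if_pos (hU s), if_pos (hU t), mul_one]⟩)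
    rwa [one_smul] at this
  refine ⟨⟨⟨fun t => phi a b (γ t), hc⟩, ?_, ?_⟩, fun t => rfl⟩
  · simp
  · simp

open Classical in
/-- the labels from below -/
def lamB (L : ℤ → ℤ → G) (x y : ℝ) : PF (ℤ × ℤ) G where
  f ij := if NN x y ij.1 ij.2 then some (L ij.1 ij.2) else none
  ne := ⟨(⌊x⌋, ⌊y⌋), _, if_pos (NN_floor x y)⟩

theorem lamB_eq {L L' : ℤ → ℤ → G} {x y z : ℝ} {g : G}
    (h : ∀ i j, NN x y i j → lval L' x y z i j = g * L i j) :
    lam L' x y z = g • lamB L x y := by
  apply PF.ext'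
  rintro ⟨i, j⟩
  rw [PF.smul_f]
  unfold lam lamB
  simp only
  by_cases hN : NN x y i j
  · rw [if_pos hN, if_pos hN, h i j hN]; rfl
  · rw [if_neg hN, if_neg hN]; rfl

/-- A path in the left chart with nothing below it, with end points in regions. -/
theorem hol_bottom {a b : G} (hab : a⁻¹ * b⁻¹ * a = b⁻¹ * a * b) {p p' : Co} (γ : Path p p')
    (hx : ∀ t, 28 * (γ t).1 0 < 8)
    (hD : ∀ t, ¬ ∃ w, w < 28 * (γ t).1 2 ∧ T (28 * (γ t).1 0 + 14) (28 * (γ t).1 1) w)
    {g g' : G} (hp : ¬ ∃ w, T (28 * p.1 0 + 14) (28 * p.1 1) w)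
    (hp' : ¬ ∃ w, T (28 * p'.1 0 + 14) (28 * p'.1 1) w)
    (hg : ∀ i j, NN (28 * p.1 0 + 14) (28 * p.1 1) i j → lab a b i j = g)
    (hg' : ∀ i j, NN (28 * p'.1 0 + 14) (28 * p'.1 1) i j → lab a b i j = g') :
    Hol (phi a b) γ (g⁻¹ * g') := by
  have hc : Continuous (fun t => g⁻¹ • sh (-14) (lamB (lab a b) (28 * (γ t).1 0 + 14)
      (28 * (γ t).1 1))) := by
    rw [PF.continuous_iff']
    intro t
    have c0 : Continuous (fun s : I => 28 * (γ s).1 0 + 14) :=
      (continuous_const.mul ((coord_cont 0).comp (continuous_subtype_val.comp γ.continuous))).add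
        continuous_const
    have c1 : Continuous (fun s : I => 28 * (γ s).1 1) :=
      continuous_const.mul ((coord_cont 1).comp (continuous_subtype_val.comp γ.continuous))
    filter_upwards [(c0.tendsto t).eventually (eventually_Cl _),
      (c1.tendsto t).eventually (eventually_Cl _)] with s h0 h1
    apply PF.smul_le
    apply sh_le
    rintro ⟨i, j⟩ c hc
    unfold lamB at hc ⊢
    simp only at hc ⊢
    split_ifs at hc with hN
    rw [if_pos ⟨h0.sub hN.1.1 hN.1.2, h1.sub hN.2.1 hN.2.2⟩]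
    exact hc
  have e0 : phi a b p = g⁻¹ • sh (-14) (lamB (lab a b) (28 * p.1 0 + 14) (28 * p.1 1)) := by
    have hxp : 28 * p.1 0 < 8 := by have := hx 0; rwa [γ.source] at this
    rw [phi_left a b hxp, ← sh_smul]
    unfold lamL
    congr 1
    apply lamB_eq
    intro i j hij
    unfold lval
    rw [if_pos (fun ⟨w, _, hw⟩ => hp ⟨w, hw⟩), hg i j hij, inv_mul_cancel]
  have e1 : (g⁻¹ * g') • phi a b p' =
      g⁻¹ • sh (-14) (lamB (lab a b) (28 * p'.1 0 + 14) (28 * p'.1 1)) := by
    have hxp : 28 * p'.1 0 < 8 := by have := hx 1; rwa [γ.target] at this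
    rw [phi_left a b hxp, mul_smul]
    congr 1
    unfold lamL
    rw [← sh_smul]
    congr 1
    have := lamB_eq (L := lab a b) (L' := lab a b) (x := 28 * p'.1 0 + 14) (y := 28 * p'.1 1)
      (z := 28 * p'.1 2) (g := g'⁻¹) (by
        intro i j hij
        unfold lval
        rw [if_pos (fun ⟨w, _, hw⟩ => hp' ⟨w, hw⟩), hg' i j hij, inv_mul_cancel])
    rw [this, smul_inv_smul]
  refine ⟨⟨⟨fun t => g⁻¹ • sh (-14) (lamB (lab a b) (28 * (γ t).1 0 + 14) (28 * (γ t).1 1)), hc⟩,
    ?_, ?_⟩, ?_⟩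
  · simp only [γ.source]
    exact e0.symm
  · simp only [γ.target]
    exact e1.symm
  · intro t
    show pq (g⁻¹ • sh (-14) (lamB (lab a b) (28 * (γ t).1 0 + 14) (28 * (γ t).1 1))) = _
    rw [pq_smul, phi_left a b (hx t)]
    unfold lamL
    by_cases hU : ∃ w, 28 * (γ t).1 2 < w ∧ T (28 * (γ t).1 0 + 14) (28 * (γ t).1 1) w
    · congr 2
      have := lamB_eq (L := lab a b) (L' := lab a b) (x := 28 * (γ t).1 0 + 14)
        (y := 28 * (γ t).1 1) (z := 28 * (γ t).1 2) (g := (1 : G)) (by
          intro i j hij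
          unfold lval
          rw [if_neg (not_not.2 hU), if_pos (hD t), one_mul])
      rw [this, one_smul]
    · have hno : ¬ ∃ w, T (28 * (γ t).1 0 + 14) (28 * (γ t).1 1) w := by
        rintro ⟨w, hw⟩
        rcases lt_trichotomy w (28 * (γ t).1 2) with h | h | h
        · exact hD t ⟨w, h, hw⟩
        · rw [h, ← mem_left (hx t)] at hw
          exact (γ t).2 hw
        · exact hU ⟨w, h, hw⟩
      have := lamB_eq (L := lab a b) (L' := lab a b) (x := 28 * (γ t).1 0 + 14)
        (y := 28 * (γ t).1 1) (z := 28 * (γ t).1 2)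
        (g := (lab a b ⌊28 * (γ t).1 0 + 14⌋ ⌊28 * (γ t).1 1⌋)⁻¹) (by
          intro i j hij
          unfold lval
          rw [if_pos hU, (lab_good hab).alpha hno (NN_floor _ _) hij, inv_mul_cancel])
      rw [this, sh_smul, pq_smul]

end Pool.Agent.H414_LK
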