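import Pool.Agent.H414_LK.Defs

/-!
# Isotopy extension for families of long knots, by Lipschitz perturbations of the identity
-/

set_option autoImplicit false

open scoped unitInterval Topology

noncomputable section

namespace Pool.Agent.H414_LK

variable {n : ℕ} [NeZero n]

theorem norm_axis (t : ℝ) : ‖axis n t‖ = |t| := by
  simp [axis]

theorem axis_sub (s t : ℝ) : axis n s - axis n t = axis n (s - t) := by
  ext i
  by_cases h : i = 0 <;> simp [axis, h]

/-- Standing assumptions on a map `ℝ → ℝⁿ` : standard outside `[-1, 1]`, in the unit ball inside. -/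
structure Std (f : ℝ → Eu n) : Prop where
  out : ∀ t, 1 ≤ |t| → f t = axis n t
  ins : ∀ t, |t| ≤ 1 → ‖f t‖ ≤ 1

theorem LongKnot.std (f : LongKnot n) : Std f.toFun :=
  ⟨f.standard, fun t ht => by simpa using f.ball t ht⟩

/-- A Lipschitz left inverse of `f`. -/
def lsub (L : ℝ) (f : ℝ → Eu n) (p : Eu n) : ℝ := ⨅ u : ℝ, (u + L * ‖p - f u‖)

theorem Std.lower {f : ℝ → Eu n} (hf : Std f) {L : ℝ} (hL : 2 ≤ L) (p : Eu n) (u : ℝ) :
    -1 - L * ‖p‖ ≤ u + L * ‖p - f u‖ := by
  rcases le_total 1 |u| with h | h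
  · have h1 : |u| - ‖p‖ ≤ ‖p - f u‖ := by
      have := norm_sub_norm_le (f u) p
      rw [hf.out u h, norm_axis, norm_sub_rev] at this
      rw [hf.out u h]; exact this
    have h2 : L * (|u| - ‖p‖) ≤ L * ‖p - f u‖ := mul_le_mul_of_nonneg_left h1 (by linarith)
    have h3 : -|u| ≤ u := neg_abs_le u
    nlinarith [abs_nonneg u]
  · have h1 : 0 ≤ L * ‖p - f u‖ := mul_nonneg (by linarith) (norm_nonneg _)
    have h2 : 0 ≤ L * ‖p‖ := mul_nonneg (by linarith) (norm_nonneg _)
    have h3 := (abs_le.1 h).1
    linarith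

theorem Std.bdd {f : ℝ → Eu n} (hf : Std f) {L : ℝ} (hL : 2 ≤ L) (p : Eu n) :
    BddBelow (Set.range (fun u : ℝ => u + L * ‖p - f u‖)) :=
  ⟨-1 - L * ‖p‖, by rintro _ ⟨u, rfl⟩; exact hf.lower hL p u⟩

theorem lsub_le_of {f f' : ℝ → Eu n} (hf : Std f) {L : ℝ} (hL : 2 ≤ L) (p p' : Eu n)
    (δ : ℝ) (hδ : ∀ u, ‖f u - f' u‖ ≤ δ) : lsub L f p ≤ lsub L f' p' + L * (‖p - p'‖ + δ) := by
  have key : ∀ u, lsub L f p - L * (‖p - p'‖ + δ) ≤ u + L * ‖p' - f' u‖ := by
    intro u
    have h1 : lsub L f p ≤ u + L * ‖p - f u‖ := ciInf_le (hf.bdd hL p) u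
    have h2 : ‖p - f u‖ ≤ ‖p' - f' u‖ + (‖p - p'‖ + δ) := by
      have e : p - f u = (p' - f' u) + ((p - p') + (f' u - f u)) := by abel
      rw [e]
      refine (norm_add_le _ _).trans ?_
      have h3 := norm_add_le (p - p') (f' u - f u)
      have h4 := hδ u
      rw [norm_sub_rev] at h4
      linarith
    have h3 : L * ‖p - f u‖ ≤ L * (‖p' - f' u‖ + (‖p - p'‖ + δ)) :=
      mul_le_mul_of_nonneg_left h2 (by linarith)
    linarith
  have := le_ciInf key
  unfold lsub at *
  linarith

theorem lsub_abs {f f' : ℝ → Eu n} (hf : Std f) (hf' : Std f') {L : ℝ} (hL : 2 ≤ L) (p p' : Eu n)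
    (δ : ℝ) (hδ : ∀ u, ‖f u - f' u‖ ≤ δ) : |lsub L f p - lsub L f' p'| ≤ L * (‖p - p'‖ + δ) := by
  rw [abs_le]
  have h1 := lsub_le_of hf hL p p' δ hδ
  have h2 := lsub_le_of hf' hL p' p δ (fun u => by rw [norm_sub_rev]; exact hδ u)
  rw [norm_sub_rev p' p] at h2
  constructor <;> linarith

theorem lsub_apply {f : ℝ → Eu n} (hf : Std f) {L : ℝ} (hL : 2 ≤ L)
    (hexp : ∀ u v, |u - v| ≤ L * ‖f u - f v‖) (u : ℝ) : lsub L f (f u) = u := by
  apply le_antisymm
  · have := ciInf_le (hf.bdd hL (f u)) u
    simpa [lsub] using this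
  · apply le_ciInf
    intro v
    have := hexp u v
    have h2 := le_abs_self (u - v)
    linarith

theorem lsub_base {f : ℝ → Eu n} (hf : Std f) {L : ℝ} (hL : 2 ≤ L) (b : Eu n) (hb0 : b 0 = 0)
    (hb : 3 ≤ ‖b‖) : 1 ≤ lsub L f b := by
  apply le_ciInf
  intro u
  rcases le_total 1 |u| with h | h
  · rw [hf.out u h]
    have h1 : |u| ≤ ‖b - axis n u‖ := by
      have := EuclideanSpace.norm_eq (b - axis n u)
      have h2 : |(b - axis n u) 0| ≤ ‖b - axis n u‖ := by
        have := PiLp.norm_apply_le (b - axis n u) 0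
        simpa using this
      have h3 : (b - axis n u) 0 = -u := by
        simp [axis, hb0]
      rw [h3, abs_neg] at h2
      exact h2
    have h2 : L * |u| ≤ L * ‖b - axis n u‖ := mul_le_mul_of_nonneg_left h1 (by linarith)
    have h3 : -|u| ≤ u := neg_abs_le u
    nlinarith
  · have h1 : 2 ≤ ‖b - f u‖ := by
      have := norm_sub_norm_le b (f u)
      have := hf.ins u h
      linarith
    have h3 := (abs_le.1 h).1
    nlinarith

/-- The elementary move, taking `f` to `f'`. -/
def emove (L : ℝ) (f f' : ℝ → Eu n) (p : Eu n) : Eu n :=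
  p + (f' (lsub L f p) - f (lsub L f p))

omit [NeZero n] in
theorem emove_self (L : ℝ) (f : ℝ → Eu n) (p : Eu n) : emove L f f p = p := by
  simp [emove]

theorem emove_apply {f f' : ℝ → Eu n} (hf : Std f) {L : ℝ} (hL : 2 ≤ L)
    (hexp : ∀ u v, |u - v| ≤ L * ‖f u - f v‖) (u : ℝ) : emove L f f' (f u) = f' u := by
  simp [emove, lsub_apply hf hL hexp]

theorem emove_base {f f' : ℝ → Eu n} (hf : Std f) (hf' : Std f') {L : ℝ} (hL : 2 ≤ L) (b : Eu n)
    (hb0 : b 0 = 0) (hb : 3 ≤ ‖b‖) : emove L f f' b = b := by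
  have h := lsub_base hf hL b hb0 hb
  have h1 : 1 ≤ |lsub L f b| := h.trans (le_abs_self _)
  simp [emove, hf.out _ h1, hf'.out _ h1]

theorem emove_inj {f f' : ℝ → Eu n} (hf : Std f) {L : ℝ} (hL : 2 ≤ L)
    (hlip : ∀ u v, ‖(f' u - f u) - (f' v - f v)‖ ≤ 1 / (2 * L) * |u - v|) :
    Function.Injective (emove L f f') := by
  intro p q hpq
  unfold emove at hpq
  have h1 : p - q = -((f' (lsub L f p) - f (lsub L f p)) - (f' (lsub L f q) - f (lsub L f q))) := by
    have := sub_eq_zero.2 hpq
    rw [← sub_eq_zero]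
    rw [← this]
    abel
  have h2 := hlip (lsub L f p) (lsub L f q)
  have h3 := lsub_abs hf hf hL p q 0 (fun u => by simp)
  rw [add_zero] at h3
  have h4 : ‖p - q‖ ≤ 1 / (2 * L) * (L * ‖p - q‖) := by
    rw [h1, norm_neg]
    refine h2.trans ?_
    rw [← norm_neg, ← h1]
    exact mul_le_mul_of_nonneg_left h3 (by positivity)
  have h5 : 1 / (2 * L) * (L * ‖p - q‖) = ‖p - q‖ / 2 := by
    field_simp
  rw [h5] at h4
  have h6 : ‖p - q‖ = 0 := by linarith [norm_nonneg (p - q)]
  exact sub_eq_zero.1 (norm_eq_zero.1 h6)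

/-! ### Families -/

theorem continuous_jet (k : ℕ) :
    Continuous (fun f : LongKnot n => jet f.toFun f.smooth k) := by
  have h : Continuous (fun f : LongKnot n => fun k : ℕ => jet f.toFun f.smooth k) :=
    continuous_induced_dom
  exact (continuous_apply k).comp h

theorem continuous_eval_jet {S : Type*} [TopologicalSpace S] {H : S → LongKnot n}
    (hH : Continuous H) (k : ℕ) :
    Continuous (fun z : S × ℝ => iteratedDeriv k (H z.1).toFun z.2) := by
  have h : Continuous (fun z : S × ℝ => jet (H z.1).toFun (H z.1).smooth k z.2) :=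
    Continuous.eval ((continuous_jet k).comp (hH.comp continuous_fst)) continuous_snd
  exact h

theorem continuous_eval {S : Type*} [TopologicalSpace S] {H : S → LongKnot n}
    (hH : Continuous H) : Continuous (fun z : S × ℝ => (H z.1).toFun z.2) := by
  simpa using continuous_eval_jet hH 0

theorem continuous_eval_deriv {S : Type*} [TopologicalSpace S] {H : S → LongKnot n}
    (hH : Continuous H) : Continuous (fun z : S × ℝ => deriv (H z.1).toFun z.2) := by
  simpa using continuous_eval_jet hH 1

theorem LongKnot.injective (f : LongKnot n) : Function.Injective f.toFun := f.embedding.injective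

theorem LongKnot.differentiable (f : LongKnot n) : Differentiable ℝ f.toFun :=
  f.smooth.differentiable (by simp)

theorem LongKnot.continuous_deriv (f : LongKnot n) : Continuous (deriv f.toFun) :=
  f.smooth.continuous_deriv (by simp)

/-- The mean slope. -/
def slope' (f : ℝ → Eu n) (u v : ℝ) : Eu n := ∫ θ in (0:ℝ)..1, deriv f (v + θ * (u - v))

theorem slope'_spec (f : LongKnot n) (u v : ℝ) :
    f.toFun u - f.toFun v = (u - v) • slope' f.toFun u v := by
  unfold slope'
  have h1 : ∀ θ ∈ Set.uIcc (0:ℝ) 1, HasDerivAt (fun θ : ℝ => f.toFun (v + θ * (u - v)))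
      ((u - v) • deriv f.toFun (v + θ * (u - v))) θ := by
    intro θ _
    have hd := (f.differentiable (v + θ * (u - v))).hasDerivAt
    have hl : HasDerivAt (fun θ : ℝ => v + θ * (u - v)) (u - v) θ := by
      simpa using ((hasDerivAt_id θ).mul_const (u - v)).const_add v
    exact HasDerivAt.scomp θ hd hl
  have h2 := intervalIntegral.integral_eq_sub_of_hasDerivAt h1 (by
    apply Continuous.intervalIntegrable
    have := f.continuous_deriv
    fun_prop)
  rw [intervalIntegral.integral_smul] at h2
  rw [h2]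
  simp

theorem continuous_slope' {S : Type*} [TopologicalSpace S] [FirstCountableTopology S]
    [LocallyCompactSpace S] {H : S → LongKnot n}
    (hH : Continuous H) : Continuous (fun z : S × ℝ × ℝ => slope' (H z.1).toFun z.2.1 z.2.2) := by
  unfold slope'
  have := continuous_eval_deriv hH
  apply intervalIntegral.continuous_parametric_intervalIntegral_of_continuous' (μ := MeasureTheory.volume)
  have h2 : Continuous (fun w : (S × ℝ × ℝ) × ℝ => ((w.1.1, w.1.2.2 + w.2 * (w.1.2.1 - w.1.2.2)) : S × ℝ)) := by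
    fun_prop
  exact this.comp h2

theorem slope'_ne (f : LongKnot n) (u v : ℝ) : slope' f.toFun u v ≠ 0 := by
  by_cases h : u = v
  · subst h
    unfold slope'
    simpa using f.immersion u
  · intro h0
    have := slope'_spec f u v
    rw [h0, smul_zero, sub_eq_zero] at this
    exact h (f.injective this)

theorem exists_expanding {S : Type*} [TopologicalSpace S] [FirstCountableTopology S]
    [LocallyCompactSpace S] [CompactSpace S] {H : S → LongKnot n} (hH : Continuous H) :
    ∃ L : ℝ, 2 ≤ L ∧ ∀ z u v, |u - v| ≤ L * ‖(H z).toFun u - (H z).toFun v‖ := by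
  rcases isEmpty_or_nonempty S with hS | hS
  · exact ⟨2, le_rfl, fun z => (hS.false z).elim⟩
  have hc := continuous_slope' hH
  have hK : IsCompact (Set.univ ×ˢ (Set.Icc (-2:ℝ) 2 ×ˢ Set.Icc (-2:ℝ) 2) : Set (S × ℝ × ℝ)) :=
    isCompact_univ.prod (isCompact_Icc.prod isCompact_Icc)
  obtain ⟨z₀, hz₀, hmin⟩ := hK.exists_isMinOn
    (⟨(hS.some, 0, 0), by simp⟩) (hc.norm.continuousOn)
  set c := ‖slope' (H z₀.1).toFun z₀.2.1 z₀.2.2‖ with hcdef
  have hcpos : 0 < c := norm_pos_iff.2 (slope'_ne _ _ _)
  refine ⟨max 3 (1 / c), le_trans (by norm_num) (le_max_left _ _), ?_⟩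
  intro z u v
  have hL3 : (3:ℝ) ≤ max 3 (1 / c) := le_max_left _ _
  have hLc : 1 / c ≤ max 3 (1 / c) := le_max_right _ _
  set L := max 3 (1 / c)
  have hstd := (H z).std
  -- a helper for the mixed case
  have mixed : ∀ u v : ℝ, |u| ≤ 1 → 2 ≤ |v| →
      |u - v| ≤ L * ‖(H z).toFun u - (H z).toFun v‖ := by
    intro u v hu hv
    have h1 : |v| - 1 ≤ ‖(H z).toFun u - (H z).toFun v‖ := by
      have := norm_sub_norm_le ((H z).toFun v) ((H z).toFun u)
      rw [norm_sub_rev, hstd.out v (by linarith), norm_axis] at this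
      rw [hstd.out v (by linarith)]
      have h2 := hstd.ins u hu
      linarith
    have h2 : |u - v| ≤ |v| + 1 := by
      have := abs_sub u v
      linarith
    nlinarith [norm_nonneg ((H z).toFun u - (H z).toFun v)]
  rcases le_total |u| 2 with hu | hu
  · rcases le_total |v| 2 with hv | hv
    · -- both in `[-2, 2]`
      have hm : c ≤ ‖slope' (H z).toFun u v‖ := hmin (a := (z, u, v))
        ⟨Set.mem_univ _, abs_le.1 hu, abs_le.1 hv⟩
      rw [slope'_spec, norm_smul, Real.norm_eq_abs]
      have h1 : 1 ≤ L * ‖slope' (H z).toFun u v‖ := by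
        have : (1:ℝ) = 1 / c * c := by field_simp
        rw [this]
        exact mul_le_mul hLc hm hcpos.le (by linarith)
      nlinarith [abs_nonneg (u - v)]
    · rcases le_total |u| 1 with hu1 | hu1
      · exact mixed u v hu1 hv
      · rw [hstd.out u hu1, hstd.out v (by linarith), axis_sub, norm_axis]
        nlinarith [abs_nonneg (u - v)]
  · rcases le_total |v| 1 with hv | hv
    · have := mixed v u hv hu
      rwa [abs_sub_comm, norm_sub_rev] at this
    · rw [hstd.out v hv, hstd.out u (by linarith), axis_sub, norm_axis]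
      nlinarith [abs_nonneg (u - v)]

omit [NeZero n] in
/-- uniform continuity on `[-1, 1]`, extended to the line -/
theorem unif_aux {S : Type*} [PseudoMetricSpace S] [CompactSpace S] {g : S → ℝ → Eu n}
    (hg : Continuous (fun z : S × ℝ => g z.1 z.2)) (hout : ∀ z z' u, 1 < |u| → g z u = g z' u)
    {ε : ℝ} (hε : 0 < ε) : ∃ δ > 0, ∀ z z', dist z z' < δ → ∀ u, ‖g z u - g z' u‖ ≤ ε := by
  let G : S × Set.Icc (-1:ℝ) 1 → Eu n := fun w => g w.1 w.2
  have hG : Continuous G := hg.comp (by fun_prop : Continuous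
    (fun w : S × Set.Icc (-1:ℝ) 1 => ((w.1, (w.2 : ℝ)) : S × ℝ)))
  have hu := CompactSpace.uniformContinuous_of_continuous hG
  rw [Metric.uniformContinuous_iff] at hu
  obtain ⟨δ, hδ, h⟩ := hu ε hε
  refine ⟨δ, hδ, fun z z' hz u => ?_⟩
  rcases le_or_gt |u| 1 with hu1 | hu1
  · have := h (a := (z, ⟨u, abs_le.1 hu1⟩)) (b := (z', ⟨u, abs_le.1 hu1⟩)) (by
      rw [Prod.dist_eq]; simp [hz])
    rw [dist_eq_norm] at this
    exact this.le
  · rw [hout z z' u hu1]; simp [hε.le]

theorem Std.deriv_eq {f f' : ℝ → Eu n} (hf : Std f) (hf' : Std f') (u : ℝ) (hu : 1 < |u|) :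
    deriv f u = deriv f' u := by
  apply Filter.EventuallyEq.deriv_eq
  have : ∀ᶠ v in nhds u, 1 < |v| := (continuous_abs.tendsto u).eventually (lt_mem_nhds hu)
  filter_upwards [this] with v hv
  rw [hf.out v hv.le, hf'.out v hv.le]

theorem exists_close {S : Type*} [PseudoMetricSpace S] [CompactSpace S] {H : S → LongKnot n}
    (hH : Continuous H) {ε : ℝ} (hε : 0 < ε) : ∃ δ > 0, ∀ z z', dist z z' < δ → ∀ u v,
      ‖((H z').toFun u - (H z).toFun u) - ((H z').toFun v - (H z).toFun v)‖ ≤ ε * |u - v| := by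
  obtain ⟨δ, hδ, h⟩ := unif_aux (continuous_eval_deriv hH)
    (fun z z' u hu => (H z).std.deriv_eq (H z').std u hu) hε
  refine ⟨δ, hδ, fun z z' hz u v => ?_⟩
  have hd : ∀ x ∈ (Set.univ : Set ℝ), DifferentiableAt ℝ (fun w => (H z').toFun w - (H z).toFun w) x :=
    fun x _ => ((H z').differentiable x).sub ((H z).differentiable x)
  have hb : ∀ x ∈ (Set.univ : Set ℝ), ‖deriv (fun w => (H z').toFun w - (H z).toFun w) x‖ ≤ ε := by
    intro x _
    have e : deriv (fun w => (H z').toFun w - (H z).toFun w) x =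
        deriv (H z').toFun x - deriv (H z).toFun x :=
      deriv_fun_sub ((H z').differentiable x) ((H z).differentiable x)
    rw [e, norm_sub_rev]
    exact h z z' hz x
  have := Convex.norm_image_sub_le_of_norm_deriv_le hd hb convex_univ (Set.mem_univ v)
    (Set.mem_univ u)
  simpa [Real.norm_eq_abs] using this

theorem continuous_lsub {S : Type*} [PseudoMetricSpace S] [CompactSpace S] {H : S → LongKnot n}
    (hH : Continuous H) {L : ℝ} (hL : 2 ≤ L) :
    Continuous (fun w : S × Eu n => lsub L (H w.1).toFun w.2) := by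
  rw [Metric.continuous_iff]
  rintro ⟨z, p⟩ ε hε
  have hL0 : 0 < L := by linarith
  obtain ⟨δ, hδ, h⟩ := unif_aux (g := fun z u => (H z).toFun u) (continuous_eval hH)
    (fun z z' u hu => by rw [(H z).std.out u hu.le, (H z').std.out u hu.le])
    (show 0 < ε / (4 * L) by positivity)
  refine ⟨min δ (ε / (4 * L)), lt_min hδ (by positivity), ?_⟩
  rintro ⟨z', p'⟩ hz
  rw [Prod.dist_eq, max_lt_iff] at hz
  have h1 : dist z' z < δ := lt_of_lt_of_le hz.1 (min_le_left _ _)
  have h2 : dist p' p < ε / (4 * L) := lt_of_lt_of_le hz.2 (min_le_right _ _)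
  rw [Real.dist_eq]
  have h3 := lsub_abs (H z').std (H z).std hL p' p (ε / (4 * L)) (h z' z h1)
  rw [dist_eq_norm] at h2
  refine lt_of_le_of_lt h3 ?_
  have h4 : L * (‖p' - p‖ + ε / (4 * L)) < L * (ε / (4 * L) + ε / (4 * L)) :=
    mul_lt_mul_of_pos_left (by linarith) hL0
  have h5 : L * (ε / (4 * L) + ε / (4 * L)) = ε / 2 := by field_simp; ring
  linarith

/-- the point `k / N` of the unit interval -/
def frac (N k : ℕ) : I := Set.projIcc 0 1 zero_le_one ((k : ℝ) / N)

theorem frac_zero (N : ℕ) : frac N 0 = 0 := by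
  unfold frac
  rw [Set.projIcc_of_le_left _ (by simp)]
  rfl

theorem frac_self {N : ℕ} (hN : 0 < N) : frac N N = 1 := by
  unfold frac
  rw [Set.projIcc_of_right_le _ (by rw [div_self]; positivity)]
  rfl

theorem frac_dist {N : ℕ} (k : ℕ) (t : I) :
    dist (frac N (k + 1) * t) (frac N k * t) ≤ 1 / N := by
  rw [Subtype.dist_eq, Real.dist_eq]
  have e : (((frac N (k + 1) * t : I) : ℝ) - ((frac N k * t : I) : ℝ)) =
      ((frac N (k + 1) : ℝ) - frac N k) * t := by
    push_cast; ring
  rw [e, abs_mul, abs_of_nonneg t.2.1]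
  have h1 : |(frac N (k + 1) : ℝ) - frac N k| ≤ |((k + 1 : ℕ) : ℝ) / N - (k : ℝ) / N| := by
    unfold frac
    have := Set.abs_projIcc_sub_projIcc (a := (0:ℝ)) (b := 1) (h := zero_le_one)
      (c := ((k + 1 : ℕ) : ℝ) / N) (d := (k : ℝ) / N)
    exact this
  have h2 : |((k + 1 : ℕ) : ℝ) / N - (k : ℝ) / N| = 1 / N := by
    have e2 : ((k + 1 : ℕ) : ℝ) / N - (k : ℝ) / N = 1 / N := by push_cast; ring
    rw [e2, abs_of_nonneg (by positivity)]
  rw [h2] at h1
  have h3 := t.2.2
  have h4 := abs_nonneg ((frac N (k + 1) : ℝ) - frac N k)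
  have h5 := t.2.1
  calc |(frac N (k + 1) : ℝ) - frac N k| * (t : ℝ)
      ≤ |(frac N (k + 1) : ℝ) - frac N k| * 1 := mul_le_mul_of_nonneg_left h3 h4
    _ ≤ 1 / N := by rw [mul_one]; exact h1

/-- The composition of the elementary moves. -/
def moves (L : ℝ) (N : ℕ) (H : I × I → LongKnot n) : ℕ → (I × I) × Eu n → Eu n
  | 0, w => w.2
  | k + 1, w => moves L N H k (w.1, emove L (H (w.1.1, frac N (k + 1) * w.1.2)).toFun
      (H (w.1.1, frac N k * w.1.2)).toFun w.2)

/-- **Isotopy extension.** For a continuous family of long knots over the square there is a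
continuous family of injective maps of space which carry the knots `H (s, t)` to the knots
`H (s, 0)` with their parametrisations, start at the identity, and fix the points far away from
the axis. -/
theorem isotopy_extension {H : I × I → LongKnot n} (hH : Continuous H) :
    ∃ R : (I × I) × Eu n → Eu n, Continuous R ∧ (∀ s p, R ((s, 0), p) = p) ∧
      (∀ s t u, R ((s, t), (H (s, t)).toFun u) = (H (s, 0)).toFun u) ∧
      (∀ z, Function.Injective (fun p => R (z, p))) ∧
      (∀ z (b : Eu n), b 0 = 0 → 3 ≤ ‖b‖ → R (z, b) = b) := by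
  obtain ⟨L, hL, hexp⟩ := exists_expanding hH
  have hL0 : 0 < L := by linarith
  obtain ⟨δ, hδ, hclose⟩ := exists_close hH (show 0 < 1 / (2 * L) by positivity)
  obtain ⟨N, hN⟩ := exists_nat_gt (1 / δ)
  have hN0 : 0 < N := by
    have : (0:ℝ) < N := lt_trans (by positivity) hN
    exact_mod_cast this
  have hNδ : (1:ℝ) / N < δ := by
    rw [div_lt_iff₀ (by exact_mod_cast hN0)]
    rw [div_lt_iff₀ hδ] at hN
    linarith
  refine ⟨moves L N H N, ?_, ?_, ?_, ?_, ?_⟩
  · have : ∀ k, Continuous (moves L N H k) := by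
      intro k
      induction k with
      | zero => exact continuous_snd
      | succ k ih =>
        have e : moves L N H (k + 1) = fun w => moves L N H k
          (w.1, emove L (H (w.1.1, frac N (k + 1) * w.1.2)).toFun
            (H (w.1.1, frac N k * w.1.2)).toFun w.2) := rfl
        rw [e]
        have hH1 : Continuous (fun w : (I × I) × Eu n => H (w.1.1, frac N (k + 1) * w.1.2)) :=
          hH.comp (by fun_prop)
        have hm1 : Continuous (fun z : I × I => H (z.1, frac N (k + 1) * z.2)) :=
          hH.comp (by fun_prop)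
        have hm0 : Continuous (fun z : I × I => H (z.1, frac N k * z.2)) :=
          hH.comp (by fun_prop)
        have hl : Continuous (fun w : (I × I) × Eu n =>
            lsub L (H (w.1.1, frac N (k + 1) * w.1.2)).toFun w.2) :=
          continuous_lsub hm1 hL
        refine ih.comp (Continuous.prodMk continuous_fst ?_)
        unfold emove
        refine continuous_snd.add (Continuous.sub ?_ ?_)
        · exact (continuous_eval hm0).comp (continuous_fst.prodMk hl)
        · exact (continuous_eval hm1).comp (continuous_fst.prodMk hl)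
    exact this N
  · intro s p
    have : ∀ k, moves L N H k ((s, 0), p) = p := by
      intro k
      induction k with
      | zero => rfl
      | succ k ih =>
        simp only [moves, mul_zero, emove_self]
        exact ih
    exact this N
  · intro s t u
    have : ∀ k, moves L N H k ((s, t), (H (s, frac N k * t)).toFun u) = (H (s, 0)).toFun u := by
      intro k
      induction k with
      | zero => simp [moves, frac_zero]
      | succ k ih =>
        simp only [moves]
        rw [emove_apply (H _).std hL (hexp _)]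
        exact ih
    have h := this N
    rwa [frac_self hN0, one_mul] at h
  · rintro ⟨s, t⟩
    have : ∀ k, Function.Injective (fun p => moves L N H k ((s, t), p)) := by
      intro k
      induction k with
      | zero => exact fun p q h => h
      | succ k ih =>
        intro p q h
        simp only [moves] at h
        have h1 := ih h
        refine emove_inj (H _).std hL ?_ h1
        apply hclose
        have := frac_dist (N := N) k t
        rw [Prod.dist_eq]
        simp only [dist_self]
        exact lt_of_le_of_lt (max_le (by positivity) this) hNδ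
    exact this N
  · rintro ⟨s, t⟩ b hb0 hb
    have : ∀ k, moves L N H k ((s, t), b) = b := by
      intro k
      induction k with
      | zero => rfl
      | succ k ih =>
        simp only [moves]
        rw [emove_base (H _).std (H _).std hL b hb0 hb]
        exact ih
    exact this N

end Pool.Agent.H414_LK
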