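import Pool.Agent.H414_LK.TubeLemma
import Pool.Agent.H414_LK.Isotopy

/-!
# The family of knots `Ξ`
-/

set_option autoImplicit false

open scoped Topology ContDiff

noncomputable section

namespace Pool.Agent.H414_LK

/-- rotation about the axis -/
def rot (u : ℝ) (x : Eu 3) : Eu 3 :=
  v3 (x 0) (Real.cos u * x 1 - Real.sin u * x 2) (Real.sin u * x 1 + Real.cos u * x 2)

@[simp] theorem rot_0 (u : ℝ) (x : Eu 3) : rot u x 0 = x 0 := rfl
@[simp] theorem rot_1 (u : ℝ) (x : Eu 3) :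
    rot u x 1 = Real.cos u * x 1 - Real.sin u * x 2 := rfl
@[simp] theorem rot_2 (u : ℝ) (x : Eu 3) :
    rot u x 2 = Real.sin u * x 1 + Real.cos u * x 2 := rfl

theorem rot_zero (x : Eu 3) : rot 0 x = x := by apply ext3 <;> simp

theorem rot_add (u v : ℝ) (x : Eu 3) : rot u (rot v x) = rot (u + v) x := by
  apply ext3 <;> simp [Real.cos_add, Real.sin_add] <;> ring

theorem rot_neg_cancel (u : ℝ) (x : Eu 3) : rot (-u) (rot u x) = x := by
  rw [rot_add, neg_add_cancel, rot_zero]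

theorem rot_cancel_neg (u : ℝ) (x : Eu 3) : rot u (rot (-u) x) = x := by
  rw [rot_add, add_neg_cancel, rot_zero]

theorem rot_inj (u : ℝ) : Function.Injective (rot u) :=
  Function.LeftInverse.injective (g := rot (-u)) (rot_neg_cancel u)

theorem rot_two_pi (x : Eu 3) : rot (2 * Real.pi) x = x := by apply ext3 <;> simp

theorem rot_axis (u t : ℝ) : rot u (v3 t 0 0) = v3 t 0 0 := by apply ext3 <;> simp

theorem rot_norm (u : ℝ) (x : Eu 3) : ‖rot u x‖ = ‖x‖ := by
  have h : ‖rot u x‖ ^ 2 = ‖x‖ ^ 2 := by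
    rw [normsq3, normsq3]
    simp only [rot_0, rot_1, rot_2]
    linear_combination (x 1 ^ 2 + x 2 ^ 2) * Real.sin_sq_add_cos_sq u
  exact (sq_eq_sq₀ (norm_nonneg _) (norm_nonneg _)).1 h

theorem rot_smul (u c : ℝ) (x : Eu 3) : rot u (c • x) = c • rot u x := by
  apply ext3 <;> simp <;> ring

theorem rot_addv (u : ℝ) (x y : Eu 3) : rot u (x + y) = rot u x + rot u y := by
  apply ext3 <;> simp <;> ring

theorem rot_cr (u : ℝ) (x y : Eu 3) : cr (rot u x) (rot u y) = rot u (cr x y) := by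
  apply ext3
  · simp only [cr, v3_0, rot_1, rot_2, rot_0]
    linear_combination (x 1 * y 2 - x 2 * y 1) * Real.sin_sq_add_cos_sq u
  · simp only [cr, v3_1, rot_1, rot_2, rot_0, v3_2]; ring
  · simp only [cr, v3_1, rot_1, rot_2, rot_0, v3_2]; ring

theorem rot_contDiff {E : Type*} [NormedAddCommGroup E] [NormedSpace ℝ E] {f : E → ℝ}
    {g : E → Eu 3} {x : E} (hf : ContDiffAt ℝ ∞ f x) (hg : ContDiffAt ℝ ∞ g x) :
    ContDiffAt ℝ ∞ (fun y => rot (f y) (g y)) x := by
  unfold rot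
  have hc := hf.cos
  have hs := hf.sin
  have g0 := coord_contDiff hg 0
  have g1 := coord_contDiff hg 1
  have g2 := coord_contDiff hg 2
  exact v3_contDiff g0 ((hc.mul g1).sub (hs.mul g2)) ((hs.mul g1).add (hc.mul g2))

/-- the parameters: position `p` and size `r` of the left knot, position `q` of the right
knot, angle `u` -/
abbrev Par : Type := ℝ × ℝ × ℝ × ℝ

/-- the inner knot -/
def cc (x : Par × ℝ) : Eu 3 :=
  v3 x.1.1 0 0 + x.1.2.1 • rot x.1.2.2.2 (be ((x.2 - x.1.1) / x.1.2.1))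

/-- its derivative -/
def dc (x : Par × ℝ) : Eu 3 := rot x.1.2.2.2 (deriv be ((x.2 - x.1.1) / x.1.2.1))

/-- a field along it -/
def vc (x : Par × ℝ) : Eu 3 :=
  Real.cos x.1.2.2.2 • rot x.1.2.2.2 (ve ((x.2 - x.1.1) / x.1.2.1)) -
    Real.sin x.1.2.2.2 • rot x.1.2.2.2 (ue ((x.2 - x.1.1) / x.1.2.1))

/-- `cc` relative to the center of the other knot -/
def ccq (x : Par × ℝ) : Eu 3 := cc x - v3 x.1.2.2.1 0 0

/-- the knot -/
def Xi (x : Par × ℝ) : Eu 3 := v3 x.1.2.2.1 0 0 + tu (ccq x)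

/-- its derivative -/
def DD (x : Par × ℝ) : Eu 3 := fderiv ℝ tu (ccq x) (dc x)

/-- the field along it -/
def VV (x : Par × ℝ) : Eu 3 := fderiv ℝ tu (ccq x) (vc x)

/-- the second normal vector -/
def N2 (x : Par × ℝ) : Eu 3 := (‖cr (DD x) (VV x)‖)⁻¹ • cr (DD x) (VV x)

/-- the first normal vector -/
def N1 (x : Par × ℝ) : Eu 3 := cr (N2 x) ((‖DD x‖)⁻¹ • DD x)

section smooth

theorem proj_p : ContDiff ℝ ∞ (fun x : Par × ℝ => x.1.1) := contDiff_fst.comp contDiff_fst
theorem proj_r : ContDiff ℝ ∞ (fun x : Par × ℝ => x.1.2.1) :=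
  contDiff_fst.comp (contDiff_snd.comp contDiff_fst)
theorem proj_q : ContDiff ℝ ∞ (fun x : Par × ℝ => x.1.2.2.1) :=
  contDiff_fst.comp (contDiff_snd.comp (contDiff_snd.comp contDiff_fst))
theorem proj_u : ContDiff ℝ ∞ (fun x : Par × ℝ => x.1.2.2.2) :=
  contDiff_snd.comp (contDiff_snd.comp (contDiff_snd.comp contDiff_fst))

variable {x : Par × ℝ}

theorem arg_contDiff (h : x.1.2.1 ≠ 0) :
    ContDiffAt ℝ ∞ (fun x : Par × ℝ => (x.2 - x.1.1) / x.1.2.1) x :=
  (contDiff_snd.contDiffAt.sub proj_p.contDiffAt).div proj_r.contDiffAt h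

theorem cc_contDiff (h : x.1.2.1 ≠ 0) : ContDiffAt ℝ ∞ cc x := by
  unfold cc
  have h1 : ContDiffAt ℝ ∞ (fun x : Par × ℝ => be ((x.2 - x.1.1) / x.1.2.1)) x :=
    be_contDiff.contDiffAt.comp x (arg_contDiff h)
  exact (v3_contDiff proj_p.contDiffAt contDiffAt_const contDiffAt_const).add
    (proj_r.contDiffAt.smul (rot_contDiff proj_u.contDiffAt h1))

theorem dc_contDiff (h : x.1.2.1 ≠ 0) : ContDiffAt ℝ ∞ dc x := by
  unfold dc
  exact rot_contDiff proj_u.contDiffAt (deriv_be_contDiff.contDiffAt.comp x (arg_contDiff h))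

theorem vc_contDiff (h : x.1.2.1 ≠ 0) : ContDiffAt ℝ ∞ vc x := by
  unfold vc
  have h1 := rot_contDiff (x := x) proj_u.contDiffAt (ve_contDiff.contDiffAt.comp x (arg_contDiff h))
  have h2 := rot_contDiff (x := x) proj_u.contDiffAt (ue_contDiff.contDiffAt.comp x (arg_contDiff h))
  exact (proj_u.contDiffAt.cos.smul h1).sub (proj_u.contDiffAt.sin.smul h2)

theorem ccq_contDiff (h : x.1.2.1 ≠ 0) : ContDiffAt ℝ ∞ ccq x := by
  unfold ccq
  exact (cc_contDiff h).sub (v3_contDiff proj_q.contDiffAt contDiffAt_const contDiffAt_const)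

theorem Xi_contDiff (h : x.1.2.1 ≠ 0) : ContDiffAt ℝ ∞ Xi x := by
  unfold Xi
  exact (v3_contDiff proj_q.contDiffAt contDiffAt_const contDiffAt_const).add
    (tu_contDiff.contDiffAt.comp x (ccq_contDiff h))

theorem fderiv_tu_contDiff : ContDiff ℝ ∞ (fderiv ℝ tu) :=
  tu_contDiff.fderiv_right (by simp)

theorem DD_contDiff (h : x.1.2.1 ≠ 0) : ContDiffAt ℝ ∞ DD x := by
  unfold DD
  exact (fderiv_tu_contDiff.contDiffAt.comp x (ccq_contDiff h)).clm_apply (dc_contDiff h)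

theorem VV_contDiff (h : x.1.2.1 ≠ 0) : ContDiffAt ℝ ∞ VV x := by
  unfold VV
  exact (fderiv_tu_contDiff.contDiffAt.comp x (ccq_contDiff h)).clm_apply (vc_contDiff h)

theorem N2_contDiff (h : x.1.2.1 ≠ 0) (h2 : cr (DD x) (VV x) ≠ 0) : ContDiffAt ℝ ∞ N2 x := by
  unfold N2
  have h1 := cr_contDiff (DD_contDiff h) (VV_contDiff h)
  exact ((h1.norm ℝ h2).inv (norm_ne_zero_iff.2 h2)).smul h1

theorem N1_contDiff (h : x.1.2.1 ≠ 0) (h2 : cr (DD x) (VV x) ≠ 0) (h3 : DD x ≠ 0) :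
    ContDiffAt ℝ ∞ N1 x := by
  unfold N1
  have h1 := DD_contDiff h
  exact cr_contDiff (N2_contDiff h h2)
    (((h1.norm ℝ h3).inv (norm_ne_zero_iff.2 h3)).smul h1)

end smooth

/-- Continuity of all derivatives in families. -/
theorem continuous_iteratedDeriv_family {S P E : Type*} [TopologicalSpace S]
    [NormedAddCommGroup P] [NormedSpace ℝ P] [NormedAddCommGroup E] [NormedSpace ℝ E]
    {γ : S → P} (hγ : Continuous γ) (k : ℕ) :
    ∀ (G : P × ℝ → E), (∀ s t, ContDiffAt ℝ ∞ G (γ s, t)) →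
      Continuous (fun z : S × ℝ => iteratedDeriv k (fun t => G (γ z.1, t)) z.2) := by
  induction k with
  | zero =>
    intro G hG
    simp only [iteratedDeriv_zero]
    rw [continuous_iff_continuousAt]
    rintro ⟨s, t⟩
    have h1 : ContinuousAt G (γ s, t) := (hG s t).continuousAt
    have h2 : ContinuousAt (fun z : S × ℝ => (γ z.1, z.2)) (s, t) :=
      ((hγ.comp continuous_fst).prodMk continuous_snd).continuousAt
    exact ContinuousAt.comp (f := fun z : S × ℝ => (γ z.1, z.2)) h1 h2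
  | succ k ih =>
    intro G hG
    have hG' : ∀ s t, ContDiffAt ℝ ∞ (fun x : P × ℝ => fderiv ℝ G x (0, 1)) (γ s, t) := by
      intro s t
      exact ((hG s t).fderiv_right (m := ∞) (by simp)).clm_apply contDiffAt_const
    have key : ∀ s, deriv (fun t => G (γ s, t)) = fun t => fderiv ℝ G (γ s, t) (0, 1) := by
      intro s
      funext t
      have hd : HasFDerivAt G (fderiv ℝ G (γ s, t)) (γ s, t) :=
        ((hG s t).differentiableAt (by simp)).hasFDerivAt
      have hc : HasDerivAt (fun t : ℝ => (γ s, t)) ((0 : P), (1 : ℝ)) t :=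
        (hasDerivAt_const t (γ s)).prodMk (hasDerivAt_id t)
      exact (hd.comp_hasDerivAt t hc).deriv
    have := ih _ hG'
    simp only [iteratedDeriv_succ', key]
    exact this

theorem contDiff_slice {P E : Type*}
    [NormedAddCommGroup P] [NormedSpace ℝ P] [NormedAddCommGroup E] [NormedSpace ℝ E]
    {G : P × ℝ → E} (P₀ : P) (h : ∀ t, ContDiffAt ℝ ∞ G (P₀, t)) :
    ContDiff ℝ ∞ (fun t : ℝ => G (P₀, t)) := by
  rw [contDiff_iff_contDiffAt]
  intro t
  exact (h t).comp t (contDiff_const.prodMk contDiff_id).contDiffAt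

end Pool.Agent.H414_LK
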