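import Pool.Agent.H414_LK.Step

/-!
# An explicit long trefoil

The knot runs along horizontal (`y` constant) and vertical (`x` constant) segments of the plane,
with `z ≤ 0` on the horizontal ones and `z > 0` on the open vertical ones.
-/

set_option autoImplicit false

open scoped Topology

noncomputable section

namespace Pool.Agent.H414_LK

/-- first coordinate -/
def kx (t : ℝ) : ℝ := t + (-2 - t) * st (t + 6) + 2 * st (t + 4) + 2 * st (t + 2) - 3 * st t +
  2 * st (t - 2) + (t - 1) * st (t - 4)

/-- second coordinate -/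
def ky (t : ℝ) : ℝ := 2 * st (t + 5) - 3 * st (t + 3) + 2 * st (t + 1) - 3 * st (t - 1) +
  2 * st (t - 3)

/-- the cutoff -/
def kc (t : ℝ) : ℝ := st (t + 6) * st (5 - t)

/-- third coordinate -/
def kz (t : ℝ) : ℝ := -(kc t * Real.sin (Real.pi * t))

theorem kc_nonneg (t : ℝ) : 0 ≤ kc t := mul_nonneg (st_nonneg _) (st_nonneg _)

theorem kc_le_one (t : ℝ) : kc t ≤ 1 := by
  unfold kc
  have h1 := st_nonneg (t + 6)
  have h2 := st_le_one (t + 6)
  have h3 := st_nonneg (5 - t)
  have h4 := st_le_one (5 - t)
  nlinarith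

theorem kc_one {t : ℝ} (h1 : -5 ≤ t) (h2 : t ≤ 4) : kc t = 1 := by
  unfold kc; rw [st_one (by linarith), st_one (by linarith)]; norm_num

theorem kc_zero_left {t : ℝ} (h : t ≤ -6) : kc t = 0 := by
  unfold kc; rw [st_zero (by linarith)]; simp

theorem kc_zero_right {t : ℝ} (h : 5 ≤ t) : kc t = 0 := by
  unfold kc; rw [st_zero (x := 5 - t) (by linarith)]; simp

/-- the sign of `sin (π t)` for `t` in `(m, m + 1)`, `m` even -/
theorem sin_pos_even {t : ℝ} (m : ℤ) (h1 : 2 * m < t) (h2 : t < 2 * m + 1) :
    0 < Real.sin (Real.pi * t) := by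
  have e : Real.sin (Real.pi * t) = Real.sin (Real.pi * (t - 2 * m)) := by
    have : Real.pi * (t - 2 * m) = Real.pi * t - m * (2 * Real.pi) := by ring
    rw [this, Real.sin_sub_int_mul_two_pi]
  rw [e]
  apply Real.sin_pos_of_pos_of_lt_pi
  · exact mul_pos Real.pi_pos (by linarith)
  · nlinarith [Real.pi_pos]

theorem sin_neg_odd {t : ℝ} (m : ℤ) (h1 : 2 * m - 1 < t) (h2 : t < 2 * m) :
    Real.sin (Real.pi * t) < 0 := by
  have e : Real.sin (Real.pi * t) = Real.sin (Real.pi * (t - 2 * m)) := by
    have : Real.pi * (t - 2 * m) = Real.pi * t - m * (2 * Real.pi) := by ring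
    rw [this, Real.sin_sub_int_mul_two_pi]
  rw [e]
  apply Real.sin_neg_of_neg_of_neg_pi_lt
  · exact mul_neg_of_pos_of_neg Real.pi_pos (by linarith)
  · nlinarith [Real.pi_pos]

theorem sin_nonneg_even {t : ℝ} (m : ℤ) (h1 : 2 * m ≤ t) (h2 : t ≤ 2 * m + 1) :
    0 ≤ Real.sin (Real.pi * t) := by
  have e : Real.sin (Real.pi * t) = Real.sin (Real.pi * (t - 2 * m)) := by
    have : Real.pi * (t - 2 * m) = Real.pi * t - m * (2 * Real.pi) := by ring
    rw [this, Real.sin_sub_int_mul_two_pi]
  rw [e]
  apply Real.sin_nonneg_of_nonneg_of_le_pi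
  · exact mul_nonneg Real.pi_pos.le (by linarith)
  · nlinarith [Real.pi_pos]

theorem kz_nonpos_of {t : ℝ} (h : 0 ≤ Real.sin (Real.pi * t)) : kz t ≤ 0 := by
  unfold kz
  have := mul_nonneg (kc_nonneg t) h
  linarith

theorem kz_pos_of {t : ℝ} (h1 : -5 ≤ t) (h2 : t ≤ 4) (h : Real.sin (Real.pi * t) < 0) :
    0 < kz t := by
  unfold kz
  rw [kc_one h1 h2]; linarith

/-- The description of the knot on the eleven intervals. -/
inductive Piece (t : ℝ) : Prop
  | h0 (ht : t ≤ -5) (x : kx t = t + (-2 - t) * st (t + 6)) (y : ky t = 0) (z : kz t ≤ 0)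
  | v1 (ht : -5 < t) (ht' : t < -4) (x : kx t = -2) (y : ky t = 2 * st (t + 5)) (z : 0 < kz t)
  | h1 (ht : -4 ≤ t) (ht' : t ≤ -3) (x : kx t = -2 + 2 * st (t + 4)) (y : ky t = 2) (z : kz t ≤ 0)
  | v2 (ht : -3 < t) (ht' : t < -2) (x : kx t = 0) (y : ky t = 2 - 3 * st (t + 3)) (z : 0 < kz t)
  | h2 (ht : -2 ≤ t) (ht' : t ≤ -1) (x : kx t = 2 * st (t + 2)) (y : ky t = -1) (z : kz t ≤ 0)
  | v3 (ht : -1 < t) (ht' : t < 0) (x : kx t = 2) (y : ky t = -1 + 2 * st (t + 1)) (z : 0 < kz t)
  | h3 (ht : 0 ≤ t) (ht' : t ≤ 1) (x : kx t = 2 - 3 * st t) (y : ky t = 1) (z : kz t ≤ 0)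
  | v4 (ht : 1 < t) (ht' : t < 2) (x : kx t = -1) (y : ky t = 1 - 3 * st (t - 1)) (z : 0 < kz t)
  | h4 (ht : 2 ≤ t) (ht' : t ≤ 3) (x : kx t = -1 + 2 * st (t - 2)) (y : ky t = -2) (z : kz t ≤ 0)
  | v5 (ht : 3 < t) (ht' : t < 4) (x : kx t = 1) (y : ky t = -2 + 2 * st (t - 3)) (z : 0 < kz t)
  | h5 (ht : 4 ≤ t) (x : kx t = 1 + (t - 1) * st (t - 4)) (y : ky t = 0) (z : kz t ≤ 0)

theorem kx_std {t : ℝ} (h : t ≤ -6 ∨ 5 ≤ t) : kx t = t := by
  unfold kx
  rcases h with h | h
  · rw [st_zero (by linarith), st_zero (by linarith), st_zero (by linarith), st_zero (by linarith),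
      st_zero (by linarith), st_zero (by linarith)]; ring
  · rw [st_one (by linarith), st_one (by linarith), st_one (by linarith), st_one (by linarith),
      st_one (by linarith), st_one (by linarith)]; ring

theorem ky_std {t : ℝ} (h : t ≤ -5 ∨ 4 ≤ t) : ky t = 0 := by
  unfold ky
  rcases h with h | h
  · rw [st_zero (by linarith), st_zero (by linarith), st_zero (by linarith), st_zero (by linarith),
      st_zero (by linarith)]; ring
  · rw [st_one (by linarith), st_one (by linarith), st_one (by linarith), st_one (by linarith),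
      st_one (by linarith)]; ring

theorem kz_std {t : ℝ} (h : t ≤ -6 ∨ 5 ≤ t) : kz t = 0 := by
  unfold kz
  rcases h with h | h
  · rw [kc_zero_left h]; simp
  · rw [kc_zero_right h]; simp

theorem piece (t : ℝ) : Piece t := by
  rcases le_or_gt t (-5) with h0 | h0
  · refine .h0 h0 ?_ (ky_std (Or.inl h0)) ?_
    · unfold kx
      rw [st_zero (x := t + 4) (by linarith), st_zero (x := t + 2) (by linarith),
        st_zero (x := t) (by linarith), st_zero (x := t - 2) (by linarith),
        st_zero (x := t - 4) (by linarith)]; ring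
    · rcases le_or_gt t (-6) with h | h
      · rw [kz_std (Or.inl h)]
      · exact kz_nonpos_of (sin_nonneg_even (-3) (by push_cast; linarith) (by push_cast; linarith))
  rcases lt_or_ge t (-4) with h1 | h1
  · refine .v1 h0 h1 ?_ ?_ (kz_pos_of (by linarith) (by linarith)
      (sin_neg_odd (-2) (by push_cast; linarith) (by push_cast; linarith)))
    · unfold kx
      rw [st_one (x := t + 6) (by linarith), st_zero (x := t + 4) (by linarith),
        st_zero (x := t + 2) (by linarith), st_zero (x := t) (by linarith),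
        st_zero (x := t - 2) (by linarith), st_zero (x := t - 4) (by linarith)]; ring
    · unfold ky
      rw [st_zero (x := t + 3) (by linarith), st_zero (x := t + 1) (by linarith),
        st_zero (x := t - 1) (by linarith), st_zero (x := t - 3) (by linarith)]; ring
  rcases le_or_gt t (-3) with h2 | h2
  · refine .h1 h1 h2 ?_ ?_ (kz_nonpos_of
      (sin_nonneg_even (-2) (by push_cast; linarith) (by push_cast; linarith)))
    · unfold kx
      rw [st_one (x := t + 6) (by linarith),
        st_zero (x := t + 2) (by linarith), st_zero (x := t) (by linarith),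
        st_zero (x := t - 2) (by linarith), st_zero (x := t - 4) (by linarith)]; ring
    · unfold ky
      rw [st_one (x := t + 5) (by linarith), st_zero (x := t + 3) (by linarith),
        st_zero (x := t + 1) (by linarith),
        st_zero (x := t - 1) (by linarith), st_zero (x := t - 3) (by linarith)]; ring
  rcases lt_or_ge t (-2) with h3 | h3
  · refine .v2 h2 h3 ?_ ?_ (kz_pos_of (by linarith) (by linarith)
      (sin_neg_odd (-1) (by push_cast; linarith) (by push_cast; linarith)))
    · unfold kx
      rw [st_one (x := t + 6) (by linarith), st_one (x := t + 4) (by linarith),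
        st_zero (x := t + 2) (by linarith), st_zero (x := t) (by linarith),
        st_zero (x := t - 2) (by linarith), st_zero (x := t - 4) (by linarith)]; ring
    · unfold ky
      rw [st_one (x := t + 5) (by linarith),
        st_zero (x := t + 1) (by linarith),
        st_zero (x := t - 1) (by linarith), st_zero (x := t - 3) (by linarith)]; ring
  rcases le_or_gt t (-1) with h4 | h4
  · refine .h2 h3 h4 ?_ ?_ (kz_nonpos_of
      (sin_nonneg_even (-1) (by push_cast; linarith) (by push_cast; linarith)))
    · unfold kx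
      rw [st_one (x := t + 6) (by linarith), st_one (x := t + 4) (by linarith),
        st_zero (x := t) (by linarith),
        st_zero (x := t - 2) (by linarith), st_zero (x := t - 4) (by linarith)]; ring
    · unfold ky
      rw [st_one (x := t + 5) (by linarith), st_one (x := t + 3) (by linarith),
        st_zero (x := t + 1) (by linarith),
        st_zero (x := t - 1) (by linarith), st_zero (x := t - 3) (by linarith)]; ring
  rcases lt_or_ge t 0 with h5 | h5
  · refine .v3 h4 h5 ?_ ?_ (kz_pos_of (by linarith) (by linarith)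
      (sin_neg_odd 0 (by push_cast; linarith) (by push_cast; linarith)))
    · unfold kx
      rw [st_one (x := t + 6) (by linarith), st_one (x := t + 4) (by linarith),
        st_one (x := t + 2) (by linarith), st_zero (x := t) (by linarith),
        st_zero (x := t - 2) (by linarith), st_zero (x := t - 4) (by linarith)]; ring
    · unfold ky
      rw [st_one (x := t + 5) (by linarith), st_one (x := t + 3) (by linarith),
        st_zero (x := t - 1) (by linarith), st_zero (x := t - 3) (by linarith)]; ring
  rcases le_or_gt t 1 with h6 | h6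
  · refine .h3 h5 h6 ?_ ?_ (kz_nonpos_of
      (sin_nonneg_even 0 (by push_cast; linarith) (by push_cast; linarith)))
    · unfold kx
      rw [st_one (x := t + 6) (by linarith), st_one (x := t + 4) (by linarith),
        st_one (x := t + 2) (by linarith),
        st_zero (x := t - 2) (by linarith), st_zero (x := t - 4) (by linarith)]; ring
    · unfold ky
      rw [st_one (x := t + 5) (by linarith), st_one (x := t + 3) (by linarith),
        st_one (x := t + 1) (by linarith),
        st_zero (x := t - 1) (by linarith), st_zero (x := t - 3) (by linarith)]; ring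
  rcases lt_or_ge t 2 with h7 | h7
  · refine .v4 h6 h7 ?_ ?_ (kz_pos_of (by linarith) (by linarith)
      (sin_neg_odd 1 (by push_cast; linarith) (by push_cast; linarith)))
    · unfold kx
      rw [st_one (x := t + 6) (by linarith), st_one (x := t + 4) (by linarith),
        st_one (x := t + 2) (by linarith), st_one (x := t) (by linarith),
        st_zero (x := t - 2) (by linarith), st_zero (x := t - 4) (by linarith)]; ring
    · unfold ky
      rw [st_one (x := t + 5) (by linarith), st_one (x := t + 3) (by linarith),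
        st_one (x := t + 1) (by linarith), st_zero (x := t - 3) (by linarith)]; ring
  rcases le_or_gt t 3 with h8 | h8
  · refine .h4 h7 h8 ?_ ?_ (kz_nonpos_of
      (sin_nonneg_even 1 (by push_cast; linarith) (by push_cast; linarith)))
    · unfold kx
      rw [st_one (x := t + 6) (by linarith), st_one (x := t + 4) (by linarith),
        st_one (x := t + 2) (by linarith), st_one (x := t) (by linarith),
        st_zero (x := t - 4) (by linarith)]; ring
    · unfold ky
      rw [st_one (x := t + 5) (by linarith), st_one (x := t + 3) (by linarith),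
        st_one (x := t + 1) (by linarith), st_one (x := t - 1) (by linarith),
        st_zero (x := t - 3) (by linarith)]; ring
  rcases lt_or_ge t 4 with h9 | h9
  · refine .v5 h8 h9 ?_ ?_ (kz_pos_of (by linarith) (by linarith)
      (sin_neg_odd 2 (by push_cast; linarith) (by push_cast; linarith)))
    · unfold kx
      rw [st_one (x := t + 6) (by linarith), st_one (x := t + 4) (by linarith),
        st_one (x := t + 2) (by linarith), st_one (x := t) (by linarith),
        st_one (x := t - 2) (by linarith), st_zero (x := t - 4) (by linarith)]; ring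
    · unfold ky
      rw [st_one (x := t + 5) (by linarith), st_one (x := t + 3) (by linarith),
        st_one (x := t + 1) (by linarith), st_one (x := t - 1) (by linarith)]; ring
  · refine .h5 h9 ?_ (ky_std (Or.inr h9)) ?_
    · unfold kx
      rw [st_one (x := t + 6) (by linarith), st_one (x := t + 4) (by linarith),
        st_one (x := t + 2) (by linarith), st_one (x := t) (by linarith),
        st_one (x := t - 2) (by linarith)]; ring
    · rcases le_or_gt 5 t with h | h
      · rw [kz_std (Or.inr h)]
      · exact kz_nonpos_of (sin_nonneg_even 2 (by push_cast; linarith) (by push_cast; linarith))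

/-! ### Injectivity -/

theorem rayL {t t' : ℝ} (h : t < t') (ht' : t' ≤ -5) :
    t + (-2 - t) * st (t + 6) < t' + (-2 - t') * st (t' + 6) := by
  have h1 : st (t + 6) ≤ st (t' + 6) := st_mono (by linarith)
  have h2 : st (t + 6) < 1 := st_lt_one (by linarith)
  have h3 := st_nonneg (t + 6)
  nlinarith [mul_pos (sub_pos.2 h) (sub_pos.2 h2), mul_nonneg (show (0:ℝ) ≤ -2 - t' by linarith)
    (sub_nonneg.2 h1)]

theorem rayR {t t' : ℝ} (h : t < t') (ht : 4 ≤ t) :
    1 + (t - 1) * st (t - 4) < 1 + (t' - 1) * st (t' - 4) := by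
  have h1 : st (t - 4) ≤ st (t' - 4) := st_mono (by linarith)
  have h2 : 0 < st (t' - 4) := st_pos (by linarith)
  nlinarith [mul_pos (sub_pos.2 h) h2, mul_nonneg (show (0:ℝ) ≤ t - 1 by linarith)
    (sub_nonneg.2 h1)]

theorem rayL_le {t : ℝ} (ht : t ≤ -5) : t + (-2 - t) * st (t + 6) ≤ -2 := by
  have h1 := st_nonneg (t + 6)
  have h2 := st_le_one (t + 6)
  nlinarith [mul_nonneg (show (0:ℝ) ≤ -2 - t by linarith) (sub_nonneg.2 h2)]

theorem rayR_ge {t : ℝ} (ht : 4 ≤ t) : 1 ≤ 1 + (t - 1) * st (t - 4) := by
  have h1 := st_nonneg (t - 4)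
  nlinarith [mul_nonneg (show (0:ℝ) ≤ t - 1 by linarith) h1]

theorem inj_h {t t' : ℝ} (hz : kz t ≤ 0) (hz' : kz t' ≤ 0) (hx : kx t = kx t')
    (hy : ky t = ky t') : t = t' := by
  rcases piece t with ⟨a, x, y, z⟩ | ⟨a, b, x, y, z⟩ | ⟨a, b, x, y, z⟩ | ⟨a, b, x, y, z⟩ |
    ⟨a, b, x, y, z⟩ | ⟨a, b, x, y, z⟩ | ⟨a, b, x, y, z⟩ | ⟨a, b, x, y, z⟩ | ⟨a, b, x, y, z⟩ |
    ⟨a, b, x, y, z⟩ | ⟨a, x, y, z⟩ <;>
  first
  | exact absurd hz (not_le.2 z)
  | (rcases piece t' with ⟨a', x', y', z'⟩ | ⟨a', b', x', y', z'⟩ | ⟨a', b', x', y', z'⟩ |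
      ⟨a', b', x', y', z'⟩ | ⟨a', b', x', y', z'⟩ | ⟨a', b', x', y', z'⟩ | ⟨a', b', x', y', z'⟩ |
      ⟨a', b', x', y', z'⟩ | ⟨a', b', x', y', z'⟩ | ⟨a', b', x', y', z'⟩ | ⟨a', x', y', z'⟩ <;>
    first
    | exact absurd hz' (not_le.2 z')
    | (exfalso; linarith)
    | (have := st_inj (by linarith) (by linarith) (by linarith) (by linarith)
        (show st (t + 4) = st (t' + 4) by linarith); linarith)
    | (have := st_inj (by linarith) (by linarith) (by linarith) (by linarith)
        (show st (t + 2) = st (t' + 2) by linarith); linarith)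
    | (have := st_inj (by linarith) (by linarith) (by linarith) (by linarith)
        (show st t = st t' by linarith); linarith)
    | (have := st_inj (by linarith) (by linarith) (by linarith) (by linarith)
        (show st (t - 2) = st (t' - 2) by linarith); linarith)
    | (rcases lt_trichotomy t t' with h | h | h
       · have := rayL h a'; exfalso; linarith
       · exact h
       · have := rayL h a; exfalso; linarith)
    | (rcases lt_trichotomy t t' with h | h | h
       · have := rayR h a; exfalso; linarith
       · exact h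
       · have := rayR h a'; exfalso; linarith)
    | (have := rayL_le a; have := rayR_ge a'; exfalso; linarith)
    | (have := rayL_le a'; have := rayR_ge a; exfalso; linarith))

theorem inj_v {t t' : ℝ} (hz : 0 < kz t) (hz' : 0 < kz t') (hx : kx t = kx t')
    (hy : ky t = ky t') : t = t' := by
  rcases piece t with ⟨a, x, y, z⟩ | ⟨a, b, x, y, z⟩ | ⟨a, b, x, y, z⟩ | ⟨a, b, x, y, z⟩ |
    ⟨a, b, x, y, z⟩ | ⟨a, b, x, y, z⟩ | ⟨a, b, x, y, z⟩ | ⟨a, b, x, y, z⟩ | ⟨a, b, x, y, z⟩ |
    ⟨a, b, x, y, z⟩ | ⟨a, x, y, z⟩ <;>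
  first
  | exact absurd hz (not_lt.2 z)
  | (rcases piece t' with ⟨a', x', y', z'⟩ | ⟨a', b', x', y', z'⟩ | ⟨a', b', x', y', z'⟩ |
      ⟨a', b', x', y', z'⟩ | ⟨a', b', x', y', z'⟩ | ⟨a', b', x', y', z'⟩ | ⟨a', b', x', y', z'⟩ |
      ⟨a', b', x', y', z'⟩ | ⟨a', b', x', y', z'⟩ | ⟨a', b', x', y', z'⟩ | ⟨a', x', y', z'⟩ <;>
    first
    | exact absurd hz' (not_lt.2 z')
    | (exfalso; linarith)
    | (have := st_inj (by linarith) (by linarith) (by linarith) (by linarith)
        (show st (t + 5) = st (t' + 5) by linarith); linarith)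
    | (have := st_inj (by linarith) (by linarith) (by linarith) (by linarith)
        (show st (t + 3) = st (t' + 3) by linarith); linarith)
    | (have := st_inj (by linarith) (by linarith) (by linarith) (by linarith)
        (show st (t + 1) = st (t' + 1) by linarith); linarith)
    | (have := st_inj (by linarith) (by linarith) (by linarith) (by linarith)
        (show st (t - 1) = st (t' - 1) by linarith); linarith)
    | (have := st_inj (by linarith) (by linarith) (by linarith) (by linarith)
        (show st (t - 3) = st (t' - 3) by linarith); linarith))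

theorem grid_inj {t t' : ℝ} (hx : kx t = kx t') (hy : ky t = ky t') (hz : kz t = kz t') :
    t = t' := by
  rcases le_or_gt (kz t) 0 with h | h
  · exact inj_h h (by rw [← hz]; exact h) hx hy
  · exact inj_v h (by rw [← hz]; exact h) hx hy

/-! ### Bounds -/

theorem kz_abs_le (t : ℝ) : |kz t| ≤ 1 := by
  unfold kz
  rw [abs_neg, abs_mul, abs_of_nonneg (kc_nonneg t)]
  have h1 := kc_le_one t
  have h2 := Real.abs_sin_le_one (Real.pi * t)
  have h3 := abs_nonneg (Real.sin (Real.pi * t))
  have h4 := kc_nonneg t
  nlinarith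

theorem ky_abs_le (t : ℝ) : |ky t| ≤ 2 := by
  rw [abs_le]
  rcases piece t with ⟨a, x, y, z⟩ | ⟨a, b, x, y, z⟩ | ⟨a, b, x, y, z⟩ | ⟨a, b, x, y, z⟩ |
    ⟨a, b, x, y, z⟩ | ⟨a, b, x, y, z⟩ | ⟨a, b, x, y, z⟩ | ⟨a, b, x, y, z⟩ | ⟨a, b, x, y, z⟩ |
    ⟨a, b, x, y, z⟩ | ⟨a, x, y, z⟩ <;> rw [y] <;> constructor <;>
  linarith [st_nonneg (t + 5), st_le_one (t + 5), st_nonneg (t + 3), st_le_one (t + 3),
    st_nonneg (t + 1), st_le_one (t + 1), st_nonneg (t - 1), st_le_one (t - 1),
    st_nonneg (t - 3), st_le_one (t - 3)]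

theorem kx_abs_le {t : ℝ} (h1 : -6 ≤ t) (h2 : t ≤ 5) : |kx t| ≤ 6 := by
  rw [abs_le]
  rcases piece t with ⟨a, x, y, z⟩ | ⟨a, b, x, y, z⟩ | ⟨a, b, x, y, z⟩ | ⟨a, b, x, y, z⟩ |
    ⟨a, b, x, y, z⟩ | ⟨a, b, x, y, z⟩ | ⟨a, b, x, y, z⟩ | ⟨a, b, x, y, z⟩ | ⟨a, b, x, y, z⟩ |
    ⟨a, b, x, y, z⟩ | ⟨a, x, y, z⟩ <;> rw [x] <;> constructor <;>
  first
  | linarith [st_nonneg (t + 4), st_le_one (t + 4), st_nonneg (t + 2), st_le_one (t + 2),
      st_nonneg t, st_le_one t, st_nonneg (t - 2), st_le_one (t - 2)]
  | nlinarith [st_nonneg (t + 6), st_le_one (t + 6), st_nonneg (t - 4), st_le_one (t - 4)]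

/-! ### Derivatives -/

def kx' (t : ℝ) : ℝ := 1 - st (t + 6) + (-2 - t) * st' (t + 6) + 2 * st' (t + 4) +
  2 * st' (t + 2) - 3 * st' t + 2 * st' (t - 2) + st (t - 4) + (t - 1) * st' (t - 4)

def ky' (t : ℝ) : ℝ := 2 * st' (t + 5) - 3 * st' (t + 3) + 2 * st' (t + 1) - 3 * st' (t - 1) +
  2 * st' (t - 3)

def kz' (t : ℝ) : ℝ := -((st' (t + 6) * st (5 - t) - st (t + 6) * st' (5 - t)) *
  Real.sin (Real.pi * t) + kc t * (Real.pi * Real.cos (Real.pi * t)))

theorem st_add_hasDerivAt (a t : ℝ) : HasDerivAt (fun s => st (s + a)) (st' (t + a)) t :=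
  (st_hasDerivAt (t + a)).comp_add_const t a

theorem st_sub_hasDerivAt (a t : ℝ) : HasDerivAt (fun s => st (s - a)) (st' (t - a)) t :=
  (st_hasDerivAt (t - a)).comp_sub_const t a

theorem kx_hasDerivAt (t : ℝ) : HasDerivAt kx (kx' t) t := by
  have h1 := hasDerivAt_id t
  have h2 : HasDerivAt (fun s : ℝ => -2 - s) (-1) t := by simpa using h1.const_sub (-2)
  have h3 : HasDerivAt (fun s : ℝ => s - 1) 1 t := by simpa using h1.sub_const 1
  have := (((((h1.add (h2.mul (st_add_hasDerivAt 6 t))).add
    ((st_add_hasDerivAt 4 t).const_mul 2)).add ((st_add_hasDerivAt 2 t).const_mul 2)).sub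
    ((st_hasDerivAt t).const_mul 3)).add ((st_sub_hasDerivAt 2 t).const_mul 2)).add
    (h3.mul (st_sub_hasDerivAt 4 t))
  refine this.congr_deriv ?_
  unfold kx'; ring

theorem ky_hasDerivAt (t : ℝ) : HasDerivAt ky (ky' t) t := by
  have := (((((st_add_hasDerivAt 5 t).const_mul 2).sub ((st_add_hasDerivAt 3 t).const_mul 3)).add
    ((st_add_hasDerivAt 1 t).const_mul 2)).sub ((st_sub_hasDerivAt 1 t).const_mul 3)).add
    ((st_sub_hasDerivAt 3 t).const_mul 2)
  exact this

theorem kz_hasDerivAt (t : ℝ) : HasDerivAt kz (kz' t) t := by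
  have h1 : HasDerivAt (fun s : ℝ => st (5 - s)) (-st' (5 - t)) t := by
    have h2 : HasDerivAt (fun s : ℝ => 5 - s) (-1) t := by
      simpa using (hasDerivAt_id t).const_sub 5
    have := (st_hasDerivAt (5 - t)).comp t h2
    simpa [Function.comp_def] using this
  have h3 : HasDerivAt (fun s : ℝ => Real.sin (Real.pi * s))
      (Real.cos (Real.pi * t) * (Real.pi * 1)) t :=
    ((hasDerivAt_id t).const_mul Real.pi).sin
  have := (((st_add_hasDerivAt 6 t).mul h1).mul h3).neg
  refine this.congr_deriv ?_
  simp only [Pi.mul_apply]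
  unfold kz' kc; ring

theorem cos_ne_int (m : ℤ) : Real.cos (Real.pi * m) ≠ 0 := by
  rw [mul_comm, Real.cos_int_mul_pi]
  positivity

theorem kz'_int (m : ℤ) (h1 : -5 ≤ (m : ℝ)) (h2 : (m : ℝ) ≤ 4) : kz' m ≠ 0 := by
  unfold kz'
  rw [show Real.sin (Real.pi * m) = 0 by rw [mul_comm]; exact Real.sin_int_mul_pi m, kc_one h1 h2]
  have h3 := Real.pi_ne_zero
  have h4 := cos_ne_int m
  simp [h3, h4]

/-- At every time, the knot moves along a horizontal or a vertical line of the plane, or up or
down. -/
theorem dir (t : ℝ) : (kz t ≤ 0 ∧ kx' t ≠ 0 ∧ ky' t = 0) ∨ (0 < kz t ∧ kx' t = 0 ∧ ky' t ≠ 0) ∨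
    (kz' t ≠ 0 ∧ kz t = 0) := by
  have hpi : ∀ m : ℤ, -5 ≤ (m : ℝ) → (m : ℝ) ≤ 4 → t = m → kz' t ≠ 0 ∧ kz t = 0 := by
    intro m h1 h2 h3; rw [h3]
    refine ⟨kz'_int m h1 h2, ?_⟩
    unfold kz
    rw [show Real.sin (Real.pi * m) = 0 by rw [mul_comm]; exact Real.sin_int_mul_pi m]
    simp
  have Z := @st'_zero_of_nonpos
  have O := @st'_zero_of_one_le
  rcases piece t with ⟨a, x, y, z⟩ | ⟨a, b, x, y, z⟩ | ⟨a, b, x, y, z⟩ | ⟨a, b, x, y, z⟩ |
    ⟨a, b, x, y, z⟩ | ⟨a, b, x, y, z⟩ | ⟨a, b, x, y, z⟩ | ⟨a, b, x, y, z⟩ | ⟨a, b, x, y, z⟩ |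
    ⟨a, b, x, y, z⟩ | ⟨a, x, y, z⟩
  · -- left ray
    rcases a.lt_or_eq with a' | a'
    · left
      refine ⟨z, ?_, ?_⟩
      · unfold kx'
        rw [@Z (t + 4) (by linarith), @Z (t + 2) (by linarith), @Z t (by linarith),
          @Z (t - 2) (by linarith), @Z (t - 4) (by linarith), st_zero (x := t - 4) (by linarith)]
        have h1 := st_lt_one (x := t + 6) (by linarith)
        have h2 := st'_nonneg (t + 6)
        have h3 : 0 ≤ (-2 - t) * st' (t + 6) := mul_nonneg (by linarith) h2
        linarith
      · unfold ky'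
        rw [@Z (t + 5) (by linarith), @Z (t + 3) (by linarith), @Z (t + 1) (by linarith),
          @Z (t - 1) (by linarith), @Z (t - 3) (by linarith)]; ring
    · right; right
      exact hpi (-5) (by norm_num) (by norm_num) (by rw [a']; norm_num)
  · right; left
    refine ⟨z, ?_, ?_⟩
    · unfold kx'
      rw [@O (t + 6) (by linarith), @Z (t + 4) (by linarith), @Z (t + 2) (by linarith),
        @Z t (by linarith), @Z (t - 2) (by linarith), @Z (t - 4) (by linarith),
        st_zero (x := t - 4) (by linarith), st_one (x := t + 6) (by linarith)]; ring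
    · unfold ky'
      rw [@Z (t + 3) (by linarith), @Z (t + 1) (by linarith),
        @Z (t - 1) (by linarith), @Z (t - 3) (by linarith)]
      have := st'_pos (x := t + 5) (by linarith) (by linarith)
      linarith
  · rcases a.lt_or_eq with a' | a'
    · rcases b.lt_or_eq with b' | b'
      · left
        refine ⟨z, ?_, ?_⟩
        · unfold kx'
          rw [@O (t + 6) (by linarith), @Z (t + 2) (by linarith),
            @Z t (by linarith), @Z (t - 2) (by linarith), @Z (t - 4) (by linarith),
            st_zero (x := t - 4) (by linarith), st_one (x := t + 6) (by linarith)]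
          have := st'_pos (x := t + 4) (by linarith) (by linarith)
          linarith
        · unfold ky'
          rw [@O (t + 5) (by linarith), @Z (t + 3) (by linarith), @Z (t + 1) (by linarith),
            @Z (t - 1) (by linarith), @Z (t - 3) (by linarith)]; ring
      · right; right
        exact hpi (-3) (by norm_num) (by norm_num) (by rw [b']; norm_num)
    · right; right
      exact hpi (-4) (by norm_num) (by norm_num) (by rw [← a']; norm_num)
  · right; left
    refine ⟨z, ?_, ?_⟩
    · unfold kx'
      rw [@O (t + 6) (by linarith), @O (t + 4) (by linarith), @Z (t + 2) (by linarith),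
        @Z t (by linarith), @Z (t - 2) (by linarith), @Z (t - 4) (by linarith),
        st_zero (x := t - 4) (by linarith), st_one (x := t + 6) (by linarith)]; ring
    · unfold ky'
      rw [@O (t + 5) (by linarith), @Z (t + 1) (by linarith),
        @Z (t - 1) (by linarith), @Z (t - 3) (by linarith)]
      have := st'_pos (x := t + 3) (by linarith) (by linarith)
      linarith
  · rcases a.lt_or_eq with a' | a'
    · rcases b.lt_or_eq with b' | b'
      · left
        refine ⟨z, ?_, ?_⟩
        · unfold kx'
          rw [@O (t + 6) (by linarith), @O (t + 4) (by linarith),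
            @Z t (by linarith), @Z (t - 2) (by linarith), @Z (t - 4) (by linarith),
            st_zero (x := t - 4) (by linarith), st_one (x := t + 6) (by linarith)]
          have := st'_pos (x := t + 2) (by linarith) (by linarith)
          linarith
        · unfold ky'
          rw [@O (t + 5) (by linarith), @O (t + 3) (by linarith), @Z (t + 1) (by linarith),
            @Z (t - 1) (by linarith), @Z (t - 3) (by linarith)]; ring
      · right; right
        exact hpi (-1) (by norm_num) (by norm_num) (by rw [b']; norm_num)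
    · right; right
      exact hpi (-2) (by norm_num) (by norm_num) (by rw [← a']; norm_num)
  · right; left
    refine ⟨z, ?_, ?_⟩
    · unfold kx'
      rw [@O (t + 6) (by linarith), @O (t + 4) (by linarith), @O (t + 2) (by linarith),
        @Z t (by linarith), @Z (t - 2) (by linarith), @Z (t - 4) (by linarith),
        st_zero (x := t - 4) (by linarith), st_one (x := t + 6) (by linarith)]; ring
    · unfold ky'
      rw [@O (t + 5) (by linarith), @O (t + 3) (by linarith),
        @Z (t - 1) (by linarith), @Z (t - 3) (by linarith)]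
      have := st'_pos (x := t + 1) (by linarith) (by linarith)
      linarith
  · rcases a.lt_or_eq with a' | a'
    · rcases b.lt_or_eq with b' | b'
      · left
        refine ⟨z, ?_, ?_⟩
        · unfold kx'
          rw [@O (t + 6) (by linarith), @O (t + 4) (by linarith), @O (t + 2) (by linarith),
            @Z (t - 2) (by linarith), @Z (t - 4) (by linarith),
            st_zero (x := t - 4) (by linarith), st_one (x := t + 6) (by linarith)]
          have := st'_pos (x := t) (by linarith) (by linarith)
          linarith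
        · unfold ky'
          rw [@O (t + 5) (by linarith), @O (t + 3) (by linarith), @O (t + 1) (by linarith),
            @Z (t - 1) (by linarith), @Z (t - 3) (by linarith)]; ring
      · right; right
        exact hpi 1 (by norm_num) (by norm_num) (by rw [b']; norm_num)
    · right; right
      exact hpi 0 (by norm_num) (by norm_num) (by rw [← a']; norm_num)
  · right; left
    refine ⟨z, ?_, ?_⟩
    · unfold kx'
      rw [@O (t + 6) (by linarith), @O (t + 4) (by linarith), @O (t + 2) (by linarith),
        @O t (by linarith), @Z (t - 2) (by linarith), @Z (t - 4) (by linarith),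
        st_zero (x := t - 4) (by linarith), st_one (x := t + 6) (by linarith)]; ring
    · unfold ky'
      rw [@O (t + 5) (by linarith), @O (t + 3) (by linarith), @O (t + 1) (by linarith),
        @Z (t - 3) (by linarith)]
      have := st'_pos (x := t - 1) (by linarith) (by linarith)
      linarith
  · rcases a.lt_or_eq with a' | a'
    · rcases b.lt_or_eq with b' | b'
      · left
        refine ⟨z, ?_, ?_⟩
        · unfold kx'
          rw [@O (t + 6) (by linarith), @O (t + 4) (by linarith), @O (t + 2) (by linarith),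
            @O t (by linarith), @Z (t - 4) (by linarith),
            st_zero (x := t - 4) (by linarith), st_one (x := t + 6) (by linarith)]
          have := st'_pos (x := t - 2) (by linarith) (by linarith)
          linarith
        · unfold ky'
          rw [@O (t + 5) (by linarith), @O (t + 3) (by linarith), @O (t + 1) (by linarith),
            @O (t - 1) (by linarith), @Z (t - 3) (by linarith)]; ring
      · right; right
        exact hpi 3 (by norm_num) (by norm_num) (by rw [b']; norm_num)
    · right; right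
      exact hpi 2 (by norm_num) (by norm_num) (by rw [← a']; norm_num)
  · right; left
    refine ⟨z, ?_, ?_⟩
    · unfold kx'
      rw [@O (t + 6) (by linarith), @O (t + 4) (by linarith), @O (t + 2) (by linarith),
        @O t (by linarith), @O (t - 2) (by linarith), @Z (t - 4) (by linarith),
        st_zero (x := t - 4) (by linarith), st_one (x := t + 6) (by linarith)]; ring
    · unfold ky'
      rw [@O (t + 5) (by linarith), @O (t + 3) (by linarith), @O (t + 1) (by linarith),
        @O (t - 1) (by linarith)]
      have := st'_pos (x := t - 3) (by linarith) (by linarith)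
      linarith
  · -- right ray
    rcases a.lt_or_eq with a' | a'
    · left
      refine ⟨z, ?_, ?_⟩
      · unfold kx'
        rw [@O (t + 6) (by linarith), @O (t + 4) (by linarith), @O (t + 2) (by linarith),
          @O t (by linarith), @O (t - 2) (by linarith), st_one (x := t + 6) (by linarith)]
        have h1 := st_pos (x := t - 4) (by linarith)
        have h2 := st'_nonneg (t - 4)
        have h3 : 0 ≤ (t - 1) * st' (t - 4) := mul_nonneg (by linarith) h2
        linarith
      · unfold ky'
        rw [@O (t + 5) (by linarith), @O (t + 3) (by linarith), @O (t + 1) (by linarith),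
          @O (t - 1) (by linarith), @O (t - 3) (by linarith)]; ring
    · right; right
      exact hpi 4 (by norm_num) (by norm_num) (by rw [← a']; norm_num)

end Pool.Agent.H414_LK
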