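import Pool.Agent.H414_LK.Family

/-!
# The framed long knots of the family
-/

set_option autoImplicit false

open scoped Topology ContDiff

noncomputable section

namespace Pool.Agent.H414_LK

/-- the double cross product formula -/
theorem cr_cr (a b : Eu 3) : cr a (cr a b) = inner ℝ a b • a - (‖a‖ ^ 2) • b := by
  rw [normsq3, inner3]
  apply ext3 <;> simp [cr] <;> ring

theorem cr_smul_right (a b : Eu 3) (c : ℝ) : cr a (c • b) = c • cr a b := by
  apply ext3 <;> simp [cr] <;> ring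

theorem cr_smul_left (a b : Eu 3) (c : ℝ) : cr (c • a) b = c • cr a b := by
  apply ext3 <;> simp [cr] <;> ring

theorem cr_zero_left (b : Eu 3) : cr 0 b = 0 := by apply ext3 <;> simp [cr]

theorem cr_map_ne {A : Eu 3 →L[ℝ] Eu 3} (hA : Function.Injective A) {a b : Eu 3}
    (h : cr a b ≠ 0) : cr (A a) (A b) ≠ 0 := by
  intro h0
  have ha : a ≠ 0 := by rintro rfl; exact h (cr_zero_left b)
  have hAa : A a ≠ 0 := by
    intro h1; exact ha (hA (by rw [h1, map_zero]))
  have h1 := cr_cr (A a) (A b)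
  rw [h0] at h1
  have h2 : cr (A a) 0 = 0 := by apply ext3 <;> simp [cr]
  rw [h2] at h1
  have hn : ‖A a‖ ^ 2 ≠ 0 := by positivity
  have h3 : A b = (inner ℝ (A a) (A b) / ‖A a‖ ^ 2) • A a := by
    have h4 : (‖A a‖ ^ 2) • A b = inner ℝ (A a) (A b) • A a := by
      rw [eq_comm, ← sub_eq_zero]; exact h1.symm
    calc A b = (‖A a‖ ^ 2)⁻¹ • ((‖A a‖ ^ 2) • A b) := by rw [smul_smul, inv_mul_cancel₀ hn, one_smul]
      _ = _ := by rw [h4, smul_smul, div_eq_inv_mul]
  rw [← map_smul] at h3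
  have h4 := hA h3
  apply h
  rw [h4, cr_smul_right, cr_self, smul_zero]

theorem norm_cr_unit {a b : Eu 3} (ha : ‖a‖ = 1) (hb : ‖b‖ = 1) (hab : inner ℝ a b = 0) :
    ‖cr a b‖ = 1 := by
  have h : ‖cr a b‖ ^ 2 = ‖a‖ ^ 2 * ‖b‖ ^ 2 - (inner ℝ a b) ^ 2 := by
    rw [normsq3, normsq3, normsq3, inner3]
    simp only [cr, v3_0, v3_1, v3_2]
    ring
  rw [ha, hb, hab] at h
  have h1 : ‖cr a b‖ ^ 2 = 1 ^ 2 := by rw [h]; norm_num
  exact (sq_eq_sq₀ (norm_nonneg _) zero_le_one).1 h1

theorem bev_ne (s u : ℝ) :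
    cr (deriv be s) (Real.cos u • ve s - Real.sin u • ue s) ≠ 0 := by
  intro h
  have h1 : cr (deriv be s) (Real.cos u • ve s - Real.sin u • ue s) =
      Real.cos u • ue s - Real.sin u • cr (deriv be s) (ue s) := by
    unfold ue
    apply ext3 <;> simp [cr] <;> ring
  rw [h1] at h
  have hue := ue_ne s
  have h2 : Real.cos u * ‖ue s‖ ^ 2 = 0 := by
    have : inner ℝ (Real.cos u • ue s - Real.sin u • cr (deriv be s) (ue s)) (ue s) = 0 := by
      rw [h, inner_zero_left]
    rw [inner_sub_left, inner_smul_left, inner_smul_left, inner_cr_right,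
      real_inner_self_eq_norm_sq] at this
    simpa using this
  have hn : ‖ue s‖ ^ 2 ≠ 0 := by positivity
  have hc : Real.cos u = 0 := (mul_eq_zero.1 h2).resolve_right hn
  rw [hc, zero_smul, zero_sub, neg_eq_zero] at h
  have hs : Real.sin u ≠ 0 := by
    intro h0
    have := Real.sin_sq_add_cos_sq u
    rw [h0, hc] at this; norm_num at this
  have h3 : cr (deriv be s) (ue s) = 0 := (smul_eq_zero.1 h).resolve_left hs
  -- `be'` is orthogonal to `ue` and both are nonzero
  have hb : deriv be s ≠ 0 := by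
    intro h0; apply hue; unfold ue; rw [h0, cr_zero_left]
  have h4 := cr_cr (deriv be s) (ue s)
  rw [h3] at h4
  have h5 : cr (deriv be s) 0 = 0 := by apply ext3 <;> simp [cr]
  have h6 : inner ℝ (deriv be s) (ue s) = 0 := by
    unfold ue; rw [real_inner_comm, inner_cr_left]
  rw [h5, h6, zero_smul, zero_sub, eq_comm, neg_eq_zero] at h4
  have hbn : ‖deriv be s‖ ^ 2 ≠ 0 := by positivity
  exact hue ((smul_eq_zero.1 h4).resolve_left hbn)

theorem cr_dc_vc (x : Par × ℝ) : cr (dc x) (vc x) ≠ 0 := by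
  unfold dc vc
  set s := (x.2 - x.1.1) / x.1.2.1
  set u := x.1.2.2.2
  have h : Real.cos u • rot u (ve s) - Real.sin u • rot u (ue s) =
      rot u (Real.cos u • ve s - Real.sin u • ue s) := by
    rw [sub_eq_add_neg, sub_eq_add_neg, rot_addv, rot_smul, ← neg_smul, ← neg_smul, rot_smul]
  rw [h, rot_cr]
  intro h0
  apply bev_ne s u
  have : rot u (cr (deriv be s) (Real.cos u • ve s - Real.sin u • ue s)) = rot u 0 := by
    rw [h0]; apply ext3 <;> simp
  exact rot_inj u this

theorem rot_hasDerivAt (u : ℝ) {f : ℝ → Eu 3} {f' : Eu 3} {t : ℝ} (hf : HasDerivAt f f' t) :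
    HasDerivAt (fun s => rot u (f s)) (rot u f') t := by
  have h : ∀ i : Fin 3, HasDerivAt (fun s => f s i) (f' i) t := by
    intro i
    have h1 := hf.hasFDerivAt
    rw [← hasFDerivWithinAt_univ, hasFDerivWithinAt_euclidean] at h1
    have h2 := (h1 i).hasFDerivAt Filter.univ_mem
    have h3 := h2.hasDerivAt
    simpa using h3
  unfold rot
  exact v3_hasDerivAt (h 0) (((h 1).const_mul _).sub ((h 2).const_mul _))
    (((h 1).const_mul _).add ((h 2).const_mul _))

theorem cc_hasDerivAt {P : Par} (hr : P.2.1 ≠ 0) (t : ℝ) :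
    HasDerivAt (fun t => cc (P, t)) (dc (P, t)) t := by
  have h1 : HasDerivAt (fun t : ℝ => (t - P.1) / P.2.1) (1 / P.2.1) t :=
    ((hasDerivAt_id t).sub_const P.1).div_const P.2.1
  have h2 : HasDerivAt be (deriv be ((t - P.1) / P.2.1)) ((t - P.1) / P.2.1) :=
    (be_contDiff.differentiable (by simp) _).hasDerivAt
  have h3 : HasDerivAt (fun t : ℝ => be ((t - P.1) / P.2.1))
      ((1 / P.2.1) • deriv be ((t - P.1) / P.2.1)) t :=
    HasDerivAt.scomp (g₁ := be) t h2 h1
  have h4 := ((rot_hasDerivAt P.2.2.2 h3).const_smul P.2.1).const_add (v3 P.1 0 0)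
  refine h4.congr_deriv ?_
  rw [rot_smul, smul_smul, mul_one_div_cancel hr, one_smul]
  rfl

theorem Xi_hasDerivAt {P : Par} (hr : P.2.1 ≠ 0) (t : ℝ) :
    HasDerivAt (fun t => Xi (P, t)) (DD (P, t)) t := by
  have h1 : HasDerivAt (fun t => ccq (P, t)) (dc (P, t)) t := 
    (cc_hasDerivAt hr t).sub_const (v3 P.2.2.1 0 0)
  have h2 : HasFDerivAt tu (fderiv ℝ tu (ccq (P, t))) (ccq (P, t)) :=
    (tu_contDiff.differentiable (by simp) _).hasFDerivAt
  exact (h2.comp_hasDerivAt t h1).const_add (v3 P.2.2.1 0 0)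

theorem cc_out {P : Par} {t : ℝ} (hr : 0 < P.2.1) (h : P.2.1 / 4 ≤ |t - P.1|) :
    cc (P, t) = v3 t 0 0 ∧ dc (P, t) = v3 1 0 0 ∧ vc (P, t) = v3 0 1 0 := by
  have h1 : 3 / 14 ≤ |(t - P.1) / P.2.1| := by
    rw [abs_div, abs_of_pos hr, le_div_iff₀ hr]
    linarith
  refine ⟨?_, ?_, ?_⟩
  · show v3 P.1 0 0 + P.2.1 • rot P.2.2.2 (be ((t - P.1) / P.2.1)) = v3 t 0 0
    rw [be_std h1, rot_axis]
    apply ext3 <;> simp
    field_simp
    ring
  · show rot P.2.2.2 (deriv be ((t - P.1) / P.2.1)) = v3 1 0 0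
    rw [deriv_be_std h1, rot_axis]
  · show Real.cos P.2.2.2 • rot P.2.2.2 (ve ((t - P.1) / P.2.1)) -
      Real.sin P.2.2.2 • rot P.2.2.2 (ue ((t - P.1) / P.2.1)) = v3 0 1 0
    rw [ve_std h1, ue_std h1]
    apply ext3
    · simp
    · simp only [sub_app, smul_app, rot_1, v3_1, v3_2]
      linear_combination Real.sin_sq_add_cos_sq P.2.2.2
    · simp only [sub_app, smul_app, rot_2, v3_1, v3_2]
      ring

/-- Inside, `cc` stays close to its center. -/
theorem cc_in {P : Par} {t : ℝ} (hr : 0 < P.2.1) (h : |t - P.1| ≤ P.2.1 / 4) :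
    ‖cc (P, t) - v3 P.1 0 0‖ ≤ P.2.1 / 4 := by
  have h1 : |(t - P.1) / P.2.1| ≤ 1 / 4 := by
    rw [abs_div, abs_of_pos hr, div_le_iff₀ hr]
    linarith
  have e : cc (P, t) - v3 P.1 0 0 = P.2.1 • rot P.2.2.2 (be ((t - P.1) / P.2.1)) := by
    show v3 P.1 0 0 + _ - v3 P.1 0 0 = _
    rw [add_sub_cancel_left]
  rw [e, norm_smul, rot_norm, Real.norm_eq_abs, abs_of_pos hr]
  have := be_ball h1
  nlinarith

theorem v3_norm_axis (t : ℝ) : ‖v3 t 0 0‖ = |t| := by
  rw [← axis_eq, norm_axis]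

theorem cc_inj {P : Par} (hr : 0 < P.2.1) : Function.Injective (fun t => cc (P, t)) := by
  intro s t h
  have h1 : v3 P.1 0 0 + P.2.1 • rot P.2.2.2 (be ((s - P.1) / P.2.1)) =
    v3 P.1 0 0 + P.2.1 • rot P.2.2.2 (be ((t - P.1) / P.2.1)) := h
  have h2 := add_left_cancel h1
  have h3 := smul_right_injective (Eu 3) hr.ne' h2
  have h4 := be_inj (rot_inj _ h3)
  have h5 := (div_left_inj' hr.ne').1 h4
  linarith

/-- Admissible parameters. -/
structure Adm (P : Par) : Prop where
  r_pos : 0 < P.2.1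
  p_bd : |P.1| + P.2.1 / 4 ≤ 1
  q_bd : |P.2.2.1| ≤ 1 / 2
  inj : Set.InjOn (fun t => Xi (P, t)) (Set.Icc (-1) 1)
  dinj : ∀ t, |t| ≤ 1 → Function.Injective (fderiv ℝ tu (ccq (P, t)))
  ball : ∀ t, |t| ≤ 1 → ‖Xi (P, t)‖ ≤ 1

namespace Adm

variable {P : Par} (h : Adm P)
include h

theorem out1 {t : ℝ} (ht : 1 ≤ |t|) :
    cc (P, t) = v3 t 0 0 ∧ dc (P, t) = v3 1 0 0 ∧ vc (P, t) = v3 0 1 0 := by
  apply cc_out h.r_pos
  have h1 := abs_sub_abs_le_abs_sub t P.1
  have h2 := h.p_bd
  linarith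

theorem out2 {t : ℝ} (ht : 1 ≤ |t|) : 3 / 14 ≤ |t - P.2.2.1| := by
  have h1 := abs_sub_abs_le_abs_sub t P.2.2.1
  have h2 := h.q_bd
  linarith

theorem ccq_out {t : ℝ} (ht : 1 ≤ |t|) : ccq (P, t) = v3 (t - P.2.2.1) 0 0 := by
  show cc (P, t) - v3 P.2.2.1 0 0 = _
  rw [(h.out1 ht).1]
  apply ext3 <;> simp

theorem Xi_out {t : ℝ} (ht : 1 ≤ |t|) : Xi (P, t) = v3 t 0 0 := by
  show v3 P.2.2.1 0 0 + tu (ccq (P, t)) = _
  rw [h.ccq_out ht, tu_axis, be_std (h.out2 ht)]
  apply ext3 <;> simp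

theorem DD_out {t : ℝ} (ht : 1 ≤ |t|) : DD (P, t) = v3 1 0 0 := by
  show fderiv ℝ tu (ccq (P, t)) (dc (P, t)) = _
  rw [h.ccq_out ht, (h.out1 ht).2.1, fderiv_tu_axis, deriv_be_std (h.out2 ht)]
  apply ext3 <;> simp

theorem VV_out {t : ℝ} (ht : 1 ≤ |t|) : VV (P, t) = v3 0 1 0 := by
  show fderiv ℝ tu (ccq (P, t)) (vc (P, t)) = _
  rw [h.ccq_out ht, (h.out1 ht).2.2, fderiv_tu_axis, ve_std (h.out2 ht)]
  apply ext3 <;> simp

theorem dinj' (t : ℝ) : Function.Injective (fderiv ℝ tu (ccq (P, t))) := by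
  rcases le_total |t| 1 with ht | ht
  · exact h.dinj t ht
  · rw [h.ccq_out ht]
    exact fderiv_tu_inj _

theorem cr_ne (t : ℝ) : cr (DD (P, t)) (VV (P, t)) ≠ 0 :=
  cr_map_ne (h.dinj' t) (cr_dc_vc _)

theorem DD_ne (t : ℝ) : DD (P, t) ≠ 0 := by
  intro h0
  apply h.cr_ne t
  rw [h0, cr_zero_left]

theorem injective : Function.Injective (fun t => Xi (P, t)) := by
  intro s t hst
  simp only at hst
  rcases le_total |s| 1 with hs | hs <;> rcases le_total |t| 1 with ht | ht
  · exact h.inj (abs_le.1 hs) (abs_le.1 ht) hst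
  · have h1 := h.ball s hs
    rw [hst, h.Xi_out ht, v3_norm_axis] at h1
    exact h.inj (abs_le.1 hs) (abs_le.1 h1) hst
  · have h1 := h.ball t ht
    rw [← hst, h.Xi_out hs, v3_norm_axis] at h1
    exact h.inj (abs_le.1 h1) (abs_le.1 ht) hst
  · rw [h.Xi_out hs, h.Xi_out ht] at hst
    simpa using congrArg (fun v : Eu 3 => v 0) hst

theorem smooth : ContDiff ℝ ∞ (fun t => Xi (P, t)) :=
  contDiff_slice P (fun _ => Xi_contDiff h.r_pos.ne')

end Adm

/-- A continuous injective map `ℝ → ℝ³` standard outside `[-1, 1]` is an embedding. -/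
theorem isClosedEmbedding_of_std {f : ℝ → Eu 3} (hc : Continuous f) (hi : Function.Injective f)
    (hs : ∀ t, 1 ≤ |t| → f t = v3 t 0 0) : Topology.IsClosedEmbedding f := by
  have hp : IsProperMap f := by
    rw [isProperMap_iff_tendsto_cocompact]
    refine ⟨hc, ?_⟩
    rw [Metric.cobounded_eq_cocompact.symm, ← Metric.cobounded_eq_cocompact]
    rw [← tendsto_norm_atTop_iff_cobounded]
    have h1 : Filter.Tendsto (fun t : ℝ => ‖t‖) (Bornology.cobounded ℝ) Filter.atTop :=
      tendsto_norm_cobounded_atTop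
    refine h1.congr' ?_
    have h2 : ∀ᶠ t : ℝ in Bornology.cobounded ℝ, 1 ≤ ‖t‖ := h1.eventually_ge_atTop 1
    filter_upwards [h2] with t ht
    rw [hs t ht, v3_norm_axis, Real.norm_eq_abs]
  exact Topology.IsClosedEmbedding.of_continuous_injective_isClosedMap hc hi hp.isClosedMap

/-- The knot of an admissible parameter. -/
def Adm.knot {P : Par} (h : Adm P) : LongKnot 3 where
  toFun t := Xi (P, t)
  smooth := h.smooth
  embedding := (isClosedEmbedding_of_std h.smooth.continuous h.injective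
    fun _ ht => h.Xi_out ht).isEmbedding
  immersion t := by
    rw [(Xi_hasDerivAt h.r_pos.ne' t).deriv]
    exact h.DD_ne t
  standard t ht := by rw [h.Xi_out ht, axis_eq]
  ball t ht := by simpa using h.ball t ht

theorem single_1 : EuclideanSpace.single (1 : Fin 3) (1 : ℝ) = v3 0 1 0 := by
  apply ext3 <;> simp

theorem single_2 : EuclideanSpace.single (2 : Fin 3) (1 : ℝ) = v3 0 0 1 := by
  apply ext3 <;> simp

theorem idx (j : {j : Fin 3 // j ≠ 0}) : j.1 = 1 ∨ j.1 = 2 := by
  obtain ⟨j, hj⟩ := j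
  fin_cases j
  · exact absurd rfl hj
  · left; rfl
  · right; rfl

namespace Adm

variable {P : Par} (h : Adm P)
include h

theorem N2_unit (t : ℝ) : ‖N2 (P, t)‖ = 1 := by
  unfold N2
  rw [norm_smul, norm_inv, norm_norm, inv_mul_cancel₀ (norm_ne_zero_iff.2 (h.cr_ne t))]

omit h in
theorem N2_DD (t : ℝ) : inner ℝ (N2 (P, t)) (DD (P, t)) = 0 := by
  unfold N2
  rw [inner_smul_left, inner_cr_left, mul_zero]

theorem N1_unit (t : ℝ) : ‖N1 (P, t)‖ = 1 := by
  unfold N1
  apply norm_cr_unit (h.N2_unit t)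
  · rw [norm_smul, norm_inv, norm_norm, inv_mul_cancel₀ (norm_ne_zero_iff.2 (h.DD_ne t))]
  · rw [inner_smul_right, N2_DD, mul_zero]

theorem N1_DD (t : ℝ) : inner ℝ (N1 (P, t)) (DD (P, t)) = 0 := by
  have h1 : inner ℝ (N1 (P, t)) ((‖DD (P, t)‖)⁻¹ • DD (P, t)) = 0 := by
    unfold N1; exact inner_cr_right _ _
  rw [inner_smul_right] at h1
  exact (mul_eq_zero.1 h1).resolve_left (inv_ne_zero (norm_ne_zero_iff.2 (h.DD_ne t)))

omit h in
theorem N1_N2 (t : ℝ) : inner ℝ (N1 (P, t)) (N2 (P, t)) = 0 := by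
  unfold N1; exact inner_cr_left _ _

theorem N2_out {t : ℝ} (ht : 1 ≤ |t|) : N2 (P, t) = v3 0 0 1 := by
  have hc : cr (v3 1 0 0) (v3 0 1 0) = v3 0 0 1 := by apply ext3 <;> simp [cr]
  have hn : ‖v3 0 0 1‖ = 1 := by
    have : ‖v3 0 0 1‖ ^ 2 = 1 ^ 2 := by rw [normsq3]; simp
    exact (sq_eq_sq₀ (norm_nonneg _) zero_le_one).1 this
  unfold N2
  rw [h.DD_out ht, h.VV_out ht, hc, hn, inv_one, one_smul]

theorem N1_out {t : ℝ} (ht : 1 ≤ |t|) : N1 (P, t) = v3 0 1 0 := by
  unfold N1
  rw [h.N2_out ht, h.DD_out ht, v3_norm_axis]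
  apply ext3 <;> simp [cr]

end Adm

/-- The framed knot of an admissible parameter. -/
def Adm.framed {P : Par} (h : Adm P) : FramedLongKnot 3 where
  toLongKnot := h.knot
  frame j t := if j.1 = 1 then N1 (P, t) else N2 (P, t)
  frame_smooth j := by
    rcases idx j with hj | hj
    · simp only [hj, if_true]
      exact contDiff_slice P (fun t => N1_contDiff h.r_pos.ne' (h.cr_ne t) (h.DD_ne t))
    · have : ¬ ((2 : Fin 3) = 1) := by decide
      simp only [hj, this, if_false]
      exact contDiff_slice P (fun t => N2_contDiff h.r_pos.ne' (h.cr_ne t))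
  frame_orthonormal t := by
    have h21 : ¬ ((2 : Fin 3) = 1) := by decide
    constructor
    · intro j
      rcases idx j with hj | hj
      · simp only [hj, if_true]; exact h.N1_unit t
      · simp only [hj, h21, if_false]; exact h.N2_unit t
    · intro i j hij
      rcases idx i with hi | hi <;> rcases idx j with hj | hj
      · exact absurd (Subtype.ext (hi.trans hj.symm)) hij
      · simp only [hi, hj, h21, if_true, if_false]; exact N1_N2 t
      · simp only [hi, hj, h21, if_true, if_false]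
        rw [real_inner_comm]; exact N1_N2 t
      · exact absurd (Subtype.ext (hi.trans hj.symm)) hij
  frame_normal j t := by
    have h21 : ¬ ((2 : Fin 3) = 1) := by decide
    have hd : deriv h.knot.toFun t = DD (P, t) := (Xi_hasDerivAt h.r_pos.ne' t).deriv
    rw [hd]
    rcases idx j with hj | hj
    · simp only [hj, if_true]; exact h.N1_DD t
    · simp only [hj, h21, if_false]; exact N2_DD t
  frame_standard j t ht := by
    have h21 : ¬ ((2 : Fin 3) = 1) := by decide
    rcases idx j with hj | hj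
    · simp only [hj, if_true]; rw [h.N1_out ht, single_1]
    · simp only [hj, h21, if_false]; rw [h.N2_out ht, single_2]

/-- A continuous family of admissible parameters gives a continuous family of framed knots. -/
theorem continuous_framed {S : Type*} [TopologicalSpace S] {γ : S → Par} (hγ : Continuous γ)
    (h : ∀ s, Adm (γ s)) : Continuous (fun s => (h s).framed) := by
  rw [continuous_induced_rng]
  refine Continuous.prodMk ?_ ?_
  · refine continuous_pi fun k => ?_
    apply ContinuousMap.continuous_of_continuous_uncurry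
    exact continuous_iteratedDeriv_family hγ k Xi fun s t => Xi_contDiff (h s).r_pos.ne'
  · refine continuous_pi fun j => continuous_pi fun k => ?_
    apply ContinuousMap.continuous_of_continuous_uncurry
    have h21 : ¬ ((2 : Fin 3) = 1) := by decide
    rcases idx j with hj | hj
    · have := continuous_iteratedDeriv_family hγ k N1
        fun s t => N1_contDiff (h s).r_pos.ne' ((h s).cr_ne t) ((h s).DD_ne t)
      refine this.congr fun z => ?_
      show _ = iteratedDeriv k ((h z.1).framed.frame j) z.2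
      congr 1
      funext t
      show _ = if j.1 = 1 then N1 (γ z.1, t) else N2 (γ z.1, t)
      rw [if_pos hj]
    · have := continuous_iteratedDeriv_family hγ k N2
        fun s t => N2_contDiff (h s).r_pos.ne' ((h s).cr_ne t)
      refine this.congr fun z => ?_
      show _ = iteratedDeriv k ((h z.1).framed.frame j) z.2
      congr 1
      funext t
      show _ = if j.1 = 1 then N1 (γ z.1, t) else N2 (γ z.1, t)
      rw [if_neg (by rw [hj]; exact h21)]

/-- Forgetting the framing is continuous. -/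
theorem continuous_forget (n : ℕ) [NeZero n] :
    Continuous (fun F : FramedLongKnot n => F.toLongKnot) := by
  rw [continuous_induced_rng]
  have h : Continuous (fun F : FramedLongKnot n => (fun k : ℕ => jet F.toFun F.smooth k,
      fun (j : {j : Fin n // j ≠ 0}) (k : ℕ) => jet (F.frame j) (F.frame_smooth j) k)) :=
    continuous_induced_dom
  exact continuous_fst.comp h

end Pool.Agent.H414_LK
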