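import Pool.Agent.H414_LK.Shadow
import Pool.Agent.H414_LK.Cover

/-!
# Labels of the complement of the trefoil
-/

set_option autoImplicit false

open scoped Topology

noncomputable section

namespace Pool.Agent.H414_LK

/-- the closed unit square `(i, j)` contains the point `(x, y)` -/
def NN (x y : ℝ) (i j : ℤ) : Prop := ((i : ℝ) ≤ x ∧ x ≤ i + 1) ∧ ((j : ℝ) ≤ y ∧ y ≤ j + 1)

theorem NN_floor (x y : ℝ) : NN x y ⌊x⌋ ⌊y⌋ :=
  ⟨⟨Int.floor_le x, (Int.lt_floor_add_one x).le⟩, ⟨Int.floor_le y, (Int.lt_floor_add_one y).le⟩⟩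

/-- points close to `x` -/
def Cl (x x' : ℝ) : Prop := (⌈x⌉ : ℝ) - 1 < x' ∧ x' < ⌊x⌋ + 1

theorem eventually_Cl (x : ℝ) : ∀ᶠ x' in 𝓝 x, Cl x x' := by
  have h1 : (⌈x⌉ : ℝ) - 1 < x := by linarith [Int.ceil_lt_add_one x]
  have h2 : x < ⌊x⌋ + 1 := Int.lt_floor_add_one x
  exact (lt_mem_nhds h1).and (gt_mem_nhds h2)

theorem Cl.sub {x x' : ℝ} (h : Cl x x') {i : ℤ} (h1 : (i : ℝ) ≤ x') (h2 : x' ≤ i + 1) :
    (i : ℝ) ≤ x ∧ x ≤ i + 1 := by
  obtain ⟨a, b⟩ := h
  constructor
  · have : (i : ℝ) < ⌊x⌋ + 1 := lt_of_le_of_lt h1 b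
    have h3 : i < ⌊x⌋ + 1 := by exact_mod_cast this
    exact Int.le_floor.1 (by linarith)
  · have : (⌈x⌉ : ℝ) < i + 1 + 1 := by linarith
    have h3 : ⌈x⌉ < i + 1 + 1 := by exact_mod_cast this
    have h4 := Int.ceil_le.1 (show ⌈x⌉ ≤ i + 1 by linarith)
    push_cast at h4
    exact h4

theorem Cl.eq_of_int {m m' : ℤ} (h : Cl (m : ℝ) (m' : ℝ)) : m' = m := by
  obtain ⟨a, b⟩ := h
  rw [Int.ceil_intCast] at a
  rw [Int.floor_intCast] at b
  have h1 : m - 1 < m' := by exact_mod_cast a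
  have h2 : m' < m + 1 := by exact_mod_cast b
  omega

variable {G : Type} [Group G]

open Classical in
/-- the label of the point `(x, y, z)` in the square `(i, j)` -/
def lval (L : ℤ → ℤ → G) (x y z : ℝ) (i j : ℤ) : G :=
  if ¬ ∃ w, z < w ∧ T x y w then 1
  else if ¬ ∃ w, w < z ∧ T x y w then L i j
  else if (i : ℝ) = x then (L (i - 1) j)⁻¹ * L i j else 1

open Classical in
/-- the labels of the point `(x, y, z)` -/
def lam (L : ℤ → ℤ → G) (x y z : ℝ) : PF (ℤ × ℤ) G where
  f ij := if NN x y ij.1 ij.2 then some (lval L x y z ij.1 ij.2) else none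
  ne := ⟨(⌊x⌋, ⌊y⌋), _, if_pos (NN_floor x y)⟩

theorem lam_le {L L' : ℤ → ℤ → G} {x y z x' y' z' : ℝ} {g : G}
    (h : ∀ i j, NN x' y' i j → NN x y i j ∧ g * lval L' x' y' z' i j = lval L x y z i j) :
    (g • lam L' x' y' z').le (lam L x y z) := by
  rintro ⟨i, j⟩ a ha
  rw [PF.smul_f, Option.map_eq_some_iff] at ha
  obtain ⟨b, hb, hba⟩ := ha
  unfold lam at hb
  simp only at hb
  split_ifs at hb with hN
  obtain ⟨h1, h2⟩ := h i j hN
  unfold lam
  simp only
  rw [if_pos h1, ← h2, ← hba, ← Option.some.inj hb]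

/-- A good labelling of the regions. -/
structure GoodL (L : ℤ → ℤ → G) : Prop where
  c1 : (L (-1) 0)⁻¹ * L 0 0 = (L (-1) 1)⁻¹ * L 0 1
  c2 : (L 1 (-1))⁻¹ * L 2 (-1) = (L 1 0)⁻¹ * L 2 0
  c3 : (L 0 (-2))⁻¹ * L 1 (-2) = (L 0 (-1))⁻¹ * L 1 (-1)
  v : ∀ i j, ¬ VE i j → L (i - 1) j = L i j
  h : ∀ i j, ¬ HE i j → L i (j - 1) = L i j

namespace GoodL

variable {L : ℤ → ℤ → G} (hL : GoodL L)
include hL

theorem alpha_x {x y : ℝ} (hT : ¬ ∃ w, T x y w) {i i' j : ℤ} (h : NN x y i j)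
    (h' : NN x y i' j) : L i j = L i' j := by
  have key : ∀ i : ℤ, NN x y (i - 1) j → NN x y i j → L (i - 1) j = L i j := by
    intro i h1 h2
    apply hL.v
    intro hV
    apply hT
    have hx : x = i := by
      have := h1.1.2
      push_cast at this
      have := h2.1.1
      linarith
    rw [hx]
    exact T_cov_v hV h2.2.1 h2.2.2
  have h1 : i ≤ i' + 1 := by
    have : (i : ℝ) ≤ i' + 1 := h.1.1.trans h'.1.2
    exact_mod_cast this
  have h2 : i' ≤ i + 1 := by
    have : (i' : ℝ) ≤ i + 1 := h'.1.1.trans h.1.2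
    exact_mod_cast this
  have h3 : i' = i - 1 ∨ i' = i ∨ i' = i + 1 := by omega
  rcases h3 with h3 | h3 | h3
  · rw [h3]; rw [h3] at h'
    exact (key i h' h).symm
  · rw [h3]
  · rw [h3]; rw [h3] at h'
    have e : i = (i + 1) - 1 := by ring
    conv_lhs => rw [e]
    exact key (i + 1) (by rw [← e]; exact h) h'

theorem alpha_y {x y : ℝ} (hT : ¬ ∃ w, T x y w) {i j j' : ℤ} (h : NN x y i j)
    (h' : NN x y i j') : L i j = L i j' := by
  have key : ∀ j : ℤ, NN x y i (j - 1) → NN x y i j → L i (j - 1) = L i j := by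
    intro j h1 h2
    apply hL.h
    intro hV
    apply hT
    have hy : y = j := by
      have := h1.2.2
      push_cast at this
      have := h2.2.1
      linarith
    rw [hy]
    exact T_cov_h hV h2.1.1 h2.1.2
  have h1 : j ≤ j' + 1 := by
    have : (j : ℝ) ≤ j' + 1 := h.2.1.trans h'.2.2
    exact_mod_cast this
  have h2 : j' ≤ j + 1 := by
    have : (j' : ℝ) ≤ j + 1 := h'.2.1.trans h.2.2
    exact_mod_cast this
  have h3 : j' = j - 1 ∨ j' = j ∨ j' = j + 1 := by omega
  rcases h3 with h3 | h3 | h3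
  · rw [h3]; rw [h3] at h'
    exact (key j h' h).symm
  · rw [h3]
  · rw [h3]; rw [h3] at h'
    have e : j = (j + 1) - 1 := by ring
    conv_lhs => rw [e]
    exact key (j + 1) (by rw [← e]; exact h) h'

theorem alpha {x y : ℝ} (hT : ¬ ∃ w, T x y w) {i i' j j' : ℤ} (h : NN x y i j)
    (h' : NN x y i' j') : L i j = L i' j' :=
  (hL.alpha_x hT h ⟨h'.1, h.2⟩).trans (hL.alpha_y hT ⟨h'.1, h.2⟩ h')

theorem near {x y z : ℝ} (hT : ¬ T x y z) : ∀ᶠ p in 𝓝 (x, y, z), ¬ T p.1 p.2.1 p.2.2 →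
    ∃ g : G, (g • lam L p.1 p.2.1 p.2.2).le (lam L x y z) := by
  have hx : ∀ᶠ p in 𝓝 (x, y, z), Cl x p.1 :=
    (continuous_fst.tendsto _).eventually (eventually_Cl x)
  have hy : ∀ᶠ p in 𝓝 (x, y, z), Cl y p.2.1 :=
    ((continuous_fst.comp continuous_snd).tendsto _).eventually (eventually_Cl y)
  have hN : ∀ {x' y' : ℝ}, Cl x x' → Cl y y' → ∀ {i j : ℤ}, NN x' y' i j → NN x y i j :=
    fun h1 h2 _ _ h => ⟨h1.sub h.1.1 h.1.2, h2.sub h.2.1 h.2.2⟩
  by_cases hU : ∃ w, z < w ∧ T x y w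
  swap
  · -- nothing above
    have h1 : ¬ ∃ w, z ≤ w ∧ T x y w := by
      rintro ⟨w, hw, hw2⟩
      rcases hw.lt_or_eq with h | h
      · exact hU ⟨w, h, hw2⟩
      · rw [h] at hT; exact hT hw2
    have h2 : ∀ᶠ p in 𝓝 (x, y, z), ¬ ∃ w, p.2.2 ≤ w ∧ T p.1 p.2.1 w :=
      above_closed.isOpen_compl.mem_nhds h1
    filter_upwards [hx, hy, h2] with p hpx hpy hp _
    refine ⟨1, lam_le fun i j hij => ⟨hN hpx hpy hij, ?_⟩⟩
    have h3 : ¬ ∃ w, p.2.2 < w ∧ T p.1 p.2.1 w := fun ⟨w, hw, hw2⟩ => hp ⟨w, hw.le, hw2⟩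
    unfold lval
    rw [if_pos h3, if_pos hU, mul_one]
  by_cases hD : ∃ w, w < z ∧ T x y w
  swap
  · -- nothing below
    have h1 : ¬ ∃ w, w ≤ z ∧ T x y w := by
      rintro ⟨w, hw, hw2⟩
      rcases hw.lt_or_eq with h | h
      · exact hD ⟨w, h, hw2⟩
      · rw [← h] at hT; exact hT hw2
    have h2 : ∀ᶠ p in 𝓝 (x, y, z), ¬ ∃ w, w ≤ p.2.2 ∧ T p.1 p.2.1 w :=
      below_closed.isOpen_compl.mem_nhds h1
    filter_upwards [hx, hy, h2] with p hpx hpy hp hpT
    have h3 : ¬ ∃ w, w < p.2.2 ∧ T p.1 p.2.1 w := fun ⟨w, hw, hw2⟩ => hp ⟨w, hw.le, hw2⟩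
    by_cases hU' : ∃ w, p.2.2 < w ∧ T p.1 p.2.1 w
    · refine ⟨1, lam_le fun i j hij => ⟨hN hpx hpy hij, ?_⟩⟩
      unfold lval
      rw [if_neg (not_not.2 hU'), if_pos h3, if_neg (not_not.2 hU), if_pos hD, one_mul]
    · have h4 : ¬ ∃ w, T p.1 p.2.1 w := by
        rintro ⟨w, hw⟩
        rcases lt_trichotomy w p.2.2 with h | h | h
        · exact h3 ⟨w, h, hw⟩
        · rw [h] at hw; exact hpT hw
        · exact hU' ⟨w, h, hw⟩
      refine ⟨L ⌊p.1⌋ ⌊p.2.1⌋, lam_le fun i j hij => ⟨hN hpx hpy hij, ?_⟩⟩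
      unfold lval
      rw [if_pos hU', if_neg (not_not.2 hU), if_pos hD, mul_one]
      exact hL.alpha h4 (NN_floor _ _) hij
  · -- in between
    obtain ⟨w₂, hw₂, T₂⟩ := hU
    obtain ⟨w₁, hw₁, T₁⟩ := hD
    have e₁ : w₁ ≤ 0 := by
      by_contra h
      push Not at h
      have := T_uniq_v T₁ T₂ h (by linarith)
      linarith
    have e₂ : 0 < w₂ := by
      by_contra h
      push Not at h
      have := T_uniq_h T₁ T₂ e₁ h
      linarith
    obtain ⟨t₁, x₁, y₁, z₁⟩ := T₁
    obtain ⟨t₂, x₂, y₂, z₂⟩ := T₂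
    obtain ⟨hneg, hcr⟩ := cross (t := t₁) (s := t₂) (by rw [z₁]; exact e₁) (by rw [z₂]; exact e₂)
      (x₁.trans x₂.symm) (y₁.trans y₂.symm)
    rw [x₂, y₂] at hcr
    obtain ⟨m, n, hxm, hyn, hβ⟩ : ∃ m n : ℤ, x = m ∧ y = n ∧
        (L (m - 1) (n - 1))⁻¹ * L m (n - 1) = (L (m - 1) n)⁻¹ * L m n := by
      rcases hcr with ⟨a, b⟩ | ⟨a, b⟩ | ⟨a, b⟩
      · exact ⟨0, 1, by rw [a]; norm_num, by rw [b]; norm_num, hL.c1⟩
      · exact ⟨2, 0, by rw [a]; norm_num, by rw [b]; norm_num, hL.c2⟩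
      · exact ⟨1, -1, by rw [a]; norm_num, by rw [b]; norm_num, by
          rw [show (1 : ℤ) - 1 = 0 by norm_num, show (-1 : ℤ) - 1 = -2 by norm_num]
          exact hL.c3⟩
    have hV := near_v (t := t₂) (by rw [z₂]; exact e₂) (w := (z + w₂) / 2) (by rw [z₂]; linarith)
    have hH := near_h (t := t₁) hneg (w := (z + w₁) / 2) (by rw [z₁]; linarith)
    rw [x₂, y₂] at hV
    rw [x₁, y₁] at hH
    have hV' : ∀ᶠ p in 𝓝 (x, y, z), ∃ w, (z + w₂) / 2 < w ∧ T x p.2.1 w :=
      ((continuous_fst.comp continuous_snd).tendsto (x, y, z)).eventually hV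
    have hH' : ∀ᶠ p in 𝓝 (x, y, z), ∃ w, w < (z + w₁) / 2 ∧ T p.1 y w :=
      (continuous_fst.tendsto (x, y, z)).eventually hH
    have hz2 : ∀ᶠ p in 𝓝 (x, y, z), p.2.2 < (z + w₂) / 2 :=
      ((continuous_snd.comp continuous_snd).tendsto (x, y, z)).eventually
        (gt_mem_nhds (show z < (z + w₂) / 2 by linarith))
    have hz1 : ∀ᶠ p in 𝓝 (x, y, z), (z + w₁) / 2 < p.2.2 :=
      ((continuous_snd.comp continuous_snd).tendsto (x, y, z)).eventually
        (lt_mem_nhds (show (z + w₁) / 2 < z by linarith))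
    filter_upwards [hx, hy, hV', hH', hz1, hz2] with p hpx hpy hpV hpH hp1 hp2 hpT
    obtain ⟨x', y', z'⟩ := p
    simp only at hpx hpy hpV hpH hp1 hp2 hpT ⊢
    have hval : ∀ i j, lval L x y z i j = if (i : ℝ) = x then (L (i - 1) j)⁻¹ * L i j else 1 := by
      intro i j
      unfold lval
      rw [if_neg (not_not.2 ⟨w₂, hw₂, t₂, x₂, y₂, z₂⟩),
        if_neg (not_not.2 ⟨w₁, hw₁, t₁, x₁, y₁, z₁⟩)]
    -- the squares around the crossing
    have hNm : ∀ {i j : ℤ}, NN x y i j → (i = m - 1 ∨ i = m) ∧ (j = n - 1 ∨ j = n) := by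
      intro i j h
      obtain ⟨⟨a, b⟩, ⟨c, d⟩⟩ := h
      rw [hxm] at a b
      rw [hyn] at c d
      have a' : i ≤ m := by exact_mod_cast a
      have b' : m ≤ i + 1 := by exact_mod_cast b
      have c' : j ≤ n := by exact_mod_cast c
      have d' : n ≤ j + 1 := by exact_mod_cast d
      constructor <;> omega
    by_cases hU' : ∃ w, z' < w ∧ T x' y' w
    swap
    · -- nothing above the new point
      have hxx : x' ≠ x := by
        rintro rfl
        obtain ⟨w, hw, hTw⟩ := hpV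
        exact hU' ⟨w, by linarith, hTw⟩
      have hval' : ∀ i j, lval L x' y' z' i j = 1 := by
        intro i j
        unfold lval
        rw [if_pos hU']
      rcases lt_or_gt_of_ne hxx with hlt | hgt
      · refine ⟨1, lam_le fun i j hij => ⟨hN hpx hpy hij, ?_⟩⟩
        rw [hval', hval, if_neg (by have := hij.1.1; intro h; linarith), mul_one]
      · refine ⟨(L (m - 1) n)⁻¹ * L m n, lam_le fun i j hij => ⟨hN hpx hpy hij, ?_⟩⟩
        obtain ⟨hi, hj⟩ := hNm (hN hpx hpy hij)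
        have him : i = m := by
          rcases hi with hi | hi
          · exfalso
            have := hij.1.2
            rw [hi] at this
            push_cast at this
            linarith
          · exact hi
        rw [hval', hval, him, if_pos hxm.symm, mul_one]
        rcases hj with hj | hj
        · rw [hj, hβ]
        · rw [hj]
    by_cases hD' : ∃ w, w < z' ∧ T x' y' w
    swap
    · have hyy : y' ≠ y := by
        rintro rfl
        obtain ⟨w, hw, hTw⟩ := hpH
        exact hD' ⟨w, by linarith, hTw⟩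
      have hval' : ∀ i j, lval L x' y' z' i j = L i j := by
        intro i j
        unfold lval
        rw [if_neg (not_not.2 hU'), if_pos hD']
      obtain ⟨j₀, hj₀⟩ : ∃ j₀, ∀ i j, NN x' y' i j → j = j₀ := by
        rcases lt_or_gt_of_ne hyy with hlt | hgt
        · refine ⟨n - 1, fun i j hij => ?_⟩
          rcases (hNm (hN hpx hpy hij)).2 with hj | hj
          · exact hj
          · exfalso
            have := hij.2.1
            rw [hj] at this
            linarith
        · refine ⟨n, fun i j hij => ?_⟩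
          rcases (hNm (hN hpx hpy hij)).2 with hj | hj
          · exfalso
            have := hij.2.2
            rw [hj] at this
            push_cast at this
            linarith
          · exact hj
      refine ⟨(L (m - 1) j₀)⁻¹, lam_le fun i j hij => ⟨hN hpx hpy hij, ?_⟩⟩
      rw [hval', hval, hj₀ i j hij]
      rcases (hNm (hN hpx hpy hij)).1 with hi | hi
      · rw [hi, if_neg, inv_mul_cancel]
        rw [hxm]; push_cast; intro h; linarith
      · rw [hi, if_pos hxm.symm]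
    · -- the same crossing
      have hx'm : x' = x := by
        obtain ⟨w, hw, hTw⟩ := hU'
        obtain ⟨w', hw', hTw'⟩ := hD'
        have hw0 : 0 < w := by
          by_contra h
          push Not at h
          by_cases h2 : w' ≤ 0
          · have := T_uniq_h hTw hTw' h h2; linarith
          · linarith
        obtain ⟨m', hm'⟩ := T_int_v hTw hw0
        rw [hm', hxm] at hpx
        rw [hm', hpx.eq_of_int, hxm]
      have hy'n : y' = y := by
        obtain ⟨w, hw, hTw⟩ := hU'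
        obtain ⟨w', hw', hTw'⟩ := hD'
        have hw0 : w' ≤ 0 := by
          by_contra h
          push Not at h
          have := T_uniq_v hTw hTw' (by linarith) h; linarith
        obtain ⟨n', hn'⟩ := T_int_h hTw' hw0
        rw [hn', hyn] at hpy
        rw [hn', hpy.eq_of_int, hyn]
      refine ⟨1, lam_le fun i j hij => ⟨hN hpx hpy hij, ?_⟩⟩
      rw [hval]
      unfold lval
      rw [if_neg (not_not.2 hU'), if_neg (not_not.2 hD'), hx'm, one_mul]

end GoodL

/-- The labelling by powers and products of `a` and `b`. -/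
def lab (a b : G) (i j : ℤ) : G :=
  if j = 1 then (if i = -2 ∨ i = -1 then a else 1)
  else if j = 0 then (if i = -2 then a else if i = -1 then b * a else if i = 0 ∨ i = 1 then b else 1)
  else if j = -1 then (if i = -1 then b * a else if i = 0 then b else if i = 1 then a * b else a)
  else if j = -2 then (if i = -1 ∨ i = 0 then b * a else a)
  else if 0 ≤ j then 1 else a

theorem lab_1 (a b : G) (i : ℤ) : lab a b i 1 = if i = -2 ∨ i = -1 then a else 1 := by
  unfold lab; rw [if_pos rfl]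

theorem lab_0 (a b : G) (i : ℤ) : lab a b i 0 =
    if i = -2 then a else if i = -1 then b * a else if i = 0 ∨ i = 1 then b else 1 := by
  unfold lab; rw [if_neg (by norm_num), if_pos rfl]

theorem lab_m1 (a b : G) (i : ℤ) : lab a b i (-1) =
    if i = -1 then b * a else if i = 0 then b else if i = 1 then a * b else a := by
  unfold lab; rw [if_neg (by norm_num), if_neg (by norm_num), if_pos rfl]

theorem lab_m2 (a b : G) (i : ℤ) : lab a b i (-2) = if i = -1 ∨ i = 0 then b * a else a := by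
  unfold lab; rw [if_neg (by norm_num), if_neg (by norm_num), if_neg (by norm_num), if_pos rfl]

theorem lab_up (a b : G) (i : ℤ) {j : ℤ} (h : 2 ≤ j) : lab a b i j = 1 := by
  unfold lab
  rw [if_neg (by omega), if_neg (by omega), if_neg (by omega), if_neg (by omega),
    if_pos (by omega)]

theorem lab_down (a b : G) (i : ℤ) {j : ℤ} (h : j ≤ -3) : lab a b i j = a := by
  unfold lab
  rw [if_neg (by omega), if_neg (by omega), if_neg (by omega), if_neg (by omega),
    if_neg (by omega)]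

theorem lab_good {a b : G} (hab : a⁻¹ * b⁻¹ * a = b⁻¹ * a * b) : GoodL (lab a b) := by
  refine ⟨?_, ?_, ?_, ?_, ?_⟩
  · simp [lab, mul_assoc]
  · simp [lab, mul_assoc]
  · simp only [lab_m2, lab_m1]
    simpa [mul_assoc] using hab
  · intro i j h
    have hj : j = 1 ∨ j = 0 ∨ j = -1 ∨ j = -2 ∨ 2 ≤ j ∨ j ≤ -3 := by omega
    rcases hj with rfl | rfl | rfl | rfl | hj | hj
    · unfold VE at h
      rw [lab_1, lab_1]
      split_ifs <;> first | rfl | (exfalso; omega)
    · unfold VE at h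
      rw [lab_0, lab_0]
      split_ifs <;> first | rfl | (exfalso; omega)
    · unfold VE at h
      rw [lab_m1, lab_m1]
      split_ifs <;> first | rfl | (exfalso; omega)
    · unfold VE at h
      rw [lab_m2, lab_m2]
      split_ifs <;> first | rfl | (exfalso; omega)
    · rw [lab_up _ _ _ hj, lab_up _ _ _ hj]
    · rw [lab_down _ _ _ hj, lab_down _ _ _ hj]
  · intro i j h
    have hj : j = 2 ∨ j = 1 ∨ j = 0 ∨ j = -1 ∨ j = -2 ∨ 3 ≤ j ∨ j ≤ -3 := by omega
    rcases hj with rfl | rfl | rfl | rfl | rfl | hj | hj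
    · unfold HE at h
      rw [show (2 : ℤ) - 1 = 1 by norm_num, lab_1, lab_up _ _ _ le_rfl]
      split_ifs <;> first | rfl | (exfalso; omega)
    · unfold HE at h
      rw [show (1 : ℤ) - 1 = 0 by norm_num, lab_0, lab_1]
      split_ifs <;> first | rfl | (exfalso; omega)
    · unfold HE at h
      rw [show (0 : ℤ) - 1 = -1 by norm_num, lab_m1, lab_0]
      split_ifs <;> first | rfl | (exfalso; omega)
    · unfold HE at h
      rw [show (-1 : ℤ) - 1 = -2 by norm_num, lab_m2, lab_m1]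
      split_ifs <;> first | rfl | (exfalso; omega)
    · unfold HE at h
      rw [show (-2 : ℤ) - 1 = -3 by norm_num, lab_down _ _ _ le_rfl, lab_m2]
      split_ifs <;> first | rfl | (exfalso; omega)
    · rw [lab_up _ _ _ (by omega), lab_up _ _ _ (by omega)]
    · rw [lab_down _ _ _ (by omega), lab_down _ _ _ (by omega)]

end Pool.Agent.H414_LK
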