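import Pool.Agent.H414_LK.Main

/-!
# Retracts in localisations of the category of spaces
-/

set_option autoImplicit false

open CategoryTheory

noncomputable section

namespace Pool.Agent.H414_LK

/-- A continuous map which induces a bijection on the sets of path components and isomorphisms of
the fundamental groups at all points. -/
def OneTypeEquiv {X Y : TopCat.{0}} (f : X ⟶ Y) : Prop :=
  (∀ y : Y, ∃ x : X, Joined (f.hom x) y) ∧
  (∀ x x' : X, Joined (f.hom x) (f.hom x') → Joined x x') ∧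
  ∀ x : X, Function.Bijective
    (fun γ : Path.Homotopic.Quotient x x => Path.Homotopic.Quotient.map γ f.hom)

/-- isomorphism of functors, as a relation on the morphisms of the category of groupoids -/
def grpdRel : HomRel Grpd.{0, 0} := fun G H F F' =>
  Nonempty (@Iso (G.α ⥤ H.α) _ F F')

instance : Congruence grpdRel where
  equivalence := by
    intro X Y
    exact ⟨fun _ => ⟨Iso.refl _⟩, fun ⟨e⟩ => ⟨e.symm⟩, fun ⟨e⟩ ⟨e'⟩ => ⟨e.trans e'⟩⟩
  comp_left := by
    rintro X Y Z f g g' ⟨e⟩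
    exact ⟨Functor.isoWhiskerLeft (C := X.α) (D := Y.α) (E := Z.α) f e⟩
  comp_right := by
    rintro X Y Z f f' g ⟨e⟩
    exact ⟨Functor.isoWhiskerRight (C := X.α) (D := Y.α) (E := Z.α) e g⟩

/-- the fundamental groupoid, up to isomorphism of functors -/
def PiQ : TopCat.{0} ⥤ Quotient grpdRel :=
  FundamentalGroupoid.fundamentalGroupoidFunctor ⋙ Quotient.functor grpdRel

theorem isEquivalence_of {X Y : TopCat.{0}} (f : X ⟶ Y) (hf : OneTypeEquiv f) :
    (FundamentalGroupoid.map f.hom).IsEquivalence := by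
  obtain ⟨h1, h2, h3⟩ := hf
  have hfaith : (FundamentalGroupoid.map f.hom).Faithful := by
    constructor
    rintro ⟨x⟩ ⟨y⟩ p q hpq
    have e1 : (FundamentalGroupoid.map f.hom).map (p ≫ Groupoid.inv q) =
        (FundamentalGroupoid.map f.hom).map (𝟙 _) := by
      rw [Functor.map_comp, hpq, ← Functor.map_comp, Groupoid.comp_inv]
    have e2 : p ≫ Groupoid.inv q = 𝟙 _ := (h3 x).1 e1
    calc p = (p ≫ Groupoid.inv q) ≫ q := by simp
      _ = q := by rw [e2, Category.id_comp]
  have hfull : (FundamentalGroupoid.map f.hom).Full := by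
    constructor
    rintro ⟨x⟩ ⟨y⟩ p
    have hj : Joined (f.hom x) (f.hom y) := by
      obtain ⟨p'⟩ := p
      exact ⟨p'⟩
    obtain ⟨γ⟩ := h2 x y hj
    let c : (⟨x⟩ : FundamentalGroupoid X) ⟶ ⟨y⟩ := Path.Homotopic.Quotient.mk γ
    obtain ⟨d, hd⟩ := (h3 x).2 (p ≫ Groupoid.inv ((FundamentalGroupoid.map f.hom).map c) :
      (⟨f.hom x⟩ : FundamentalGroupoid Y) ⟶ ⟨f.hom x⟩)
    refine ⟨(d : (⟨x⟩ : FundamentalGroupoid X) ⟶ ⟨x⟩) ≫ c, ?_⟩
    rw [Functor.map_comp]
    have hd' : (FundamentalGroupoid.map f.hom).map (d : (⟨x⟩ : FundamentalGroupoid X) ⟶ ⟨x⟩) =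
      p ≫ Groupoid.inv ((FundamentalGroupoid.map f.hom).map c) := hd
    rw [hd', Category.assoc, Groupoid.inv_comp, Category.comp_id]
  have hess : (FundamentalGroupoid.map f.hom).EssSurj := by
    constructor
    rintro ⟨y⟩
    obtain ⟨x, ⟨γ⟩⟩ := h1 y
    exact ⟨⟨x⟩, ⟨Groupoid.isoEquivHom _ _ |>.symm (Path.Homotopic.Quotient.mk γ)⟩⟩
  exact { }

theorem PiQ_inverts (W : MorphismProperty TopCat.{0})
    (hW : ∀ {X Y : TopCat.{0}} (f : X ⟶ Y), W f → OneTypeEquiv f) : W.IsInvertedBy PiQ := by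
  intro X Y f hf
  have he := isEquivalence_of f (hW f hf)
  let F : FundamentalGroupoid X ⥤ FundamentalGroupoid Y := FundamentalGroupoid.map f.hom
  let A : Grpd.{0, 0} := FundamentalGroupoid.fundamentalGroupoidFunctor.obj X
  let B : Grpd.{0, 0} := FundamentalGroupoid.fundamentalGroupoidFunctor.obj Y
  let u : A ⟶ B := F
  let v : B ⟶ A := F.inv
  refine ⟨(Quotient.functor grpdRel).map v, ?_, ?_⟩
  · show (Quotient.functor grpdRel).map u ≫ (Quotient.functor grpdRel).map v = 𝟙 _
    rw [← Functor.map_comp, ← (Quotient.functor grpdRel).map_id A, Quotient.functor_map_eq_iff]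
    exact ⟨F.asEquivalence.unitIso.symm⟩
  · show (Quotient.functor grpdRel).map v ≫ (Quotient.functor grpdRel).map u = 𝟙 _
    rw [← Functor.map_comp, ← (Quotient.functor grpdRel).map_id B, Quotient.functor_map_eq_iff]
    exact ⟨F.asEquivalence.counitIso⟩

/-- If `X` is a retract of `Z` in a localisation of the category of spaces at maps inducing
equivalences of fundamental groupoids, and the fundamental groups of `Z` are commutative, then so
are those of `X`. -/
theorem comm_of_local_retract (W : MorphismProperty TopCat.{0})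
    (hW : ∀ {X Y : TopCat.{0}} (f : X ⟶ Y), W f → OneTypeEquiv f) {X Z : TopCat.{0}}
    (R : Retract (W.Q.obj X) (W.Q.obj Z))
    (hZ : ∀ (z : Z) (a b : Path.Homotopic.Quotient z z), a.trans b = b.trans a)
    (x : X) (a b : Path.Homotopic.Quotient x x) : a.trans b = b.trans a := by
  have hI := PiQ_inverts W hW
  let L := Localization.Construction.lift PiQ hI
  let R1 : Retract (L.obj (W.Q.obj X)) (L.obj (W.Q.obj Z)) := R.map L
  have hfac : W.Q ⋙ L = PiQ := Localization.Construction.fac PiQ hI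
  have eX : L.obj (W.Q.obj X) = PiQ.obj X := congrArg (fun F => F.obj X) hfac
  have eZ : L.obj (W.Q.obj Z) = PiQ.obj Z := congrArg (fun F => F.obj Z) hfac
  obtain ⟨i, r, hir⟩ : ∃ (i : PiQ.obj X ⟶ PiQ.obj Z) (r : PiQ.obj Z ⟶ PiQ.obj X),
      i ≫ r = 𝟙 _ :=
    ⟨eqToHom eX.symm ≫ R1.i ≫ eqToHom eZ, eqToHom eZ.symm ≫ R1.r ≫ eqToHom eX, by
      simp only [Category.assoc, eqToHom_trans_assoc, eqToHom_refl, Category.id_comp]
      rw [← Category.assoc R1.i, R1.retract, Category.id_comp, eqToHom_trans, eqToHom_refl]⟩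
  let A : Grpd.{0, 0} := FundamentalGroupoid.fundamentalGroupoidFunctor.obj X
  let B : Grpd.{0, 0} := FundamentalGroupoid.fundamentalGroupoidFunctor.obj Z
  obtain ⟨i', hi'⟩ := (Quotient.functor grpdRel).map_surjective (X := A) (Y := B) i
  obtain ⟨r', hr'⟩ := (Quotient.functor grpdRel).map_surjective (X := B) (Y := A) r
  have h1 : (Quotient.functor grpdRel).map (i' ≫ r') = (Quotient.functor grpdRel).map (𝟙 A) := by
    rw [Functor.map_comp, hi', hr']
    exact hir.trans ((Quotient.functor grpdRel).map_id A).symm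
  rw [Quotient.functor_map_eq_iff] at h1
  obtain ⟨e⟩ := h1
  let I' : FundamentalGroupoid X ⥤ FundamentalGroupoid Z := i'
  let R' : FundamentalGroupoid Z ⥤ FundamentalGroupoid X := r'
  let E : I' ⋙ R' ≅ 𝟭 (FundamentalGroupoid X) := e
  let x' : FundamentalGroupoid X := ⟨x⟩
  have hfaith : ∀ p q : x' ⟶ x', I'.map p = I'.map q → p = q := by
    intro p q hpq
    have n1 := E.hom.naturality p
    have n2 := E.hom.naturality q
    have h2 : (I' ⋙ R').map p = (I' ⋙ R').map q := by
      show R'.map (I'.map p) = R'.map (I'.map q)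
      rw [hpq]
    rw [h2, n2] at n1
    have h3 := (cancel_epi (E.hom.app x')).1 n1
    exact h3.symm
  apply hfaith (a ≫ b : x' ⟶ x') (b ≫ a : x' ⟶ x')
  rw [Functor.map_comp, Functor.map_comp]
  exact hZ _ (I'.map (a : x' ⟶ x')) (I'.map (b : x' ⟶ x'))

end Pool.Agent.H414_LK
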