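import Pool.Agent.H414_LK.Move

/-!
# The two rotations are not homotopic
-/

set_option autoImplicit false

open scoped Topology unitInterval

noncomputable section

namespace Pool.Agent.H414_LK

section hol

variable {ι G : Type} [Group G] {X : Type*} [TopologicalSpace X] {φ : X → PF ι G}

theorem Hol.cast {p p' q q' : X} {γ : Path p p'} {g : G} (h : Hol φ γ g) (hq : q = p)
    (hq' : q' = p') : Hol φ (γ.cast hq hq') g := by
  subst hq hq'
  exact h

end hol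

/-- the point with given lattice coordinates -/
def pt (X Y Z : ℝ) : Eu 3 := v3 (X / 28) (Y / 28) (Z / 28)

theorem pt_0 (X Y Z : ℝ) : 28 * pt X Y Z 0 = X := by unfold pt; simp; ring
theorem pt_1 (X Y Z : ℝ) : 28 * pt X Y Z 1 = Y := by unfold pt; simp; ring
theorem pt_2 (X Y Z : ℝ) : 28 * pt X Y Z 2 = Z := by unfold pt; simp; ring

theorem pt_mem {X Y Z : ℝ} (hX : X ≤ 0) (hT : ¬ T (X + 14) Y Z) :
    pt X Y Z ∉ Set.range K0.toFun := by
  rw [mem_left (by rw [pt_0]; linarith), pt_0, pt_1, pt_2]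
  exact hT

/-- paths in the left part of the complement -/
def mkp (X Y Z : I → ℝ) (cX : Continuous X) (cY : Continuous Y) (cZ : Continuous Z)
    (hX : ∀ t, X t ≤ 0) (hT : ∀ t, ¬ T (X t + 14) (Y t) (Z t)) {p q : Co}
    (hp : pt (X 0) (Y 0) (Z 0) = p.1) (hq : pt (X 1) (Y 1) (Z 1) = q.1) : Path p q where
  toFun t := ⟨pt (X t) (Y t) (Z t), pt_mem (hX t) (hT t)⟩
  continuous_toFun := by
    refine Continuous.subtype_mk ?_ _
    have h : Continuous (fun q : ℝ × ℝ × ℝ => pt q.1 q.2.1 q.2.2) := by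
      have h : ContDiff ℝ (⊤ : ℕ∞) (fun p : ℝ × ℝ × ℝ => v3 (p.1 / 28) (p.2.1 / 28) (p.2.2 / 28)) :=
        v3_contDiff' (contDiff_fst.div_const 28)
          ((contDiff_fst.comp contDiff_snd).div_const 28)
          ((contDiff_snd.comp contDiff_snd).div_const 28)
      exact h.continuous
    exact h.comp (cX.prodMk (cY.prodMk cZ))
  source' := Subtype.ext hp
  target' := Subtype.ext hq

theorem mkp_apply {X Y Z : I → ℝ} (cX : Continuous X) (cY : Continuous Y) (cZ : Continuous Z)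
    (hX : ∀ t, X t ≤ 0) (hT : ∀ t, ¬ T (X t + 14) (Y t) (Z t)) {p q : Co}
    (hp : pt (X 0) (Y 0) (Z 0) = p.1) (hq : pt (X 1) (Y 1) (Z 1) = q.1) (t : I) :
    (mkp X Y Z cX cY cZ hX hT hp hq t).1 = pt (X t) (Y t) (Z t) := rfl

theorem noT_high {x y z : ℝ} (hz : 1 < z) : ¬ T x y z := fun h => by
  have := (abs_le.1 (T_bound h)).2
  linarith

theorem noT_half (w : ℝ) : ¬ T (1 / 2) (1 / 2) w := by
  intro h
  have key : ∀ m : ℤ, (1 / 2 : ℝ) ≠ m := by
    intro m hm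
    have h1 : (1 : ℝ) = 2 * m := by linarith
    have h2 : (1 : ℤ) = 2 * m := by exact_mod_cast h1
    omega
  rcases le_or_gt w 0 with h0 | h0
  · obtain ⟨m, hm⟩ := T_int_h h h0
    exact key m hm
  · obtain ⟨m, hm⟩ := T_int_v h h0
    exact key m hm

theorem T_y_bound {x y z : ℝ} (h : T x y z) : |y| ≤ 2 := by
  obtain ⟨t, -, rfl, -⟩ := h
  exact ky_abs_le t

/-- the base point -/
def bs : Co := ⟨pt 0 0 84, pt_mem le_rfl (noT_high (by norm_num))⟩
def q1 : Co := ⟨pt (-35 / 8) 0 84, pt_mem (by norm_num) (noT_high (by norm_num))⟩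
def q2 : Co := ⟨pt (-49 / 8) 0 84, pt_mem (by norm_num) (noT_high (by norm_num))⟩
def q3 : Co := ⟨pt (-7) 0 84, pt_mem (by norm_num) (noT_high (by norm_num))⟩

def h₁ : Path bs q1 := mkp (fun t => -(35 / 8) * (t : ℝ)) (fun _ => 0) (fun _ => 84)
  (by fun_prop) (by fun_prop) (by fun_prop) (fun t => by have := t.2.1; linarith)
  (fun t => noT_high (by norm_num)) (by simp [bs]) (by simp [q1]; norm_num)

def h₂ : Path q1 q2 := mkp (fun t => -(35 / 8) - (7 / 4) * (t : ℝ)) (fun _ => 0) (fun _ => 84)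
  (by fun_prop) (by fun_prop) (by fun_prop) (fun t => by have := t.2.1; linarith)
  (fun t => noT_high (by norm_num)) (by simp [q1]; norm_num) (by simp [q2]; norm_num)

def h₃ : Path q2 q3 := mkp (fun t => -(49 / 8) - (7 / 8) * (t : ℝ)) (fun _ => 0) (fun _ => 84)
  (by fun_prop) (by fun_prop) (by fun_prop) (fun t => by have := t.2.1; linarith)
  (fun t => noT_high (by norm_num)) (by simp [q2]; norm_num) (by simp [q3]; norm_num)

theorem q4_mem : ¬ T (-7 + 14) 84 0 := by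
  intro h
  have := (abs_le.1 (T_y_bound h)).2
  norm_num at this

def q4 : Co := ⟨pt (-7) 84 0, pt_mem (by norm_num) q4_mem⟩
def q5 : Co := ⟨pt (-27 / 2) (1 / 2) (-84), pt_mem (by norm_num)
  (by rw [show (-27 / 2 : ℝ) + 14 = 1 / 2 by norm_num]; exact noT_half _)⟩
def q6 : Co := ⟨pt (-27 / 2) (1 / 2) 84, pt_mem (by norm_num)
  (by rw [show (-27 / 2 : ℝ) + 14 = 1 / 2 by norm_num]; exact noT_half _)⟩

theorem s1_T (t : I) : ¬ T (-7 + 14) (84 * (t : ℝ)) (84 * (1 - (t : ℝ))) := by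
  rw [T_far (by norm_num)]
  rintro ⟨h1, h2⟩
  linarith

def s₁ : Path q3 q4 := mkp (fun _ => -7) (fun t => 84 * (t : ℝ)) (fun t => 84 * (1 - (t : ℝ)))
  (by fun_prop) (by fun_prop) (by fun_prop) (fun t => by norm_num) s1_T
  (by simp [q3]) (by simp [q4])

theorem s2_T (t : I) : ¬ T (-7 - 13 / 2 * (t : ℝ) + 14) (84 - 167 / 2 * (t : ℝ))
    (-84 * (t : ℝ)) := by
  intro h
  have h1 := (abs_le.1 (T_bound h)).1
  have h2 := (abs_le.1 (T_y_bound h)).2
  linarith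

def s₂ : Path q4 q5 := mkp (fun t => -7 - 13 / 2 * (t : ℝ)) (fun t => 84 - 167 / 2 * (t : ℝ))
  (fun t => -84 * (t : ℝ)) (by fun_prop) (by fun_prop) (by fun_prop)
  (fun t => by have := t.2.1; linarith) s2_T
  (by simp [q4]) (by simp only [q5, Set.Icc.coe_one]; norm_num)

def s₃ : Path q5 q6 := mkp (fun _ => -27 / 2) (fun _ => 1 / 2) (fun t => -84 + 168 * (t : ℝ))
  (by fun_prop) (by fun_prop) (by fun_prop) (fun t => by norm_num)
  (fun t => by
    rw [show (-27 / 2 : ℝ) + 14 = 1 / 2 by norm_num]; exact noT_half _)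
  (by simp [q5]) (by simp only [q6, Set.Icc.coe_one]; norm_num)

def s₄ : Path q6 q3 := mkp (fun t => -27 / 2 + 13 / 2 * (t : ℝ)) (fun t => 1 / 2 - 1 / 2 * (t : ℝ))
  (fun _ => 84) (by fun_prop) (by fun_prop) (by fun_prop)
  (fun t => by have := t.2.2; linarith) (fun t => noT_high (by norm_num))
  (by simp [q6]) (by simp only [q3, Set.Icc.coe_one]; norm_num)

def hh : Path bs q3 := h₁.trans (h₂.trans h₃)
def yy : Path q3 q3 := s₁.trans (s₂.trans (s₃.trans s₄))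
def xx : Path bs bs := hh.trans (yy.trans hh.symm)

/-! ### The rotation as a self map of the complement -/

theorem AA_K0 (s : ℝ) : AA 1 (K0.toFun s) = K0.toFun s := by
  have h1 := loop₁_apply 1 s
  rw [loop₁.target] at h1
  exact h1.symm

theorem AA_Co (p : Co) : AA 1 p.1 ∉ Set.range K0.toFun := by
  rintro ⟨s, hs⟩
  apply p.2
  refine ⟨s, ?_⟩
  apply AA_inj 1
  rw [← hs, AA_K0]

def Am : C(Co, Co) where
  toFun p := ⟨AA 1 p.1, AA_Co p⟩
  continuous_toFun := by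
    refine Continuous.subtype_mk ?_ _
    exact AA_continuous.comp (continuous_const.prodMk continuous_subtype_val)

theorem Am_bs : Am bs = bs := by
  apply Subtype.ext
  show AA 1 (pt 0 0 84) = pt 0 0 84
  apply AA_right
  unfold pt; simp; norm_num

theorem AA_deep {p : Eu 3} (h : 28 * p 0 ≤ -7) : AA 1 p = p := by
  unfold AA
  rw [cl_one (by linarith), mul_one, mul_one, rot_two_pi]

theorem Am_q3 : Am q3 = q3 := by
  apply Subtype.ext
  show AA 1 (pt (-7) 0 84) = pt (-7) 0 84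
  apply AA_deep
  rw [pt_0]

/-! ### The holonomies -/

/-- the group and the two colours -/
abbrev S3 : Type := Equiv.Perm (Fin 3)
def ca : S3 := Equiv.swap 0 1
def cb : S3 := Equiv.swap 1 2

theorem rel_ab : ca⁻¹ * cb⁻¹ * ca = cb⁻¹ * ca * cb := by unfold ca cb; decide
theorem rel_aa : ca⁻¹ * ca⁻¹ * ca = ca⁻¹ * ca * ca := by unfold ca; decide
theorem nc : cb ≠ ca⁻¹ * cb * ca := by unfold ca cb; decide

abbrev ph : Co → PF (ℤ × ℤ) S3 := phi ca cb

theorem hol_mkp_top {X Y Z : I → ℝ} (cX : Continuous X) (cY : Continuous Y) (cZ : Continuous Z)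
    (hX : ∀ t, X t ≤ 0) (hT : ∀ t, ¬ T (X t + 14) (Y t) (Z t)) {p q : Co}
    (hp : pt (X 0) (Y 0) (Z 0) = p.1) (hq : pt (X 1) (Y 1) (Z 1) = q.1)
    (hU : ∀ t, ¬ ∃ w, Z t < w ∧ T (X t + 14) (Y t) w) :
    Hol ph (mkp X Y Z cX cY cZ hX hT hp hq) 1 := by
  apply hol_top
  · intro t
    rw [mkp_apply, pt_0]
    have := hX t
    linarith
  · intro t
    rw [mkp_apply, pt_0, pt_1, pt_2]
    exact hU t

theorem noT_above (x y : ℝ) {z : ℝ} (hz : 1 ≤ z) : ¬ ∃ w, z < w ∧ T x y w := by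
  rintro ⟨w, hw, h⟩
  exact noT_high (by linarith) h

theorem hol_h₁ : Hol ph h₁ 1 := hol_mkp_top _ _ _ _ _ _ _ fun _ => noT_above _ _ (by norm_num)
theorem hol_h₂ : Hol ph h₂ 1 := hol_mkp_top _ _ _ _ _ _ _ fun _ => noT_above _ _ (by norm_num)
theorem hol_h₃ : Hol ph h₃ 1 := hol_mkp_top _ _ _ _ _ _ _ fun _ => noT_above _ _ (by norm_num)

theorem hol_s₁ : Hol ph s₁ 1 := hol_mkp_top _ _ _ _ _ _ _ fun t => by
  rintro ⟨w, hw, h⟩
  rw [T_far (by norm_num)] at h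
  obtain ⟨h1, rfl⟩ := h
  linarith

theorem hol_s₃ : Hol ph s₃ 1 := hol_mkp_top _ _ _ _ _ _ _ fun t => by
  rintro ⟨w, -, h⟩
  rw [show (-27 / 2 : ℝ) + 14 = 1 / 2 by norm_num] at h
  exact noT_half _ h

theorem hol_s₄ : Hol ph s₄ 1 := hol_mkp_top _ _ _ _ _ _ _ fun _ => noT_above _ _ (by norm_num)

theorem hol_s₂ : Hol ph s₂ (1⁻¹ * cb) := by
  apply hol_bottom rel_ab
  · intro t
    show 28 * pt (-7 - 13 / 2 * (t : ℝ)) (84 - 167 / 2 * (t : ℝ)) (-84 * (t : ℝ)) 0 < 8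
    rw [pt_0]
    have := t.2.1
    linarith
  · intro t
    show ¬ ∃ w, w < 28 * pt (-7 - 13 / 2 * (t : ℝ)) (84 - 167 / 2 * (t : ℝ)) (-84 * (t : ℝ)) 2 ∧
      T (28 * pt (-7 - 13 / 2 * (t : ℝ)) (84 - 167 / 2 * (t : ℝ)) (-84 * (t : ℝ)) 0 + 14)
        (28 * pt (-7 - 13 / 2 * (t : ℝ)) (84 - 167 / 2 * (t : ℝ)) (-84 * (t : ℝ)) 1) w
    rw [pt_0, pt_1, pt_2]
    rintro ⟨w, hw, h⟩
    have h1 := (abs_le.1 (T_bound h)).1
    have h2 := (abs_le.1 (T_y_bound h)).2
    linarith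
  · rintro ⟨w, h⟩
    have h2 := (abs_le.1 (T_y_bound h)).2
    unfold q4 at h2
    simp only [pt_1] at h2
    norm_num at h2
  · rintro ⟨w, h⟩
    unfold q5 at h
    simp only [pt_0, pt_1] at h
    rw [show (-27 / 2 : ℝ) + 14 = 1 / 2 by norm_num] at h
    exact noT_half _ h
  · intro i j hij
    unfold q4 at hij
    simp only [pt_0, pt_1] at hij
    apply lab_up
    have h1 := hij.2.2
    have h2 : (83 : ℝ) ≤ j := by linarith
    have h3 : (83 : ℤ) ≤ j := by exact_mod_cast h2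
    omega
  · intro i j hij
    unfold q5 at hij
    simp only [pt_0, pt_1] at hij
    obtain ⟨⟨h1, h2⟩, ⟨h3, h4⟩⟩ := hij
    have a1 : (i : ℝ) < 1 := by linarith
    have a2 : (-1 : ℝ) < i := by linarith
    have a3 : (j : ℝ) < 1 := by linarith
    have a4 : (-1 : ℝ) < j := by linarith
    have b1 : i < 1 := by exact_mod_cast a1
    have b2 : -1 < i := by exact_mod_cast a2
    have b3 : j < 1 := by exact_mod_cast a3
    have b4 : -1 < j := by exact_mod_cast a4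
    have hi : i = 0 := by omega
    have hj : j = 0 := by omega
    rw [hi, hj, lab_0]
    simp

theorem hol_hh : Hol ph hh (1 * (1 * 1)) := hol_h₁.trans (hol_h₂.trans hol_h₃)

theorem hol_yy : Hol ph yy (1 * ((1⁻¹ * cb) * (1 * 1))) :=
  hol_s₁.trans (hol_s₂.trans (hol_s₃.trans hol_s₄))

theorem hol_xx : Hol ph xx cb := by
  have h1 := hol_hh.trans (hol_yy.trans hol_hh.symm)
  have h2 : (1 : S3) * (1 * 1) * (1 * (1⁻¹ * cb * (1 * 1)) * (1 * (1 * 1))⁻¹) = cb := by group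
  rw [h2] at h1
  exact h1

/-! ### The holonomies of the rotated paths -/

/-- coordinates of rotated points -/
theorem AA_coord {X : ℝ} {θ : ℝ} (hθ : 2 * Real.pi * cl (-1 - 8 * (X / 28)) = θ) :
    28 * AA 1 (pt X 0 84) 0 = X ∧ 28 * AA 1 (pt X 0 84) 1 = -(84 * Real.sin θ) ∧
      28 * AA 1 (pt X 0 84) 2 = 84 * Real.cos θ := by
  have e : AA 1 (pt X 0 84) = rot θ (pt X 0 84) := by
    unfold AA
    have : pt X 0 84 0 = X / 28 := rfl
    rw [this, mul_one, hθ]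
  rw [e]
  refine ⟨?_, ?_, ?_⟩
  · rw [rot_0, pt_0]
  · rw [rot_1]
    show 28 * (Real.cos θ * (0 / 28) - Real.sin θ * (84 / 28)) = _
    ring
  · rw [rot_2]
    show 28 * (Real.sin θ * (0 / 28) + Real.cos θ * (84 / 28)) = _
    ring

theorem cl_mid {x : ℝ} (h0 : 0 ≤ x) (h1 : x ≤ 1) : cl x = x := by
  unfold cl; rw [min_eq_right h1, max_eq_right h0]

/-- a point on the helix with `cos ≥ 0` has nothing above it -/
theorem helix_top {x y z : ℝ} (hx : -8 ≤ x) (hz : 0 ≤ z) :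
    ¬ ∃ w, z < w ∧ T (x + 14) y w := by
  rintro ⟨w, hw, h⟩
  rw [T_far (by rw [abs_of_nonneg (by linarith)]; linarith)] at h
  obtain ⟨-, rfl⟩ := h
  linarith

theorem helix_bottom {x y z : ℝ} (hx : -8 ≤ x) (hz : z ≤ 0) :
    ¬ ∃ w, w < z ∧ T (x + 14) y w := by
  rintro ⟨w, hw, h⟩
  rw [T_far (by rw [abs_of_nonneg (by linarith)]; linarith)] at h
  obtain ⟨-, rfl⟩ := h
  linarith

theorem hol_Ah₁ : Hol ph (h₁.map Am.continuous) 1 := by
  have hpi := Real.pi_pos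
  have key : ∀ t : I, ∃ θ, 2 * Real.pi * cl (-1 - 8 * (-(35 / 8) * (t : ℝ) / 28)) = θ ∧
      0 ≤ θ ∧ θ ≤ Real.pi / 2 := by
    intro t
    refine ⟨_, rfl, mul_nonneg (by positivity) (cl_nonneg _), ?_⟩
    have h1 : cl (-1 - 8 * (-(35 / 8) * (t : ℝ) / 28)) ≤ 1 / 4 := by
      unfold cl
      apply max_le (by norm_num)
      refine (min_le_right _ _).trans ?_
      have := t.2.2
      linarith
    nlinarith
  apply hol_top
  · intro t
    obtain ⟨θ, hθ, -, -⟩ := key t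
    show 28 * AA 1 (pt (-(35 / 8) * (t : ℝ)) 0 84) 0 < 8
    rw [(AA_coord hθ).1]
    have := t.2.1
    linarith
  · intro t
    obtain ⟨θ, hθ, h0, h1⟩ := key t
    show ¬ ∃ w, 28 * AA 1 (pt (-(35 / 8) * (t : ℝ)) 0 84) 2 < w ∧
      T (28 * AA 1 (pt (-(35 / 8) * (t : ℝ)) 0 84) 0 + 14)
        (28 * AA 1 (pt (-(35 / 8) * (t : ℝ)) 0 84) 1) w
    obtain ⟨e0, e1, e2⟩ := AA_coord hθ
    rw [e0, e1, e2]
    apply helix_top
    · have := t.2.2; linarith
    · have := Real.cos_nonneg_of_mem_Icc (x := θ) ⟨by linarith, h1⟩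
      linarith

theorem hol_Ah₃ : Hol ph (h₃.map Am.continuous) 1 := by
  have hpi := Real.pi_pos
  have key : ∀ t : I, ∃ θ, 2 * Real.pi * cl (-1 - 8 * ((-(49 / 8) - (7 / 8) * (t : ℝ)) / 28)) = θ ∧
      3 * Real.pi / 2 ≤ θ ∧ θ ≤ 2 * Real.pi := by
    intro t
    refine ⟨_, rfl, ?_, ?_⟩
    · have h1 : 3 / 4 ≤ cl (-1 - 8 * ((-(49 / 8) - (7 / 8) * (t : ℝ)) / 28)) := by
        unfold cl
        apply le_max_of_le_right
        apply le_min (by norm_num)
        have := t.2.1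
        linarith
      nlinarith
    · have := cl_le_one (-1 - 8 * ((-(49 / 8) - (7 / 8) * (t : ℝ)) / 28))
      nlinarith
  apply hol_top
  · intro t
    obtain ⟨θ, hθ, -, -⟩ := key t
    show 28 * AA 1 (pt (-(49 / 8) - (7 / 8) * (t : ℝ)) 0 84) 0 < 8
    rw [(AA_coord hθ).1]
    have := t.2.1
    linarith
  · intro t
    obtain ⟨θ, hθ, h0, h1⟩ := key t
    show ¬ ∃ w, 28 * AA 1 (pt (-(49 / 8) - (7 / 8) * (t : ℝ)) 0 84) 2 < w ∧
      T (28 * AA 1 (pt (-(49 / 8) - (7 / 8) * (t : ℝ)) 0 84) 0 + 14)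
        (28 * AA 1 (pt (-(49 / 8) - (7 / 8) * (t : ℝ)) 0 84) 1) w
    obtain ⟨e0, e1, e2⟩ := AA_coord hθ
    rw [e0, e1, e2]
    apply helix_top
    · have := t.2.2; linarith
    · have h2 := Real.cos_nonneg_of_mem_Icc (x := θ - 2 * Real.pi) ⟨by linarith, by linarith⟩
      rw [Real.cos_sub_two_pi] at h2
      linarith

theorem hol_Ah₂ : Hol ph (h₂.map Am.continuous) (ca⁻¹ * 1) := by
  have hpi := Real.pi_pos
  have key : ∀ t : I, ∃ θ, 2 * Real.pi * cl (-1 - 8 * ((-(35 / 8) - (7 / 4) * (t : ℝ)) / 28)) = θ ∧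
      Real.pi / 2 ≤ θ ∧ θ ≤ 3 * Real.pi / 2 := by
    intro t
    refine ⟨_, rfl, ?_, ?_⟩
    · have h1 : 1 / 4 ≤ cl (-1 - 8 * ((-(35 / 8) - (7 / 4) * (t : ℝ)) / 28)) := by
        unfold cl
        apply le_max_of_le_right
        apply le_min (by norm_num)
        have := t.2.1
        linarith
      nlinarith
    · have h1 : cl (-1 - 8 * ((-(35 / 8) - (7 / 4) * (t : ℝ)) / 28)) ≤ 3 / 4 := by
        unfold cl
        apply max_le (by norm_num)
        refine (min_le_right _ _).trans ?_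
        have := t.2.2
        linarith
      nlinarith
  -- the end points
  have e1 : 28 * (Am q1).1 0 = -35 / 8 ∧ 28 * (Am q1).1 1 = -84 ∧ 28 * (Am q1).1 2 = 0 := by
    have hθ : 2 * Real.pi * cl (-1 - 8 * ((-35 / 8 : ℝ) / 28)) = Real.pi / 2 := by
      rw [cl_mid (by norm_num) (by norm_num)]; ring
    obtain ⟨a0, a1, a2⟩ := AA_coord hθ
    refine ⟨a0, ?_, ?_⟩
    · show 28 * AA 1 (pt (-35 / 8) 0 84) 1 = _
      rw [a1, Real.sin_pi_div_two]; norm_num
    · show 28 * AA 1 (pt (-35 / 8) 0 84) 2 = _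
      rw [a2, Real.cos_pi_div_two]; norm_num
  have e2 : 28 * (Am q2).1 0 = -49 / 8 ∧ 28 * (Am q2).1 1 = 84 ∧ 28 * (Am q2).1 2 = 0 := by
    have hθ : 2 * Real.pi * cl (-1 - 8 * ((-49 / 8 : ℝ) / 28)) = Real.pi + Real.pi / 2 := by
      rw [cl_mid (by norm_num) (by norm_num)]; ring
    obtain ⟨a0, a1, a2⟩ := AA_coord hθ
    have hs : Real.sin (Real.pi + Real.pi / 2) = -1 := by
      rw [add_comm, Real.sin_add_pi, Real.sin_pi_div_two]
    have hc : Real.cos (Real.pi + Real.pi / 2) = 0 := by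
      rw [add_comm, Real.cos_add_pi, Real.cos_pi_div_two, neg_zero]
    refine ⟨a0, ?_, ?_⟩
    · show 28 * AA 1 (pt (-49 / 8) 0 84) 1 = _
      rw [a1, hs]; norm_num
    · show 28 * AA 1 (pt (-49 / 8) 0 84) 2 = _
      rw [a2, hc]; norm_num
  apply hol_bottom rel_ab
  · intro t
    obtain ⟨θ, hθ, -, -⟩ := key t
    show 28 * AA 1 (pt (-(35 / 8) - (7 / 4) * (t : ℝ)) 0 84) 0 < 8
    rw [(AA_coord hθ).1]
    have := t.2.1
    linarith
  · intro t
    obtain ⟨θ, hθ, h0, h1⟩ := key t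
    show ¬ ∃ w, w < 28 * AA 1 (pt (-(35 / 8) - (7 / 4) * (t : ℝ)) 0 84) 2 ∧
      T (28 * AA 1 (pt (-(35 / 8) - (7 / 4) * (t : ℝ)) 0 84) 0 + 14)
        (28 * AA 1 (pt (-(35 / 8) - (7 / 4) * (t : ℝ)) 0 84) 1) w
    obtain ⟨e0, e1, e2⟩ := AA_coord hθ
    rw [e0, e1, e2]
    apply helix_bottom
    · have := t.2.2; linarith
    · have h2 := Real.cos_nonpos_of_pi_div_two_le_of_le h0 (by linarith)
      linarith
  · rw [e1.1, e1.2.1]
    rintro ⟨w, h⟩
    have h2 := (abs_le.1 (T_y_bound h)).1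
    norm_num at h2
  · rw [e2.1, e2.2.1]
    rintro ⟨w, h⟩
    have h2 := (abs_le.1 (T_y_bound h)).2
    norm_num at h2
  · intro i j hij
    rw [e1.1, e1.2.1] at hij
    apply lab_down
    have h1 := hij.2.1
    have h2 : (j : ℝ) ≤ -84 := by linarith
    have h3 : j ≤ -84 := by exact_mod_cast h2
    omega
  · intro i j hij
    rw [e2.1, e2.2.1] at hij
    apply lab_up
    have h1 := hij.2.2
    have h2 : (83 : ℝ) ≤ j := by linarith
    have h3 : (83 : ℤ) ≤ j := by exact_mod_cast h2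
    omega

theorem hol_Ahh : Hol ph (hh.map Am.continuous) (1 * ((ca⁻¹ * 1) * 1)) := by
  unfold hh
  rw [Path.map_trans, Path.map_trans]
  exact hol_Ah₁.trans (hol_Ah₂.trans hol_Ah₃)

theorem path_bound {p q r : Co} {γ : Path p q} {γ' : Path q r} {c : ℝ}
    (h : ∀ t, 28 * (γ t).1 0 ≤ c) (h' : ∀ t, 28 * (γ' t).1 0 ≤ c) (t : I) :
    28 * ((γ.trans γ') t).1 0 ≤ c := by
  rw [Path.trans_apply]
  split_ifs
  · exact h _
  · exact h' _

theorem yy_bound (t : I) : 28 * (yy t).1 0 ≤ -7 := by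
  refine path_bound (fun t => ?_) (path_bound (fun t => ?_) (path_bound (fun t => ?_)
    (fun t => ?_))) t
  · show 28 * pt (-7) (84 * (t : ℝ)) (84 * (1 - (t : ℝ))) 0 ≤ -7
    rw [pt_0]
  · show 28 * pt (-7 - 13 / 2 * (t : ℝ)) (84 - 167 / 2 * (t : ℝ)) (-84 * (t : ℝ)) 0 ≤ -7
    rw [pt_0]; have := t.2.1; linarith
  · show 28 * pt (-27 / 2) (1 / 2) (-84 + 168 * (t : ℝ)) 0 ≤ -7
    rw [pt_0]; norm_num
  · show 28 * pt (-27 / 2 + 13 / 2 * (t : ℝ)) (1 / 2 - 1 / 2 * (t : ℝ)) 84 0 ≤ -7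
    rw [pt_0]; have := t.2.2; linarith

theorem hh_bound (t : I) : 28 * (hh t).1 0 ≤ 0 := by
  refine path_bound (fun t => ?_) (path_bound (fun t => ?_) (fun t => ?_)) t
  · show 28 * pt (-(35 / 8) * (t : ℝ)) 0 84 0 ≤ 0
    rw [pt_0]; have := t.2.1; linarith
  · show 28 * pt (-(35 / 8) - (7 / 4) * (t : ℝ)) 0 84 0 ≤ 0
    rw [pt_0]; have := t.2.1; linarith
  · show 28 * pt (-(49 / 8) - (7 / 8) * (t : ℝ)) 0 84 0 ≤ 0
    rw [pt_0]; have := t.2.1; linarith

theorem xx_bound (t : I) : 28 * (xx t).1 0 ≤ 0 := by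
  refine path_bound hh_bound (path_bound (fun t => ?_) (fun t => ?_)) t
  · have := yy_bound t; linarith
  · rw [Path.symm_apply]; exact hh_bound _

theorem hol_Ayy : Hol ph (yy.map Am.continuous) (1 * ((1⁻¹ * cb) * (1 * 1))) := by
  have e : yy.map Am.continuous = yy.cast Am_q3 Am_q3 := by
    ext t
    have : (Am (yy t)).1 = (yy t).1 := AA_deep (yy_bound t)
    exact congrArg (fun v : Eu 3 => v _) this
  rw [e]
  exact hol_yy.cast _ _

/-- the rotated loop -/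
def xx' : Path bs bs := (xx.map Am.continuous).cast Am_bs.symm Am_bs.symm

theorem hol_xx' : Hol ph xx' (ca⁻¹ * cb * ca) := by
  have h1 : Hol ph (xx.map Am.continuous)
      ((1 * ((ca⁻¹ * 1) * 1)) * ((1 * ((1⁻¹ * cb) * (1 * 1))) * (1 * ((ca⁻¹ * 1) * 1))⁻¹)) := by
    unfold xx
    rw [Path.map_trans, Path.map_trans, ← Path.map_symm]
    exact hol_Ahh.trans (hol_Ayy.trans hol_Ahh.symm)
  have h2 : (1 * ((ca⁻¹ * 1) * 1)) * ((1 * ((1⁻¹ * cb) * (1 * 1))) * (1 * ((ca⁻¹ * 1) * 1))⁻¹) =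
      ca⁻¹ * cb * ca := by group
  rw [h2] at h1
  exact h1.cast _ _

/-- **The two loops of long knots are not homotopic.** -/
theorem loops_not_homotopic : ¬ loopK₁.Homotopic loopK₂ := by
  intro h
  have h1 : xx.Homotopic xx' := by
    refine move h (b := bs) ?_ ?_ xx xx' ?_ ?_
    · show pt 0 0 84 0 = 0
      unfold pt; simp
    · show 3 ≤ ‖pt 0 0 84‖
      have h2 : (3 : ℝ) ^ 2 ≤ ‖pt 0 0 84‖ ^ 2 := by
        rw [normsq3]; unfold pt; simp only [v3_0, v3_1, v3_2]; norm_num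
      exact (sq_le_sq₀ (by norm_num) (norm_nonneg _)).1 h2
    · intro t
      have := xx_bound t
      linarith
    · intro t
      rfl
  exact nc (Hol.unique (phi_continuous rel_ab rel_aa) h1 hol_xx hol_xx')

/-- The fundamental group of the space of long knots in `ℝ³` is not commutative at `K0`. -/
theorem not_comm_long : ¬ ∀ a b : Path.Homotopic.Quotient K0.toLongKnot K0.toLongKnot,
    a.trans b = b.trans a := by
  intro hc
  obtain ⟨H, h0, h1, hs⟩ := loops_free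
  apply loops_not_homotopic
  refine homotopic_of_free hc loopK₁ loopK₂
    ((⟨_, continuous_forget 3⟩ : C(FramedLongKnot 3, LongKnot 3)).comp H) ?_ ?_ ?_
  · intro t
    show (H (0, t)).toLongKnot = (loop₁ t).toLongKnot
    rw [h0]
  · intro t
    show (H (1, t)).toLongKnot = (loop₂ t).toLongKnot
    rw [h1]
  · intro s
    show (H (s, 0)).toLongKnot = (H (s, 1)).toLongKnot
    rw [hs]

/-- The fundamental group of the space of framed long knots in `ℝ³` is not commutative at `K0`. -/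
theorem not_comm_framed : ¬ ∀ a b : Path.Homotopic.Quotient K0 K0, a.trans b = b.trans a := by
  intro hc
  obtain ⟨H, h0, h1, hs⟩ := loops_free
  apply loops_not_homotopic
  have h2 := homotopic_of_free hc loop₁ loop₂ H h0 h1 hs
  exact h2.map ⟨_, continuous_forget 3⟩

end Pool.Agent.H414_LK
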