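import Pool.Agent.H414_LK.Double

/-!
# The effect of the two rotations on loops in the complement
-/

set_option autoImplicit false

open scoped Topology unitInterval

noncomputable section

namespace Pool.Agent.H414_LK

theorem rot_continuous : Continuous (fun z : ℝ × Eu 3 => rot z.1 z.2) := by
  have h : ∀ z : ℝ × Eu 3, ContDiffAt ℝ (⊤ : ℕ∞) (fun z : ℝ × Eu 3 => rot z.1 z.2) z :=
    fun z => rot_contDiff contDiff_fst.contDiffAt contDiff_snd.contDiffAt
  exact continuous_iff_continuousAt.2 fun z => (h z).continuousAt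

/-- rotation of the left side -/
def AA (t : ℝ) (p : Eu 3) : Eu 3 := rot (2 * Real.pi * t * cl (-1 - 8 * p 0)) p

/-- rotation of the right side -/
def BB (t : ℝ) (p : Eu 3) : Eu 3 := rot (2 * Real.pi * t * cl (8 * p 0 - 1)) p

theorem AA_continuous : Continuous (fun z : ℝ × Eu 3 => AA z.1 z.2) := by
  unfold AA
  have hc := cl_cont
  have h0 := coord_cont 0
  have : Continuous (fun z : ℝ × Eu 3 => (2 * Real.pi * z.1 * cl (-1 - 8 * z.2 0), z.2)) := by
    refine Continuous.prodMk ?_ continuous_snd
    refine (continuous_const.mul continuous_fst).mul (hc.comp ?_)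
    exact continuous_const.sub (continuous_const.mul (h0.comp continuous_snd))
  exact rot_continuous.comp this

theorem BB_continuous : Continuous (fun z : ℝ × Eu 3 => BB z.1 z.2) := by
  unfold BB
  have hc := cl_cont
  have h0 := coord_cont 0
  have : Continuous (fun z : ℝ × Eu 3 => (2 * Real.pi * z.1 * cl (8 * z.2 0 - 1), z.2)) := by
    refine Continuous.prodMk ?_ continuous_snd
    refine (continuous_const.mul continuous_fst).mul (hc.comp ?_)
    exact (continuous_const.mul (h0.comp continuous_snd)).sub continuous_const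
  exact rot_continuous.comp this

theorem AA_zero (p : Eu 3) : AA 0 p = p := by
  unfold AA; rw [mul_zero, zero_mul, rot_zero]

theorem BB_zero (p : Eu 3) : BB 0 p = p := by
  unfold BB; rw [mul_zero, zero_mul, rot_zero]

theorem AA_inj (t : ℝ) : Function.Injective (AA t) := by
  intro p q h
  have h0 : p 0 = q 0 := by
    have := congrArg (fun v : Eu 3 => v 0) h
    exact this
  unfold AA at h
  rw [h0] at h
  exact rot_inj _ h

theorem BB_inj (t : ℝ) : Function.Injective (BB t) := by
  intro p q h
  have h0 : p 0 = q 0 := by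
    have := congrArg (fun v : Eu 3 => v 0) h
    exact this
  unfold BB at h
  rw [h0] at h
  exact rot_inj _ h

theorem AA_right {t : ℝ} {p : Eu 3} (h : -1 / 8 ≤ p 0) : AA t p = p := by
  unfold AA
  rw [cl_zero (by linarith), mul_zero, rot_zero]

theorem BB_left {t : ℝ} {p : Eu 3} (h : p 0 ≤ 1 / 8) : BB t p = p := by
  unfold BB
  rw [cl_zero (by linarith), mul_zero, rot_zero]

theorem AA_axis (t s : ℝ) : AA t (v3 s 0 0) = v3 s 0 0 := by
  unfold AA; rw [rot_axis]

theorem BB_axis (t s : ℝ) : BB t (v3 s 0 0) = v3 s 0 0 := by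
  unfold BB; rw [rot_axis]

theorem loop₁_apply (t : I) (s : ℝ) : (loop₁ t).toFun s = AA t (K0.toFun s) := by
  have hL : (1 : ℝ) / 4 + 1 / 4 ≤ |-1 / 2 - 1 / 2| := by norm_num
  show Xi ((-1 / 2, 1, 1 / 2, 2 * Real.pi * t), s) = AA t (Xi ((-1 / 2, 1, 1 / 2, 0), s))
  rcases le_total (1 / 4) |s - 1 / 2| with h | h
  · rw [(far_eq one_pos hL h).1, (far_eq one_pos hL h).1]
    unfold cc
    simp only [rot_zero, one_smul, div_one]
    rcases lt_or_ge |s - -1 / 2| (1 / 4) with h1 | h1
    · have h2 := (abs_lt.1 (be_0_lt h1)).2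
      unfold AA
      rw [cl_one, mul_one, rot_addv, rot_axis]
      simp only [add_app, v3_0]
      linarith
    · rw [be_std (by linarith), rot_axis]
      have e : v3 (-1 / 2) 0 0 + v3 (s - -1 / 2) 0 0 = v3 s 0 0 := by apply ext3 <;> simp
      rw [e, AA_axis]
  · rw [(near_eq one_pos hL h).1, (near_eq one_pos hL h).1, AA_right]
    have h2 := be_0_ge (t := s - 1 / 2) (by linarith [(abs_le.1 h).1])
    simp only [add_app, v3_0]
    linarith

theorem loop₂_apply (t : I) (s : ℝ) : (loop₂ t).toFun s = BB t (K0.toFun s) := by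
  have hL : (1 : ℝ) / 4 + 1 / 4 ≤ |1 / 2 - -1 / 2| := by norm_num
  have hK : K0.toFun s = Xi ((1 / 2, 1, -1 / 2, 0), s) := by
    rw [← K0_eq]; rfl
  rw [hK]
  show Xi ((1 / 2, 1, -1 / 2, 2 * Real.pi * t), s) = BB t (Xi ((1 / 2, 1, -1 / 2, 0), s))
  rcases le_total (1 / 4) |s - -1 / 2| with h | h
  · rw [(far_eq one_pos hL h).1, (far_eq one_pos hL h).1]
    unfold cc
    simp only [rot_zero, one_smul, div_one]
    rcases lt_or_ge |s - 1 / 2| (1 / 4) with h1 | h1
    · have h2 := (abs_lt.1 (be_0_lt h1)).1
      unfold BB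
      rw [cl_one, mul_one, rot_addv, rot_axis]
      simp only [add_app, v3_0]
      linarith
    · rw [be_std (by linarith), rot_axis]
      have e : v3 (1 / 2) 0 0 + v3 (s - 1 / 2) 0 0 = v3 s 0 0 := by apply ext3 <;> simp
      rw [e, BB_axis]
  · rw [(near_eq one_pos hL h).1, (near_eq one_pos hL h).1, BB_left]
    have h2 := be_0_le (t := s - -1 / 2) (by linarith [(abs_le.1 h).2])
    simp only [add_app, v3_0]
    linarith

/-- Paths are homotopic if there is a continuous family of paths between them. -/
theorem homotopic_of_family {X : Type*} [TopologicalSpace X] {x y : X} {p q : Path x y}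
    (F : I × I → X) (hF : Continuous F) (h0 : ∀ t, F (0, t) = p t) (h1 : ∀ t, F (1, t) = q t)
    (hl : ∀ s, F (s, 0) = x) (hr : ∀ s, F (s, 1) = y) : p.Homotopic q := by
  refine ⟨⟨⟨⟨F, hF⟩, h0, h1⟩, ?_⟩⟩
  rintro s t (rfl | ht)
  · show F (s, 0) = p 0
    rw [hl, p.source]
  · rw [Set.mem_singleton_iff] at ht
    subst ht
    show F (s, 1) = p 1
    rw [hr, p.target]

/-- the two loops of long knots -/
def loopK₁ : Path K0.toLongKnot K0.toLongKnot := loop₁.map (continuous_forget 3)
def loopK₂ : Path K0.toLongKnot K0.toLongKnot := loop₂.map (continuous_forget 3)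

/-- If the two loops of long knots were homotopic, the rotation of the left side would not change
the homotopy classes of loops in the left part of the complement. -/
theorem move (hh : loopK₁.Homotopic loopK₂) {b : Co} (hb0 : b.1 0 = 0) (hb : 3 ≤ ‖b.1‖)
    (x x' : Path b b) (hx : ∀ t, (x t).1 0 ≤ 0) (hx' : ∀ t, (x' t).1 = AA 1 (x t).1) :
    x.Homotopic x' := by
  obtain ⟨F⟩ := hh
  have hF : Continuous (fun z : I × I => F z) := F.continuous
  obtain ⟨R, hRc, hR0, hR1, hRi, hRb⟩ := isotopy_extension hF
  have hF0 : ∀ t : I, (F (0, t)).toFun = fun s => AA t (K0.toFun s) := by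
    intro t
    have : F (0, t) = loopK₁ t := F.apply_zero t
    rw [this]
    funext s
    exact loop₁_apply t s
  have hF1 : ∀ t : I, (F (1, t)).toFun = fun s => BB t (K0.toFun s) := by
    intro t
    have : F (1, t) = loopK₂ t := F.apply_one t
    rw [this]
    funext s
    exact loop₂_apply t s
  have hFs0 : ∀ s : I, F (s, 0) = K0.toLongKnot := by
    intro s
    have : F (s, 0) = loopK₁ 0 := F.prop' s 0 (by simp)
    rw [this, loopK₁.source]
  have hFs1 : ∀ s : I, F (s, 1) = K0.toLongKnot := by
    intro s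
    have : F (s, 1) = loopK₁ 1 := F.prop' s 1 (by simp)
    rw [this, loopK₁.target]
  -- the maps `R z` send complements to complements
  have key : ∀ (z : I × I) (p : Eu 3), p ∉ Set.range (F z).toFun →
      R (z, p) ∉ Set.range K0.toFun := by
    rintro ⟨s, t⟩ p hp ⟨u, hu⟩
    apply hp
    have h1 := hR1 s t u
    rw [hFs0] at h1
    refine ⟨u, ?_⟩
    apply hRi (s, t)
    show R ((s, t), (F (s, t)).toFun u) = R ((s, t), p)
    rw [h1]; exact hu
  have hAb : ∀ t : ℝ, AA t b.1 = b.1 := fun t => AA_right (by rw [hb0]; norm_num)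
  have hBb : ∀ t : ℝ, BB t b.1 = b.1 := fun t => BB_left (by rw [hb0]; norm_num)
  have hx'not : ∀ s t, (x' t).1 ∉ Set.range (F (s, 1)).toFun := by
    intro s t
    rw [hFs1]; exact (x' t).2
  -- the intermediate loops
  let y₀ : Path b b :=
    { toFun := fun t => ⟨R ((0, 1), (x' t).1), key _ _ (hx'not 0 t)⟩
      continuous_toFun := by
        refine Continuous.subtype_mk ?_ _
        exact hRc.comp (continuous_const.prodMk (continuous_subtype_val.comp x'.continuous))
      source' := by apply Subtype.ext; simp only [x'.source]; exact hRb _ _ hb0 hb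
      target' := by apply Subtype.ext; simp only [x'.target]; exact hRb _ _ hb0 hb }
  let y₁ : Path b b :=
    { toFun := fun t => ⟨R ((1, 1), (x' t).1), key _ _ (hx'not 1 t)⟩
      continuous_toFun := by
        refine Continuous.subtype_mk ?_ _
        exact hRc.comp (continuous_const.prodMk (continuous_subtype_val.comp x'.continuous))
      source' := by apply Subtype.ext; simp only [x'.source]; exact hRb _ _ hb0 hb
      target' := by apply Subtype.ext; simp only [x'.target]; exact hRb _ _ hb0 hb }
  have h1 : x.Homotopic y₀ := by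
    have hmem : ∀ z : I × I, AA z.1 (x z.2).1 ∉ Set.range (F (0, z.1)).toFun := by
      rintro ⟨s, t⟩ ⟨u, hu⟩
      rw [hF0] at hu
      exact (x t).2 ⟨u, AA_inj _ hu⟩
    refine homotopic_of_family
      (fun z => ⟨R ((0, z.1), AA z.1 (x z.2).1), key _ _ (hmem z)⟩) ?_ ?_ ?_ ?_ ?_
    · refine Continuous.subtype_mk ?_ _
      refine hRc.comp (Continuous.prodMk (by fun_prop) ?_)
      exact AA_continuous.comp (Continuous.prodMk (by fun_prop)
        (continuous_subtype_val.comp (x.continuous.comp continuous_snd)))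
    · intro t
      apply Subtype.ext
      show R ((0, 0), AA ((0 : I) : ℝ) (x t).1) = (x t).1
      rw [hR0]
      exact AA_zero _
    · intro t
      apply Subtype.ext
      show R ((0, 1), AA ((1 : I) : ℝ) (x t).1) = R ((0, 1), (x' t).1)
      rw [hx']
      rfl
    · intro s
      apply Subtype.ext
      show R ((0, s), AA s (x 0).1) = b.1
      rw [x.source, hAb]
      exact hRb _ _ hb0 hb
    · intro s
      apply Subtype.ext
      show R ((0, s), AA s (x 1).1) = b.1
      rw [x.target, hAb]
      exact hRb _ _ hb0 hb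
  have h2 : y₀.Homotopic y₁ := by
    refine homotopic_of_family
      (fun z => ⟨R ((z.1, 1), (x' z.2).1), key _ _ (hx'not z.1 z.2)⟩) ?_ ?_ ?_ ?_ ?_
    · refine Continuous.subtype_mk ?_ _
      exact hRc.comp (Continuous.prodMk (by fun_prop)
        (continuous_subtype_val.comp (x'.continuous.comp continuous_snd)))
    · intro t; rfl
    · intro t; rfl
    · intro s
      apply Subtype.ext
      show R ((s, 1), (x' 0).1) = b.1
      rw [x'.source]
      exact hRb _ _ hb0 hb
    · intro s
      apply Subtype.ext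
      show R ((s, 1), (x' 1).1) = b.1
      rw [x'.target]
      exact hRb _ _ hb0 hb
  have hx'0 : ∀ t, (x' t).1 0 ≤ 1 / 8 := by
    intro t
    rw [hx']
    show (x t).1 0 ≤ 1 / 8
    have := hx t
    linarith
  have h3 : x'.Homotopic y₁ := by
    have hmem : ∀ z : I × I, BB z.1 (x' z.2).1 ∉ Set.range (F (1, z.1)).toFun := by
      rintro ⟨s, t⟩ ⟨u, hu⟩
      rw [hF1] at hu
      exact (x' t).2 ⟨u, BB_inj _ hu⟩
    refine homotopic_of_family
      (fun z => ⟨R ((1, z.1), BB z.1 (x' z.2).1), key _ _ (hmem z)⟩) ?_ ?_ ?_ ?_ ?_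
    · refine Continuous.subtype_mk ?_ _
      refine hRc.comp (Continuous.prodMk (by fun_prop) ?_)
      exact BB_continuous.comp (Continuous.prodMk (by fun_prop)
        (continuous_subtype_val.comp (x'.continuous.comp continuous_snd)))
    · intro t
      apply Subtype.ext
      show R ((1, 0), BB ((0 : I) : ℝ) (x' t).1) = (x' t).1
      rw [hR0]
      exact BB_zero _
    · intro t
      apply Subtype.ext
      show R ((1, 1), BB ((1 : I) : ℝ) (x' t).1) = R ((1, 1), (x' t).1)
      rw [BB_left (hx'0 t)]
    · intro s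
      apply Subtype.ext
      show R ((1, s), BB s (x' 0).1) = b.1
      rw [x'.source, hBb]
      exact hRb _ _ hb0 hb
    · intro s
      apply Subtype.ext
      show R ((1, s), BB s (x' 1).1) = b.1
      rw [x'.target, hBb]
      exact hRb _ _ hb0 hb
  exact (h1.trans h2).trans h3.symm

end Pool.Agent.H414_LK
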