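import Pool.Agent.H414_LK.Knot

/-!
# The projection of the trefoil to the grid
-/

set_option autoImplicit false

open scoped Topology ContDiff

noncomputable section

namespace Pool.Agent.H414_LK

/-- The point `(x, y, z)` is on the trefoil. -/
def T (x y z : ℝ) : Prop := ∃ t, kx t = x ∧ ky t = y ∧ kz t = z

theorem T_iff (x y z : ℝ) : T x y z ↔ v3 (x / 28) (y / 28) (z / 28) ∈ Set.range be := by
  constructor
  · rintro ⟨t, rfl, rfl, rfl⟩
    refine ⟨t / 28, ?_⟩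
    unfold be
    rw [mul_div_cancel₀ _ (by norm_num : (28 : ℝ) ≠ 0)]
  · rintro ⟨t, h⟩
    refine ⟨28 * t, ?_, ?_, ?_⟩
    · have := congrArg (fun v : Eu 3 => v 0) h
      simp only [be, v3_0] at this
      linarith
    · have := congrArg (fun v : Eu 3 => v 1) h
      simp only [be, v3_1] at this
      linarith
    · have := congrArg (fun v : Eu 3 => v 2) h
      simp only [be, v3_2] at this
      linarith

theorem be_closed : IsClosed (Set.range be) :=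
  (isClosedEmbedding_of_std be_contDiff.continuous be_inj
    fun _ ht => be_std (by linarith)).isClosed_range

theorem T_closed : IsClosed {p : ℝ × ℝ × ℝ | T p.1 p.2.1 p.2.2} := by
  have hc : Continuous (fun p : ℝ × ℝ × ℝ => v3 (p.1 / 28) (p.2.1 / 28) (p.2.2 / 28)) := by
    have h : ContDiff ℝ ∞ (fun p : ℝ × ℝ × ℝ => v3 (p.1 / 28) (p.2.1 / 28) (p.2.2 / 28)) :=
      v3_contDiff' (contDiff_fst.div_const 28)
        ((contDiff_fst.comp contDiff_snd).div_const 28)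
        ((contDiff_snd.comp contDiff_snd).div_const 28)
    exact h.continuous
  have := be_closed.preimage hc
  convert this using 1
  ext p
  exact T_iff _ _ _

theorem T_bound {x y z : ℝ} (h : T x y z) : |z| ≤ 1 := by
  obtain ⟨t, -, -, rfl⟩ := h
  exact kz_abs_le t

theorem above_closed : IsClosed {p : ℝ × ℝ × ℝ | ∃ w, p.2.2 ≤ w ∧ T p.1 p.2.1 w} := by
  let S : Set (Set.Icc (-1 : ℝ) 1 × (ℝ × ℝ × ℝ)) :=
    {q | q.2.2.2 ≤ q.1 ∧ T q.2.1 q.2.2.1 q.1}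
  have hS : IsClosed S := by
    refine IsClosed.inter ?_ ?_
    · exact isClosed_le (f := fun q : Set.Icc (-1 : ℝ) 1 × (ℝ × ℝ × ℝ) => q.2.2.2)
        (g := fun q => (q.1 : ℝ)) (by fun_prop) (by fun_prop)
    · exact T_closed.preimage (f := fun q : Set.Icc (-1 : ℝ) 1 × (ℝ × ℝ × ℝ) =>
        (q.2.1, q.2.2.1, (q.1 : ℝ))) (by fun_prop)
  have h := isClosedMap_snd_of_compactSpace S hS
  convert h using 1
  ext p
  constructor
  · rintro ⟨w, h1, h2⟩
    exact ⟨(⟨w, abs_le.1 (T_bound h2)⟩, p), ⟨h1, h2⟩, rfl⟩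
  · rintro ⟨⟨w, p'⟩, ⟨h1, h2⟩, rfl⟩
    exact ⟨w, h1, h2⟩

theorem below_closed : IsClosed {p : ℝ × ℝ × ℝ | ∃ w, w ≤ p.2.2 ∧ T p.1 p.2.1 w} := by
  let S : Set (Set.Icc (-1 : ℝ) 1 × (ℝ × ℝ × ℝ)) :=
    {q | (q.1 : ℝ) ≤ q.2.2.2 ∧ T q.2.1 q.2.2.1 q.1}
  have hS : IsClosed S := by
    refine IsClosed.inter ?_ ?_
    · exact isClosed_le (f := fun q : Set.Icc (-1 : ℝ) 1 × (ℝ × ℝ × ℝ) => (q.1 : ℝ))
        (g := fun q => q.2.2.2) (by fun_prop) (by fun_prop)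
    · exact T_closed.preimage (f := fun q : Set.Icc (-1 : ℝ) 1 × (ℝ × ℝ × ℝ) =>
        (q.2.1, q.2.2.1, (q.1 : ℝ))) (by fun_prop)
  have h := isClosedMap_snd_of_compactSpace S hS
  convert h using 1
  ext p
  constructor
  · rintro ⟨w, h1, h2⟩
    exact ⟨(⟨w, abs_le.1 (T_bound h2)⟩, p), ⟨h1, h2⟩, rfl⟩
  · rintro ⟨⟨w, p'⟩, ⟨h1, h2⟩, rfl⟩
    exact ⟨w, h1, h2⟩

theorem int_v {t : ℝ} (h : 0 < kz t) : ∃ m : ℤ, kx t = m := by
  rcases piece t with ⟨a, x, y, z⟩ | ⟨a, b, x, y, z⟩ | ⟨a, b, x, y, z⟩ | ⟨a, b, x, y, z⟩ |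
    ⟨a, b, x, y, z⟩ | ⟨a, b, x, y, z⟩ | ⟨a, b, x, y, z⟩ | ⟨a, b, x, y, z⟩ | ⟨a, b, x, y, z⟩ |
    ⟨a, b, x, y, z⟩ | ⟨a, x, y, z⟩
  · exact absurd h (not_lt.2 z)
  · exact ⟨-2, by rw [x]; norm_num⟩
  · exact absurd h (not_lt.2 z)
  · exact ⟨0, by rw [x]; norm_num⟩
  · exact absurd h (not_lt.2 z)
  · exact ⟨2, by rw [x]; norm_num⟩
  · exact absurd h (not_lt.2 z)
  · exact ⟨-1, by rw [x]; norm_num⟩
  · exact absurd h (not_lt.2 z)
  · exact ⟨1, by rw [x]; norm_num⟩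
  · exact absurd h (not_lt.2 z)

theorem int_h {t : ℝ} (h : kz t ≤ 0) : ∃ m : ℤ, ky t = m := by
  rcases piece t with ⟨a, x, y, z⟩ | ⟨a, b, x, y, z⟩ | ⟨a, b, x, y, z⟩ | ⟨a, b, x, y, z⟩ |
    ⟨a, b, x, y, z⟩ | ⟨a, b, x, y, z⟩ | ⟨a, b, x, y, z⟩ | ⟨a, b, x, y, z⟩ | ⟨a, b, x, y, z⟩ |
    ⟨a, b, x, y, z⟩ | ⟨a, x, y, z⟩
  · exact ⟨0, by rw [y]; norm_num⟩
  · exact absurd h (not_le.2 z)
  · exact ⟨2, by rw [y]; norm_num⟩
  · exact absurd h (not_le.2 z)
  · exact ⟨-1, by rw [y]; norm_num⟩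
  · exact absurd h (not_le.2 z)
  · exact ⟨1, by rw [y]; norm_num⟩
  · exact absurd h (not_le.2 z)
  · exact ⟨-2, by rw [y]; norm_num⟩
  · exact absurd h (not_le.2 z)
  · exact ⟨0, by rw [y]; norm_num⟩

theorem T_int_v {x y z : ℝ} (h : T x y z) (hz : 0 < z) : ∃ m : ℤ, x = m := by
  obtain ⟨t, rfl, -, rfl⟩ := h
  exact int_v hz

theorem T_int_h {x y z : ℝ} (h : T x y z) (hz : z ≤ 0) : ∃ m : ℤ, y = m := by
  obtain ⟨t, -, rfl, rfl⟩ := h
  exact int_h hz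

theorem T_uniq_v {x y z z' : ℝ} (h : T x y z) (h' : T x y z') (hz : 0 < z) (hz' : 0 < z') :
    z = z' := by
  obtain ⟨t, hx, hy, rfl⟩ := h
  obtain ⟨t', hx', hy', rfl⟩ := h'
  rw [inj_v hz hz' (hx.trans hx'.symm) (hy.trans hy'.symm)]

theorem T_uniq_h {x y z z' : ℝ} (h : T x y z) (h' : T x y z') (hz : z ≤ 0) (hz' : z' ≤ 0) :
    z = z' := by
  obtain ⟨t, hx, hy, rfl⟩ := h
  obtain ⟨t', hx', hy', rfl⟩ := h'
  rw [inj_h hz hz' (hx.trans hx'.symm) (hy.trans hy'.symm)]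

/-- An integer valued continuous function is locally constant. -/
theorem eventually_eq_of_int {f : ℝ → ℝ} {t : ℝ} (hf : Continuous f)
    (hint : ∀ᶠ s in 𝓝 t, ∃ m : ℤ, f s = m) : ∀ᶠ s in 𝓝 t, f s = f t := by
  obtain ⟨m, hm⟩ := hint.self_of_nhds
  have h1 : ∀ᶠ s in 𝓝 t, dist (f s) (f t) < 1 :=
    (Metric.tendsto_nhds.1 hf.continuousAt) 1 one_pos
  filter_upwards [hint, h1] with s hs h
  obtain ⟨n, hn⟩ := hs
  rw [hn, hm, Real.dist_eq] at h
  rw [hn, hm]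
  have h2 : |((n - m : ℤ) : ℝ)| < 1 := by push_cast; exact h
  rw [← Int.cast_abs] at h2
  have h3 : |n - m| < 1 := by exact_mod_cast h2
  have h4 : n = m := by
    have := Int.abs_lt_one_iff.1 h3
    linarith
  rw [h4]

theorem near_v {t : ℝ} (h : 0 < kz t) {w : ℝ} (hw : w < kz t) :
    ∀ᶠ y' in 𝓝 (ky t), ∃ z', w < z' ∧ T (kx t) y' z' := by
  have hd : ky' t ≠ 0 := by
    rcases dir t with ⟨h1, h2, h3⟩ | ⟨h1, h2, h3⟩ | ⟨h1, h2⟩
    · exact absurd h (not_lt.2 h1)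
    · exact h3
    · rw [h2] at h; exact absurd h (lt_irrefl 0)
  have hs : HasStrictDerivAt ky (ky' t) t := by
    have := (ky_contDiff.contDiffAt (x := t)).hasStrictDerivAt (by simp)
    rwa [(ky_hasDerivAt t).deriv] at this
  have hm := hs.map_nhds_eq hd
  rw [← hm, Filter.eventually_map]
  have h1 : ∀ᶠ s in 𝓝 t, 0 < kz s :=
    (kz_contDiff.continuous.tendsto t).eventually (lt_mem_nhds h)
  have h2 : ∀ᶠ s in 𝓝 t, w < kz s :=
    (kz_contDiff.continuous.tendsto t).eventually (lt_mem_nhds hw)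
  have h3 : ∀ᶠ s in 𝓝 t, kx s = kx t :=
    eventually_eq_of_int kx_contDiff.continuous (h1.mono fun s hs => int_v hs)
  filter_upwards [h2, h3] with s hs2 hs3
  exact ⟨kz s, hs2, s, hs3, rfl, rfl⟩

theorem near_h {t : ℝ} (h : kz t < 0) {w : ℝ} (hw : kz t < w) :
    ∀ᶠ x' in 𝓝 (kx t), ∃ z', z' < w ∧ T x' (ky t) z' := by
  have hd : kx' t ≠ 0 := by
    rcases dir t with ⟨h1, h2, h3⟩ | ⟨h1, h2, h3⟩ | ⟨h1, h2⟩
    · exact h2
    · exact absurd h (not_lt.2 h1.le)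
    · rw [h2] at h; exact absurd h (lt_irrefl 0)
  have hs : HasStrictDerivAt kx (kx' t) t := by
    have := (kx_contDiff.contDiffAt (x := t)).hasStrictDerivAt (by simp)
    rwa [(kx_hasDerivAt t).deriv] at this
  have hm := hs.map_nhds_eq hd
  rw [← hm, Filter.eventually_map]
  have h1 : ∀ᶠ s in 𝓝 t, kz s < 0 :=
    (kz_contDiff.continuous.tendsto t).eventually (gt_mem_nhds h)
  have h2 : ∀ᶠ s in 𝓝 t, kz s < w :=
    (kz_contDiff.continuous.tendsto t).eventually (gt_mem_nhds hw)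
  have h3 : ∀ᶠ s in 𝓝 t, ky s = ky t :=
    eventually_eq_of_int ky_contDiff.continuous (h1.mono fun s hs => int_h hs.le)
  filter_upwards [h2, h3] with s hs2 hs3
  exact ⟨kz s, hs2, s, rfl, hs3, rfl⟩

theorem kz_neg_of {t : ℝ} (m : ℤ) (h1 : 2 * m < t) (h2 : t < 2 * m + 1) (h3 : -6 < t)
    (h4 : t < 5) : kz t < 0 := by
  unfold kz
  have hs := sin_pos_even m h1 h2
  have hc : 0 < kc t := mul_pos (st_pos (by linarith)) (st_pos (by linarith))
  have := mul_pos hc hs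
  linarith

/-- The crossings. -/
theorem cross {t s : ℝ} (ht : kz t ≤ 0) (hs : 0 < kz s) (hx : kx t = kx s) (hy : ky t = ky s) :
    kz t < 0 ∧ ((kx s = 0 ∧ ky s = 1) ∨ (kx s = 2 ∧ ky s = 0) ∨ (kx s = 1 ∧ ky s = -1)) := by
  have P := @st_pos
  have L := @st_lt_one
  rcases piece t with ⟨a, x, y, z⟩ | ⟨a, b, x, y, z⟩ | ⟨a, b, x, y, z⟩ | ⟨a, b, x, y, z⟩ |
    ⟨a, b, x, y, z⟩ | ⟨a, b, x, y, z⟩ | ⟨a, b, x, y, z⟩ | ⟨a, b, x, y, z⟩ | ⟨a, b, x, y, z⟩ |
    ⟨a, b, x, y, z⟩ | ⟨a, x, y, z⟩ <;>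
  first
  | exact absurd ht (not_le.2 z)
  | (rcases piece s with ⟨a', x', y', z'⟩ | ⟨a', b', x', y', z'⟩ | ⟨a', b', x', y', z'⟩ |
      ⟨a', b', x', y', z'⟩ | ⟨a', b', x', y', z'⟩ | ⟨a', b', x', y', z'⟩ | ⟨a', b', x', y', z'⟩ |
      ⟨a', b', x', y', z'⟩ | ⟨a', b', x', y', z'⟩ | ⟨a', b', x', y', z'⟩ | ⟨a', x', y', z'⟩ <;>
    first
    | exact absurd hs (not_lt.2 z')
    | (exfalso; linarith)
    | (exfalso; have := rayL_le a; linarith)
    | (exfalso; have := rayR_ge a; linarith)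
    | (exfalso
       have h1 := P (x := s + 5) (by linarith)
       have h2 := L (x := s + 5) (by linarith)
       linarith)
    | (exfalso
       have h1 := P (x := s + 3) (by linarith)
       have h2 := L (x := s + 3) (by linarith)
       linarith)
    | (exfalso
       have h1 := P (x := s + 1) (by linarith)
       have h2 := L (x := s + 1) (by linarith)
       linarith)
    | (exfalso
       have h1 := P (x := s - 1) (by linarith)
       have h2 := L (x := s - 1) (by linarith)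
       linarith)
    | (exfalso
       have h1 := P (x := s - 3) (by linarith)
       have h2 := L (x := s - 3) (by linarith)
       linarith)
    | (exfalso
       have h1 := st_nonneg (t + 4)
       have h2 := st_le_one (t + 4)
       linarith)
    | (exfalso
       have h1 := st_nonneg (t + 2)
       have h2 := st_le_one (t + 2)
       linarith)
    | (exfalso
       have h1 := st_nonneg t
       have h2 := st_le_one t
       linarith)
    | (exfalso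
       have h1 := st_nonneg (t - 2)
       have h2 := st_le_one (t - 2)
       linarith)
    | skip)
  · -- the crossing `(1, -1)`
    have e : st (t + 2) = 1 / 2 := by linarith
    have h1 : -2 < t := by
      rcases a.lt_or_eq with h | h
      · exact h
      · rw [← h, st_zero (by norm_num)] at e; norm_num at e
    have h2 : t < -1 := by
      rcases b.lt_or_eq with h | h
      · exact h
      · rw [h, st_one (by norm_num)] at e; norm_num at e
    exact ⟨kz_neg_of (-1) (by push_cast; linarith) (by push_cast; linarith) (by linarith)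
      (by linarith), Or.inr (Or.inr ⟨x', by linarith⟩)⟩
  · -- the crossing `(0, 1)`
    have e : st t = 2 / 3 := by linarith
    have h1 : 0 < t := by
      rcases a.lt_or_eq with h | h
      · exact h
      · rw [← h, st_zero le_rfl] at e; norm_num at e
    have h2 : t < 1 := by
      rcases b.lt_or_eq with h | h
      · exact h
      · rw [h, st_one le_rfl] at e; norm_num at e
    exact ⟨kz_neg_of 0 (by push_cast; linarith) (by push_cast; linarith) (by linarith)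
      (by linarith), Or.inl ⟨x', by linarith⟩⟩
  · -- the crossing `(2, 0)`
    have e : (t - 1) * st (t - 4) = 1 := by linarith
    have h1 : 4 < t := by
      rcases a.lt_or_eq with h | h
      · exact h
      · rw [← h, st_zero (by norm_num)] at e; norm_num at e
    have h2 : t < 5 := by
      by_contra h
      rw [st_one (by linarith)] at e; linarith
    exact ⟨kz_neg_of 2 (by push_cast; linarith) (by push_cast; linarith) (by linarith)
      (by linarith), Or.inr (Or.inl ⟨x', by linarith⟩)⟩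

/-! ### Covered edges -/

theorem cov_x {a b c : ℝ} (hab : a ≤ b) (hx : ∀ t, a ≤ t → t ≤ b → kx t = c) {y : ℝ}
    (hy : (ky a ≤ y ∧ y ≤ ky b) ∨ (ky b ≤ y ∧ y ≤ ky a)) : ∃ z, T c y z := by
  have hc : ContinuousOn ky (Set.Icc a b) := ky_contDiff.continuous.continuousOn
  have : y ∈ ky '' Set.Icc a b := by
    rcases hy with h | h
    · exact intermediate_value_Icc hab hc h
    · exact intermediate_value_Icc' hab hc h
  obtain ⟨t, ht, hty⟩ := this
  exact ⟨kz t, t, hx t ht.1 ht.2, hty, rfl⟩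

theorem cov_y {a b c : ℝ} (hab : a ≤ b) (hy : ∀ t, a ≤ t → t ≤ b → ky t = c) {x : ℝ}
    (hx : (kx a ≤ x ∧ x ≤ kx b) ∨ (kx b ≤ x ∧ x ≤ kx a)) : ∃ z, T x c z := by
  have hc : ContinuousOn kx (Set.Icc a b) := kx_contDiff.continuous.continuousOn
  have : x ∈ kx '' Set.Icc a b := by
    rcases hx with h | h
    · exact intermediate_value_Icc hab hc h
    · exact intermediate_value_Icc' hab hc h
  obtain ⟨t, ht, htx⟩ := this
  exact ⟨kz t, t, htx, hy t ht.1 ht.2, rfl⟩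

theorem kx_val (t : ℝ) :
    (-5 ≤ t ∧ t ≤ -4 → kx t = -2) ∧ (-3 ≤ t ∧ t ≤ -2 → kx t = 0) ∧
    (-1 ≤ t ∧ t ≤ 0 → kx t = 2) ∧ (1 ≤ t ∧ t ≤ 2 → kx t = -1) ∧ (3 ≤ t ∧ t ≤ 4 → kx t = 1) := by
  refine ⟨?_, ?_, ?_, ?_, ?_⟩ <;> rintro ⟨h1, h2⟩ <;> unfold kx
  · rw [st_one (x := t + 6) (by linarith), st_zero (x := t + 4) (by linarith),
      st_zero (x := t + 2) (by linarith), st_zero (x := t) (by linarith),
      st_zero (x := t - 2) (by linarith), st_zero (x := t - 4) (by linarith)]; ring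
  · rw [st_one (x := t + 6) (by linarith), st_one (x := t + 4) (by linarith),
      st_zero (x := t + 2) (by linarith), st_zero (x := t) (by linarith),
      st_zero (x := t - 2) (by linarith), st_zero (x := t - 4) (by linarith)]; ring
  · rw [st_one (x := t + 6) (by linarith), st_one (x := t + 4) (by linarith),
      st_one (x := t + 2) (by linarith), st_zero (x := t) (by linarith),
      st_zero (x := t - 2) (by linarith), st_zero (x := t - 4) (by linarith)]; ring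
  · rw [st_one (x := t + 6) (by linarith), st_one (x := t + 4) (by linarith),
      st_one (x := t + 2) (by linarith), st_one (x := t) (by linarith),
      st_zero (x := t - 2) (by linarith), st_zero (x := t - 4) (by linarith)]; ring
  · rw [st_one (x := t + 6) (by linarith), st_one (x := t + 4) (by linarith),
      st_one (x := t + 2) (by linarith), st_one (x := t) (by linarith),
      st_one (x := t - 2) (by linarith), st_zero (x := t - 4) (by linarith)]; ring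

theorem ky_val (t : ℝ) :
    (t ≤ -5 → ky t = 0) ∧ (-4 ≤ t ∧ t ≤ -3 → ky t = 2) ∧ (-2 ≤ t ∧ t ≤ -1 → ky t = -1) ∧
    (0 ≤ t ∧ t ≤ 1 → ky t = 1) ∧ (2 ≤ t ∧ t ≤ 3 → ky t = -2) ∧ (4 ≤ t → ky t = 0) := by
  refine ⟨fun h => ky_std (Or.inl h), ?_, ?_, ?_, ?_, fun h => ky_std (Or.inr h)⟩ <;>
    rintro ⟨h1, h2⟩ <;> unfold ky
  · rw [st_one (x := t + 5) (by linarith), st_zero (x := t + 3) (by linarith),
      st_zero (x := t + 1) (by linarith), st_zero (x := t - 1) (by linarith),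
      st_zero (x := t - 3) (by linarith)]; ring
  · rw [st_one (x := t + 5) (by linarith), st_one (x := t + 3) (by linarith),
      st_zero (x := t + 1) (by linarith), st_zero (x := t - 1) (by linarith),
      st_zero (x := t - 3) (by linarith)]; ring
  · rw [st_one (x := t + 5) (by linarith), st_one (x := t + 3) (by linarith),
      st_one (x := t + 1) (by linarith), st_zero (x := t - 1) (by linarith),
      st_zero (x := t - 3) (by linarith)]; ring
  · rw [st_one (x := t + 5) (by linarith), st_one (x := t + 3) (by linarith),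
      st_one (x := t + 1) (by linarith), st_one (x := t - 1) (by linarith),
      st_zero (x := t - 3) (by linarith)]; ring

theorem run_v1 {y : ℝ} (h1 : 0 ≤ y) (h2 : y ≤ 2) : ∃ z, T (-2) y z := by
  refine cov_x (a := -5) (b := -4) (by norm_num) (fun t h h' => (kx_val t).1 ⟨h, h'⟩) (Or.inl ?_)
  rw [(ky_val (-5)).1 le_rfl, (ky_val (-4)).2.1 ⟨le_rfl, by norm_num⟩]
  exact ⟨h1, h2⟩

theorem run_v2 {y : ℝ} (h1 : -1 ≤ y) (h2 : y ≤ 2) : ∃ z, T 0 y z := by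
  refine cov_x (a := -3) (b := -2) (by norm_num) (fun t h h' => (kx_val t).2.1 ⟨h, h'⟩)
    (Or.inr ?_)
  rw [(ky_val (-3)).2.1 ⟨by norm_num, le_rfl⟩, (ky_val (-2)).2.2.1 ⟨le_rfl, by norm_num⟩]
  exact ⟨h1, h2⟩

theorem run_v3 {y : ℝ} (h1 : -1 ≤ y) (h2 : y ≤ 1) : ∃ z, T 2 y z := by
  refine cov_x (a := -1) (b := 0) (by norm_num) (fun t h h' => (kx_val t).2.2.1 ⟨h, h'⟩)
    (Or.inl ?_)
  rw [(ky_val (-1)).2.2.1 ⟨by norm_num, le_rfl⟩, (ky_val 0).2.2.2.1 ⟨le_rfl, by norm_num⟩]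
  exact ⟨h1, h2⟩

theorem run_v4 {y : ℝ} (h1 : -2 ≤ y) (h2 : y ≤ 1) : ∃ z, T (-1) y z := by
  refine cov_x (a := 1) (b := 2) (by norm_num) (fun t h h' => (kx_val t).2.2.2.1 ⟨h, h'⟩)
    (Or.inr ?_)
  rw [(ky_val 1).2.2.2.1 ⟨by norm_num, le_rfl⟩, (ky_val 2).2.2.2.2.1 ⟨le_rfl, by norm_num⟩]
  exact ⟨h1, h2⟩

theorem run_v5 {y : ℝ} (h1 : -2 ≤ y) (h2 : y ≤ 0) : ∃ z, T 1 y z := by
  refine cov_x (a := 3) (b := 4) (by norm_num) (fun t h h' => (kx_val t).2.2.2.2 ⟨h, h'⟩)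
    (Or.inl ?_)
  rw [(ky_val 3).2.2.2.2.1 ⟨by norm_num, le_rfl⟩, (ky_val 4).2.2.2.2.2 le_rfl]
  exact ⟨h1, h2⟩

theorem run_h1 {x : ℝ} (h1 : -2 ≤ x) (h2 : x ≤ 0) : ∃ z, T x 2 z := by
  refine cov_y (a := -4) (b := -3) (by norm_num) (fun t h h' => (ky_val t).2.1 ⟨h, h'⟩)
    (Or.inl ?_)
  rw [(kx_val (-4)).1 ⟨by norm_num, le_rfl⟩, (kx_val (-3)).2.1 ⟨le_rfl, by norm_num⟩]
  exact ⟨h1, h2⟩

theorem run_h2 {x : ℝ} (h1 : 0 ≤ x) (h2 : x ≤ 2) : ∃ z, T x (-1) z := by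
  refine cov_y (a := -2) (b := -1) (by norm_num) (fun t h h' => (ky_val t).2.2.1 ⟨h, h'⟩)
    (Or.inl ?_)
  rw [(kx_val (-2)).2.1 ⟨by norm_num, le_rfl⟩, (kx_val (-1)).2.2.1 ⟨le_rfl, by norm_num⟩]
  exact ⟨h1, h2⟩

theorem run_h3 {x : ℝ} (h1 : -1 ≤ x) (h2 : x ≤ 2) : ∃ z, T x 1 z := by
  refine cov_y (a := 0) (b := 1) (by norm_num) (fun t h h' => (ky_val t).2.2.2.1 ⟨h, h'⟩)
    (Or.inr ?_)
  rw [(kx_val 0).2.2.1 ⟨by norm_num, le_rfl⟩, (kx_val 1).2.2.2.1 ⟨le_rfl, by norm_num⟩]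
  exact ⟨h1, h2⟩

theorem run_h4 {x : ℝ} (h1 : -1 ≤ x) (h2 : x ≤ 1) : ∃ z, T x (-2) z := by
  refine cov_y (a := 2) (b := 3) (by norm_num) (fun t h h' => (ky_val t).2.2.2.2.1 ⟨h, h'⟩)
    (Or.inl ?_)
  rw [(kx_val 2).2.2.2.1 ⟨by norm_num, le_rfl⟩, (kx_val 3).2.2.2.2 ⟨le_rfl, by norm_num⟩]
  exact ⟨h1, h2⟩

theorem run_h0 {x : ℝ} (h : x ≤ -2) : ∃ z, T x 0 z := by
  refine cov_y (a := min x (-6)) (b := -5) ((min_le_right _ _).trans (by norm_num))
    (fun t _ h' => (ky_val t).1 h') (Or.inl ?_)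
  rw [(kx_val (-5)).1 ⟨le_rfl, by norm_num⟩, kx_std (Or.inl (min_le_right _ _))]
  exact ⟨min_le_left _ _, h⟩

theorem run_h5 {x : ℝ} (h : 1 ≤ x) : ∃ z, T x 0 z := by
  refine cov_y (a := 4) (b := max x 5) (le_trans (by norm_num) (le_max_right _ _))
    (fun t h' _ => (ky_val t).2.2.2.2.2 h') (Or.inl ?_)
  rw [(kx_val 4).2.2.2.2 ⟨by norm_num, le_rfl⟩, kx_std (Or.inr (le_max_right _ _))]
  exact ⟨h, le_max_left _ _⟩

/-- vertical edges covered by the projection -/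
def VE (i j : ℤ) : Prop := (i = -2 ∧ 0 ≤ j ∧ j ≤ 1) ∨ (i = 0 ∧ -1 ≤ j ∧ j ≤ 1) ∨
  (i = 2 ∧ -1 ≤ j ∧ j ≤ 0) ∨ (i = -1 ∧ -2 ≤ j ∧ j ≤ 0) ∨ (i = 1 ∧ -2 ≤ j ∧ j ≤ -1)

/-- horizontal edges covered by the projection -/
def HE (i j : ℤ) : Prop := (j = 2 ∧ -2 ≤ i ∧ i ≤ -1) ∨ (j = -1 ∧ 0 ≤ i ∧ i ≤ 1) ∨
  (j = 1 ∧ -1 ≤ i ∧ i ≤ 1) ∨ (j = -2 ∧ -1 ≤ i ∧ i ≤ 0) ∨ (j = 0 ∧ (i ≤ -3 ∨ 1 ≤ i))

theorem T_cov_v {i j : ℤ} (h : VE i j) {y : ℝ} (h1 : (j : ℝ) ≤ y) (h2 : y ≤ j + 1) :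
    ∃ z, T i y z := by
  rcases h with ⟨rfl, a, b⟩ | ⟨rfl, a, b⟩ | ⟨rfl, a, b⟩ | ⟨rfl, a, b⟩ | ⟨rfl, a, b⟩ <;>
    have a' := (Int.cast_le (R := ℝ)).2 a <;> have b' := (Int.cast_le (R := ℝ)).2 b <;>
    push_cast at a' b' ⊢
  · exact run_v1 (by linarith) (by linarith)
  · exact run_v2 (by linarith) (by linarith)
  · exact run_v3 (by linarith) (by linarith)
  · exact run_v4 (by linarith) (by linarith)
  · exact run_v5 (by linarith) (by linarith)

theorem T_cov_h {i j : ℤ} (h : HE i j) {x : ℝ} (h1 : (i : ℝ) ≤ x) (h2 : x ≤ i + 1) :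
    ∃ z, T x j z := by
  rcases h with ⟨rfl, a, b⟩ | ⟨rfl, a, b⟩ | ⟨rfl, a, b⟩ | ⟨rfl, a, b⟩ | ⟨rfl, a | a⟩
  · have a' := (Int.cast_le (R := ℝ)).2 a
    have b' := (Int.cast_le (R := ℝ)).2 b
    push_cast at a' b' ⊢
    exact run_h1 (by linarith) (by linarith)
  · have a' := (Int.cast_le (R := ℝ)).2 a
    have b' := (Int.cast_le (R := ℝ)).2 b
    push_cast at a' b' ⊢
    exact run_h2 (by linarith) (by linarith)
  · have a' := (Int.cast_le (R := ℝ)).2 a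
    have b' := (Int.cast_le (R := ℝ)).2 b
    push_cast at a' b' ⊢
    exact run_h3 (by linarith) (by linarith)
  · have a' := (Int.cast_le (R := ℝ)).2 a
    have b' := (Int.cast_le (R := ℝ)).2 b
    push_cast at a' b' ⊢
    exact run_h4 (by linarith) (by linarith)
  · have a' := (Int.cast_le (R := ℝ)).2 a
    push_cast at a' ⊢
    exact run_h0 (by linarith)
  · have a' := (Int.cast_le (R := ℝ)).2 a
    push_cast at a' ⊢
    exact run_h5 (by linarith)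

/-- far from the center the trefoil is the axis -/
theorem T_far {x y z : ℝ} (hx : 6 ≤ |x|) : T x y z ↔ y = 0 ∧ z = 0 := by
  constructor
  · rintro ⟨t, rfl, rfl, rfl⟩
    have ht : t ≤ -6 ∨ 5 ≤ t := by
      by_contra hcon
      push Not at hcon
      obtain ⟨h1, h2⟩ := hcon
      rw [le_abs] at hx
      have hk : -6 < kx t ∧ kx t < 6 := by
        rcases piece t with ⟨a, x, y, z⟩ | ⟨a, b, x, y, z⟩ | ⟨a, b, x, y, z⟩ | ⟨a, b, x, y, z⟩ |
          ⟨a, b, x, y, z⟩ | ⟨a, b, x, y, z⟩ | ⟨a, b, x, y, z⟩ | ⟨a, b, x, y, z⟩ |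
          ⟨a, b, x, y, z⟩ | ⟨a, b, x, y, z⟩ | ⟨a, x, y, z⟩ <;> rw [x] <;> constructor <;>
        first
        | linarith [st_nonneg (t + 4), st_le_one (t + 4), st_nonneg (t + 2), st_le_one (t + 2),
            st_nonneg t, st_le_one t, st_nonneg (t - 2), st_le_one (t - 2)]
        | nlinarith [st_nonneg (t + 6), st_le_one (t + 6), st_nonneg (t - 4), st_le_one (t - 4)]
      rcases hx with hx | hx <;> linarith [hk.1, hk.2]
    have ht' : t ≤ -5 ∨ 4 ≤ t := by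
      rcases ht with h | h
      · left; linarith
      · right; linarith
    exact ⟨ky_std ht', kz_std ht⟩
  · rintro ⟨rfl, rfl⟩
    have ht : x ≤ -6 ∨ 5 ≤ x := by
      rcases le_abs.1 hx with h | h
      · right; linarith
      · left; linarith
    have ht' : x ≤ -5 ∨ 4 ≤ x := by
      rcases ht with h | h
      · left; linarith
      · right; linarith
    exact ⟨x, kx_std ht, ky_std ht', kz_std ht⟩

end Pool.Agent.H414_LK
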