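import Mathlib

/-!
# The smooth step function
-/

set_option autoImplicit false

open scoped Topology

noncomputable section

namespace Pool.Agent.H414_LK

/-- the smooth step: `0` for `x ≤ 0`, `1` for `x ≥ 1` -/
abbrev st (x : ℝ) : ℝ := Real.smoothTransition x

theorem st_zero {x : ℝ} (h : x ≤ 0) : st x = 0 := Real.smoothTransition.zero_of_nonpos h

theorem st_one {x : ℝ} (h : 1 ≤ x) : st x = 1 := Real.smoothTransition.one_of_one_le h

theorem st_nonneg (x : ℝ) : 0 ≤ st x := Real.smoothTransition.nonneg x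

theorem st_le_one (x : ℝ) : st x ≤ 1 := Real.smoothTransition.le_one x

theorem st_pos {x : ℝ} (h : 0 < x) : 0 < st x := Real.smoothTransition.pos_of_pos h

theorem st_lt_one {x : ℝ} (h : x < 1) : st x < 1 := Real.smoothTransition.lt_one_of_lt_one h

theorem st_mono {x y : ℝ} (h : x ≤ y) : st x ≤ st y := Real.smoothTransition.monotone h

theorem st_contDiff {n : ℕ∞} : ContDiff ℝ n st := Real.smoothTransition.contDiff

theorem st_differentiable : Differentiable ℝ st :=
  (st_contDiff (n := 1)).differentiable (by simp)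

/-- the derivative of the smooth step -/
def st' (x : ℝ) : ℝ := deriv st x

theorem st_hasDerivAt (x : ℝ) : HasDerivAt st (st' x) x := (st_differentiable x).hasDerivAt

theorem st'_nonneg (x : ℝ) : 0 ≤ st' x := by
  have := Real.smoothTransition.monotone.deriv_nonneg (x := x)
  exact this

theorem st_formula {x : ℝ} (h0 : 0 < x) (h1 : x < 1) :
    st x = (1 + Real.exp (x⁻¹ - (1 - x)⁻¹))⁻¹ := by
  have hx1 : 0 < 1 - x := by linarith
  unfold st Real.smoothTransition expNegInvGlue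
  rw [if_neg (not_le.2 h0), if_neg (not_le.2 hx1)]
  have e : Real.exp (x⁻¹ - (1 - x)⁻¹) = Real.exp (-(1 - x)⁻¹) / Real.exp (-x⁻¹) := by
    rw [← Real.exp_sub]; congr 1; ring
  rw [e]
  have h2 := Real.exp_pos (-x⁻¹)
  field_simp

theorem st'_pos {x : ℝ} (h0 : 0 < x) (h1 : x < 1) : 0 < st' x := by
  have hx1 : 0 < 1 - x := by linarith
  have hg : HasDerivAt (fun y : ℝ => (1 + Real.exp (y⁻¹ - (1 - y)⁻¹))⁻¹)
      (-(Real.exp (x⁻¹ - (1 - x)⁻¹) * (-(x ^ 2)⁻¹ - (-(-1) / (1 - x) ^ 2))) /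
        (1 + Real.exp (x⁻¹ - (1 - x)⁻¹)) ^ 2) x := by
    have h2 : HasDerivAt (fun y : ℝ => y⁻¹) (-(x ^ 2)⁻¹) x := hasDerivAt_inv h0.ne'
    have h3 : HasDerivAt (fun y : ℝ => (1 - y)⁻¹) (-(-1) / (1 - x) ^ 2) x := by
      have h4 : HasDerivAt (fun y : ℝ => 1 - y) (-1) x := by
        simpa using (hasDerivAt_id x).const_sub 1
      exact h4.inv hx1.ne'
    have h5 := ((h2.sub h3).exp).const_add 1
    exact h5.inv (by positivity)
  have he : st =ᶠ[𝓝 x] (fun y : ℝ => (1 + Real.exp (y⁻¹ - (1 - y)⁻¹))⁻¹) := by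
    filter_upwards [Ioo_mem_nhds h0 h1] with y hy
    exact st_formula hy.1 hy.2
  have h6 := (hg.congr_of_eventuallyEq he).unique (st_hasDerivAt x)
  rw [← h6]
  apply div_pos _ (by positivity)
  have h7 := Real.exp_pos (x⁻¹ - (1 - x)⁻¹)
  have h8 : 0 < (x ^ 2)⁻¹ := by positivity
  have h9 : 0 < 1 / (1 - x) ^ 2 := by positivity
  have h10 : -(-1 : ℝ) / (1 - x) ^ 2 = 1 / (1 - x) ^ 2 := by norm_num
  rw [h10]
  nlinarith

theorem st'_zero_of_nonpos {x : ℝ} (h : x ≤ 0) : st' x = 0 := by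
  have hmin : IsLocalMin st x := by
    apply Filter.Eventually.of_forall
    intro y
    show st x ≤ st y
    rw [st_zero h]; exact st_nonneg y
  exact hmin.deriv_eq_zero

theorem st'_zero_of_one_le {x : ℝ} (h : 1 ≤ x) : st' x = 0 := by
  have hmax : IsLocalMax st x := by
    apply Filter.Eventually.of_forall
    intro y
    show st y ≤ st x
    rw [st_one h]; exact st_le_one y
  exact hmax.deriv_eq_zero

theorem st_strict {x y : ℝ} (hx : 0 ≤ x) (hxy : x < y) (hy : y ≤ 1) : st x < st y := by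
  have : StrictMonoOn st (Set.Icc 0 1) := by
    apply strictMonoOn_of_deriv_pos (convex_Icc 0 1) st_differentiable.continuous.continuousOn
    intro z hz
    rw [interior_Icc] at hz
    exact st'_pos hz.1 hz.2
  exact this ⟨hx, by linarith⟩ ⟨by linarith, hy⟩ hxy

theorem st_inj {x y : ℝ} (hx : 0 ≤ x) (hx1 : x ≤ 1) (hy : 0 ≤ y) (hy1 : y ≤ 1)
    (h : st x = st y) : x = y := by
  rcases lt_trichotomy x y with h1 | h1 | h1
  · exact absurd h (st_strict hx h1 hy1).ne
  · exact h1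
  · exact absurd h (st_strict hy h1 hx1).ne'

theorem st_surj {v : ℝ} (h0 : 0 ≤ v) (h1 : v ≤ 1) : ∃ x, 0 ≤ x ∧ x ≤ 1 ∧ st x = v := by
  have := intermediate_value_Icc (zero_le_one (α := ℝ))
    (st_differentiable.continuous.continuousOn (s := Set.Icc (0:ℝ) 1))
  have hv : v ∈ Set.Icc (st 0) (st 1) := by
    rw [st_zero le_rfl, st_one le_rfl]; exact ⟨h0, h1⟩
  obtain ⟨x, hx, hxv⟩ := this hv
  exact ⟨x, hx.1, hx.2, hxv⟩

end Pool.Agent.H414_LK
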