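import Pool.Agent.H414_LK.Vec
import Pool.Agent.H414_LK.Grid

/-!
# The small long trefoil and its tube
-/

set_option autoImplicit false

open scoped Topology ContDiff

noncomputable section

namespace Pool.Agent.H414_LK

/-- The long trefoil, scaled so that it is standard outside `[-1/4, 1/4]`. -/
def be (t : ℝ) : Eu 3 := v3 (kx (28 * t) / 28) (ky (28 * t) / 28) (kz (28 * t) / 28)

/-- A vector field nowhere tangent to the knot. -/
def ps (t : ℝ) : ℝ := (kc t + kz t) / 2

def ve (t : ℝ) : Eu 3 := v3 (ps (28 * t)) (1 - ps (28 * t)) 0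

def ue (t : ℝ) : Eu 3 := cr (deriv be t) (ve t)

/-- The tube. -/
def tu (x : Eu 3) : Eu 3 := be (x 0) + x 1 • ve (x 0) + x 2 • ue (x 0)

theorem st_contDiff' : ContDiff ℝ ∞ st := st_contDiff

theorem kx_contDiff : ContDiff ℝ ∞ kx := by
  have h := st_contDiff'
  unfold kx
  have h1 : ∀ a : ℝ, ContDiff ℝ ∞ (fun t : ℝ => st (t + a)) := fun a =>
    h.comp (contDiff_id.add contDiff_const)
  have h2 : ∀ a : ℝ, ContDiff ℝ ∞ (fun t : ℝ => st (t - a)) := fun a =>
    h.comp (contDiff_id.sub contDiff_const)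
  have := h1 6
  have := h1 4
  have := h1 2
  have := h2 2
  have := h2 4
  fun_prop

theorem ky_contDiff : ContDiff ℝ ∞ ky := by
  have h := st_contDiff'
  unfold ky
  have h1 : ∀ a : ℝ, ContDiff ℝ ∞ (fun t : ℝ => st (t + a)) := fun a =>
    h.comp (contDiff_id.add contDiff_const)
  have h2 : ∀ a : ℝ, ContDiff ℝ ∞ (fun t : ℝ => st (t - a)) := fun a =>
    h.comp (contDiff_id.sub contDiff_const)
  have := h1 5
  have := h1 3
  have := h1 1
  have := h2 1
  have := h2 3
  fun_prop

theorem kc_contDiff : ContDiff ℝ ∞ kc := by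
  have h := st_contDiff'
  unfold kc
  have h1 : ContDiff ℝ ∞ (fun t : ℝ => st (t + 6)) := h.comp (contDiff_id.add contDiff_const)
  have h2 : ContDiff ℝ ∞ (fun t : ℝ => st (5 - t)) := h.comp (contDiff_const.sub contDiff_id)
  exact h1.mul h2

theorem kz_contDiff : ContDiff ℝ ∞ kz := by
  unfold kz
  have h1 := kc_contDiff
  have h2 : ContDiff ℝ ∞ (fun t : ℝ => Real.sin (Real.pi * t)) :=
    Real.contDiff_sin.comp (contDiff_const.mul contDiff_id)
  exact (h1.mul h2).neg

theorem ps_contDiff : ContDiff ℝ ∞ ps := by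
  unfold ps
  exact (kc_contDiff.add kz_contDiff).div_const 2

theorem mul28 : ContDiff ℝ ∞ (fun t : ℝ => 28 * t) := contDiff_const.mul contDiff_id

theorem be_contDiff : ContDiff ℝ ∞ be :=
  v3_contDiff' ((kx_contDiff.comp mul28).div_const 28) ((ky_contDiff.comp mul28).div_const 28)
    ((kz_contDiff.comp mul28).div_const 28)

theorem ve_contDiff : ContDiff ℝ ∞ ve :=
  v3_contDiff' (ps_contDiff.comp mul28) (contDiff_const.sub (ps_contDiff.comp mul28))
    contDiff_const

theorem deriv_be_contDiff : ContDiff ℝ ∞ (deriv be) := by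
  have := (contDiff_infty_iff_deriv (f := be)).1 be_contDiff
  exact this.2

theorem ue_contDiff : ContDiff ℝ ∞ ue := by
  rw [contDiff_iff_contDiffAt]
  intro x
  exact cr_contDiff deriv_be_contDiff.contDiffAt ve_contDiff.contDiffAt

theorem tu_contDiff : ContDiff ℝ ∞ tu := by
  unfold tu
  have h0 : ContDiff ℝ ∞ (fun x : Eu 3 => x 0) := coord_contDiff' contDiff_id 0
  have h1 : ContDiff ℝ ∞ (fun x : Eu 3 => x 1) := coord_contDiff' contDiff_id 1
  have h2 : ContDiff ℝ ∞ (fun x : Eu 3 => x 2) := coord_contDiff' contDiff_id 2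
  exact ((be_contDiff.comp h0).add (h1.smul (ve_contDiff.comp h0))).add
    (h2.smul (ue_contDiff.comp h0))

theorem be_hasDerivAt (t : ℝ) :
    HasDerivAt be (v3 (kx' (28 * t)) (ky' (28 * t)) (kz' (28 * t))) t := by
  have h28 : HasDerivAt (fun s : ℝ => 28 * s) 28 t := by
    simpa using (hasDerivAt_id t).const_mul 28
  have hx : HasDerivAt (fun s : ℝ => kx (28 * s) / 28) (kx' (28 * t)) t := by
    have := ((kx_hasDerivAt (28 * t)).comp t h28).div_const 28
    refine this.congr_deriv ?_
    ring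
  have hy : HasDerivAt (fun s : ℝ => ky (28 * s) / 28) (ky' (28 * t)) t := by
    have := ((ky_hasDerivAt (28 * t)).comp t h28).div_const 28
    refine this.congr_deriv ?_
    ring
  have hz : HasDerivAt (fun s : ℝ => kz (28 * s) / 28) (kz' (28 * t)) t := by
    have := ((kz_hasDerivAt (28 * t)).comp t h28).div_const 28
    refine this.congr_deriv ?_
    ring
  exact v3_hasDerivAt hx hy hz

theorem ue_ne (t : ℝ) : ue t ≠ 0 := by
  unfold ue
  rw [(be_hasDerivAt t).deriv]
  set s := 28 * t with hs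
  intro h
  have e0 : -(kz' s * (1 - ps s)) = 0 := by
    have := congrArg (fun v : Eu 3 => v 0) h
    simpa [cr, ve, ← hs] using this
  have e1 : kz' s * ps s = 0 := by
    have := congrArg (fun v : Eu 3 => v 1) h
    simpa [cr, ve, ← hs] using this
  have e2 : kx' s * (1 - ps s) - ky' s * ps s = 0 := by
    have := congrArg (fun v : Eu 3 => v 2) h
    simpa [cr, ve, ← hs] using this
  have hc := kc_le_one s
  rcases dir s with ⟨h1, h2, h3⟩ | ⟨h1, h2, h3⟩ | ⟨h1, -⟩
  · rw [h3, zero_mul, sub_zero] at e2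
    have : 1 - ps s ≠ 0 := by unfold ps; intro h; linarith
    exact (mul_ne_zero h2 this) e2
  · rw [h2, zero_mul, zero_sub, neg_eq_zero] at e2
    have : ps s ≠ 0 := by
      have := kc_nonneg s
      unfold ps; intro h; linarith
    exact (mul_ne_zero h3 this) e2
  · have h2 := (mul_eq_zero.1 e1).resolve_left h1
    rw [h2] at e0
    apply h1
    linarith

theorem be_std {t : ℝ} (h : 3 / 14 ≤ |t|) : be t = v3 t 0 0 := by
  have h' : 28 * t ≤ -6 ∨ 5 ≤ 28 * t := by
    rcases le_abs.1 h with h | h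
    · right; linarith
    · left; linarith
  have h'' : 28 * t ≤ -5 ∨ 4 ≤ 28 * t := by
    rcases h' with h | h
    · left; linarith
    · right; linarith
  unfold be
  rw [kx_std h', ky_std h'', kz_std h']
  apply ext3 <;> simp

theorem ps_std {t : ℝ} (h : 3 / 14 ≤ |t|) : ps (28 * t) = 0 := by
  have h' : 28 * t ≤ -6 ∨ 5 ≤ 28 * t := by
    rcases le_abs.1 h with h | h
    · right; linarith
    · left; linarith
  unfold ps
  rw [kz_std h']
  rcases h' with h | h
  · rw [kc_zero_left h]; simp
  · rw [kc_zero_right h]; simp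

theorem ve_std {t : ℝ} (h : 3 / 14 ≤ |t|) : ve t = v3 0 1 0 := by
  unfold ve
  rw [ps_std h]; apply ext3 <;> simp

theorem deriv_be_std {t : ℝ} (h : 3 / 14 ≤ |t|) : deriv be t = v3 1 0 0 := by
  have hcont : Continuous (deriv be) := deriv_be_contDiff.continuous
  -- first for strict inequality
  have h1 : ∀ s : ℝ, 3 / 14 < |s| → deriv be s = v3 1 0 0 := by
    intro s hs
    have he : be =ᶠ[𝓝 s] fun r => v3 r 0 0 := by
      have : ∀ᶠ r in 𝓝 s, 3 / 14 < |r| := (continuous_abs.tendsto s).eventually (lt_mem_nhds hs)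
      filter_upwards [this] with r hr
      exact be_std hr.le
    rw [he.deriv_eq]
    exact (v3_hasDerivAt (hasDerivAt_id s) (hasDerivAt_const s 0) (hasDerivAt_const s 0)).deriv
  rcases h.lt_or_eq with h2 | h2
  · exact h1 t h2
  · -- the boundary, by continuity
    have hcl : t ∈ closure {s : ℝ | 3 / 14 < |s|} := by
      rw [Metric.mem_closure_iff]
      intro ε hε
      rcases le_or_gt 0 t with ht | ht
      · refine ⟨t + ε / 2, ?_, ?_⟩
        · rw [abs_of_nonneg ht] at h2
          show 3 / 14 < |t + ε / 2|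
          rw [abs_of_nonneg (by linarith)]; linarith
        · rw [Real.dist_eq, show t - (t + ε / 2) = -(ε / 2) by ring, abs_neg,
            abs_of_pos (by linarith)]; linarith
      · refine ⟨t - ε / 2, ?_, ?_⟩
        · rw [abs_of_neg ht] at h2
          show 3 / 14 < |t - ε / 2|
          rw [abs_of_neg (by linarith)]; linarith
        · rw [Real.dist_eq, show t - (t - ε / 2) = ε / 2 by ring,
            abs_of_pos (by linarith)]; linarith
    have hclosed : IsClosed {s : ℝ | deriv be s = v3 1 0 0} :=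
      isClosed_eq hcont continuous_const
    exact hclosed.closure_subset_iff.2 (fun s hs => h1 s hs) hcl

theorem ue_std {t : ℝ} (h : 3 / 14 ≤ |t|) : ue t = v3 0 0 1 := by
  unfold ue
  rw [deriv_be_std h, ve_std h]
  apply ext3 <;> simp [cr]

theorem tu_id {x : Eu 3} (h : 3 / 14 ≤ |x 0|) : tu x = x := by
  unfold tu
  rw [be_std h, ve_std h, ue_std h]
  apply ext3 <;> simp

theorem tu_axis (t : ℝ) : tu (v3 t 0 0) = be t := by
  unfold tu; simp

theorem be_inj : Function.Injective be := by
  intro s t h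
  have e0 : kx (28 * s) / 28 = kx (28 * t) / 28 := congrArg (fun v : Eu 3 => v 0) h
  have e1 : ky (28 * s) / 28 = ky (28 * t) / 28 := congrArg (fun v : Eu 3 => v 1) h
  have e2 : kz (28 * s) / 28 = kz (28 * t) / 28 := congrArg (fun v : Eu 3 => v 2) h
  have := grid_inj (by linarith : kx (28 * s) = kx (28 * t)) (by linarith) (by linarith)
  linarith

theorem norm_axis' (t : ℝ) : ‖axis 3 t‖ = |t| := by
  simp [axis]

theorem be_ball {t : ℝ} (h : |t| ≤ 1 / 4) : ‖be t‖ ≤ 1 / 4 := by
  rcases le_or_gt (3 / 14) |t| with h1 | h1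
  · rw [be_std h1, ← axis_eq, ]
    rw [norm_axis']
    exact h
  · have h2 := abs_lt.1 h1
    have hx : |kx (28 * t)| ≤ 6 := by
      rcases le_or_gt (28 * t) 5 with h5 | h5
      · exact kx_abs_le (by linarith) h5
      · rw [kx_std (Or.inr h5.le), abs_le]; constructor <;> linarith
    have hy := ky_abs_le (28 * t)
    have hz := kz_abs_le (28 * t)
    have hsq : ‖be t‖ ^ 2 ≤ (1 / 4) ^ 2 := by
      rw [normsq3]
      simp only [be, v3_0, v3_1, v3_2]
      have a1 := sq_le_sq' (abs_le.1 hx).1 (abs_le.1 hx).2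
      have a2 := sq_le_sq' (abs_le.1 hy).1 (abs_le.1 hy).2
      have a3 := sq_le_sq' (abs_le.1 hz).1 (abs_le.1 hz).2
      nlinarith
    exact (sq_le_sq₀ (norm_nonneg _) (by norm_num)).1 hsq

/-- the first coordinate stays strictly inside -/
theorem be_0_lt {t : ℝ} (h : |t| < 1 / 4) : |be t 0| < 1 / 4 := by
  rcases le_or_gt (3 / 14) |t| with h1 | h1
  · rw [be_std h1]; simpa using h
  · have h2 := abs_lt.1 h1
    have hx : |kx (28 * t)| ≤ 6 := by
      rcases le_or_gt (28 * t) 5 with h5 | h5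
      · exact kx_abs_le (by linarith) h5
      · rw [kx_std (Or.inr h5.le), abs_le]; constructor <;> linarith
    show |kx (28 * t) / 28| < 1 / 4
    rw [abs_div, abs_of_pos (show (0:ℝ) < 28 by norm_num), div_lt_iff₀ (by norm_num)]
    linarith

end Pool.Agent.H414_LK
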