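import Pool.Agent.H414_LK.Tube

/-!
# The tube map near the axis
-/

set_option autoImplicit false

open scoped Topology ContDiff

noncomputable section

namespace Pool.Agent.H414_LK

theorem fderiv_tu_axis (t : ℝ) (h : Eu 3) :
    fderiv ℝ tu (v3 t 0 0) h = h 0 • deriv be t + h 1 • ve t + h 2 • ue t := by
  have hd : DifferentiableAt ℝ tu (v3 t 0 0) := tu_contDiff.differentiable (by simp) _
  have hc : HasDerivAt (fun s : ℝ => v3 t 0 0 + s • h) h 0 := by
    simpa using ((hasDerivAt_id (0 : ℝ)).smul_const h).const_add (v3 t 0 0)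
  have h1 : HasDerivAt (fun s : ℝ => tu (v3 t 0 0 + s • h)) (fderiv ℝ tu (v3 t 0 0) h) 0 := by
    have := hd.hasFDerivAt
    have e : v3 t 0 0 = v3 t 0 0 + (0 : ℝ) • h := by simp
    rw [e] at this
    have h2 := this.comp_hasDerivAt (0 : ℝ) hc
    rw [← e] at h2
    exact h2
  have hb : HasDerivAt (fun s : ℝ => be (t + s * h 0)) (h 0 • deriv be t) 0 := by
    have h3 : HasDerivAt (fun s : ℝ => t + s * h 0) (h 0) 0 := by
      simpa using ((hasDerivAt_id (0 : ℝ)).mul_const (h 0)).const_add t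
    have h4 : HasDerivAt be (deriv be t) (t + 0 * h 0) := by
      rw [zero_mul, add_zero]
      exact (be_contDiff.differentiable (by simp) t).hasDerivAt
    exact HasDerivAt.scomp (0 : ℝ) h4 h3
  have key : ∀ (w : ℝ → Eu 3) (a : ℝ), ContDiff ℝ ∞ w →
      HasDerivAt (fun s : ℝ => (s * a) • w (t + s * h 0)) (a • w t) 0 := by
    intro w a hw
    have h3 : HasDerivAt (fun s : ℝ => t + s * h 0) (h 0) 0 := by
      simpa using ((hasDerivAt_id (0 : ℝ)).mul_const (h 0)).const_add t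
    have h4 : HasDerivAt w (deriv w (t + 0 * h 0)) (t + 0 * h 0) :=
      (hw.differentiable (by simp) _).hasDerivAt
    have h5 := HasDerivAt.scomp (0 : ℝ) h4 h3
    have h6 : HasDerivAt (fun s : ℝ => s * a) a 0 := by
      simpa using (hasDerivAt_id (0 : ℝ)).mul_const a
    refine (h6.smul h5).congr_deriv ?_
    simp
  have h2 : HasDerivAt (fun s : ℝ => tu (v3 t 0 0 + s • h))
      (h 0 • deriv be t + h 1 • ve t + h 2 • ue t) 0 := by
    have := (hb.add (key ve (h 1) ve_contDiff)).add (key ue (h 2) ue_contDiff)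
    refine this.congr_of_eventuallyEq (Filter.Eventually.of_forall fun s => ?_)
    simp [tu]
  exact h1.unique h2

theorem fderiv_tu_inj (t : ℝ) : Function.Injective (fderiv ℝ tu (v3 t 0 0)) := by
  rw [injective_iff_map_eq_zero]
  intro h hh
  rw [fderiv_tu_axis] at hh
  obtain ⟨h0, h1, h2⟩ := indep (ue_ne t) hh
  exact ext3 h0 h1 h2

/-- an injective linear endomorphism is an equivalence -/
theorem exists_equiv {f : Eu 3 →L[ℝ] Eu 3} (hf : Function.Injective f) :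
    ∃ e : Eu 3 ≃L[ℝ] Eu 3, (e : Eu 3 →L[ℝ] Eu 3) = f := by
  have hf' : Function.Injective (f : Eu 3 →ₗ[ℝ] Eu 3) := hf
  refine ⟨(LinearEquiv.ofInjectiveEndo (f : Eu 3 →ₗ[ℝ] Eu 3) hf').toContinuousLinearEquiv, ?_⟩
  ext x
  simp

theorem tube_local (t : ℝ) : ∃ u ∈ 𝓝 (v3 t 0 0), Set.InjOn tu u ∧
    ∀ x ∈ u, Function.Injective (fderiv ℝ tu x) := by
  obtain ⟨e, he⟩ := exists_equiv (fderiv_tu_inj t)
  have hs : HasStrictFDerivAt tu (e : Eu 3 →L[ℝ] Eu 3) (v3 t 0 0) := by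
    rw [he]
    exact (tu_contDiff.contDiffAt).hasStrictFDerivAt (by simp)
  have hinj : Set.InjOn tu (hs.toOpenPartialHomeomorph tu).source := by
    intro x hx y hy hxy
    exact (hs.toOpenPartialHomeomorph tu).injOn hx hy hxy
  have hop : (hs.toOpenPartialHomeomorph tu).source ∈ 𝓝 (v3 t 0 0) :=
    (hs.toOpenPartialHomeomorph tu).open_source.mem_nhds hs.mem_toOpenPartialHomeomorph_source
  have hn : Set.range ((↑) : (Eu 3 ≃L[ℝ] Eu 3) → Eu 3 →L[ℝ] Eu 3) ∈ 𝓝 (fderiv ℝ tu (v3 t 0 0)) := by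
    rw [← he]; exact ContinuousLinearEquiv.nhds e
  have hcont : Continuous (fderiv ℝ tu) := tu_contDiff.continuous_fderiv (by simp)
  have hd := hcont.continuousAt.preimage_mem_nhds hn
  refine ⟨_, Filter.inter_mem hop hd, hinj.mono Set.inter_subset_left, ?_⟩
  rintro x ⟨-, e', he'⟩
  rw [← he']
  exact e'.injective

/-- the segment of the axis -/
def seg : Set (Eu 3) := (fun t : ℝ => v3 t 0 0) '' Set.Icc (-1) 1

theorem continuous_axis3 : Continuous (fun t : ℝ => v3 t 0 0) := by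
  have : (fun t : ℝ => v3 t 0 0) = fun t => axis 3 t := by
    funext t; exact (axis_eq t).symm
  rw [this]
  have h : ContDiff ℝ ∞ (fun t : ℝ => v3 t 0 0) :=
    v3_contDiff' contDiff_id contDiff_const contDiff_const
  rw [← this]
  exact h.continuous

theorem seg_compact : IsCompact seg := (isCompact_Icc).image continuous_axis3

theorem exists_tube : ∃ ε : ℝ, 0 < ε ∧
    Set.InjOn tu {x | ∃ t : ℝ, |t| ≤ 1 ∧ ‖x - v3 t 0 0‖ < ε} ∧
    (∀ x, (∃ t : ℝ, |t| ≤ 1 ∧ ‖x - v3 t 0 0‖ < ε) → Function.Injective (fderiv ℝ tu x)) ∧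
    (∀ x, (∃ t : ℝ, |t| ≤ 1 ∧ ‖x - v3 t 0 0‖ < ε) → |x 0| ≤ 3 / 14 → ‖tu x‖ ≤ 1) := by
  have hinj : Set.InjOn tu seg := by
    rintro _ ⟨s, -, rfl⟩ _ ⟨t, -, rfl⟩ h
    simp only [tu_axis] at h
    rw [be_inj h]
  obtain ⟨U, hU, hUinj⟩ := Set.InjOn.exists_mem_nhdsSet hinj seg_compact
    (fun x _ => tu_contDiff.continuous.continuousAt) (by
      rintro _ ⟨t, -, rfl⟩
      obtain ⟨u, hu, h, -⟩ := tube_local t
      exact ⟨u, hu, h⟩)
  have hU2 : {x | Function.Injective (fderiv ℝ tu x)} ∈ 𝓝ˢ seg := by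
    rw [mem_nhdsSet_iff_forall]
    rintro _ ⟨t, -, rfl⟩
    obtain ⟨u, hu, -, h⟩ := tube_local t
    exact Filter.mem_of_superset hu h
  have hU3 : {x : Eu 3 | |x 0| ≤ 3 / 14 → ‖tu x‖ ≤ 1} ∈ 𝓝ˢ seg := by
    rw [mem_nhdsSet_iff_forall]
    rintro _ ⟨t, -, rfl⟩
    rcases le_or_gt |t| (1 / 4) with ht | ht
    · have h1 : ‖tu (v3 t 0 0)‖ < 1 := by
        rw [tu_axis]
        have := be_ball ht
        linarith
      have h2 : ∀ᶠ x in 𝓝 (v3 t 0 0), ‖tu x‖ < 1 :=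
        (tu_contDiff.continuous.norm.tendsto _).eventually (gt_mem_nhds h1)
      filter_upwards [h2] with x hx _
      exact hx.le
    · have hc : Continuous (fun x : Eu 3 => |x 0|) :=
        continuous_abs.comp (coord_contDiff' (n := ∞) contDiff_id 0).continuous
      have h2 : ∀ᶠ x in 𝓝 (v3 t 0 0), 1 / 4 < |x 0| :=
        (hc.tendsto _).eventually (lt_mem_nhds (by simpa using ht))
      filter_upwards [h2] with x hx h
      linarith
  have hN := Filter.inter_mem (Filter.inter_mem hU hU2) hU3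
  obtain ⟨V, hVo, hsV, hV⟩ := mem_nhdsSet_iff_exists.1 hN
  obtain ⟨ε, hε, hth⟩ := seg_compact.exists_thickening_subset_open hVo hsV
  have hsub : {x : Eu 3 | ∃ t : ℝ, |t| ≤ 1 ∧ ‖x - v3 t 0 0‖ < ε} ⊆ V := by
    rintro x ⟨t, ht, hx⟩
    apply hth
    rw [Metric.mem_thickening_iff]
    exact ⟨v3 t 0 0, ⟨t, abs_le.1 ht, rfl⟩, by rwa [dist_eq_norm]⟩
  refine ⟨ε, hε, hUinj.mono fun x hx => (hV (hsub hx)).1.1, fun x hx => (hV (hsub hx)).1.2,
    fun x hx => (hV (hsub hx)).2⟩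

end Pool.Agent.H414_LK
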