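import Pool.Agent.H414_LK.Defs

/-!
# Vectors of `ℝ³`
-/

set_option autoImplicit false

open scoped Topology ContDiff

noncomputable section

namespace Pool.Agent.H414_LK

/-- the vector with coordinates `a, b, c` -/
def v3 (a b c : ℝ) : Eu 3 := !₂[a, b, c]

@[simp] theorem v3_0 (a b c : ℝ) : v3 a b c 0 = a := rfl
@[simp] theorem v3_1 (a b c : ℝ) : v3 a b c 1 = b := rfl
@[simp] theorem v3_2 (a b c : ℝ) : v3 a b c 2 = c := rfl

theorem ext3 {x y : Eu 3} (h0 : x 0 = y 0) (h1 : x 1 = y 1) (h2 : x 2 = y 2) : x = y := by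
  ext i; fin_cases i
  · exact h0
  · exact h1
  · exact h2

theorem v3_eta (x : Eu 3) : v3 (x 0) (x 1) (x 2) = x := ext3 rfl rfl rfl

theorem axis_eq (t : ℝ) : axis 3 t = v3 t 0 0 := by
  apply ext3 <;> simp [axis]

@[simp] theorem add_app (x y : Eu 3) (i : Fin 3) : (x + y) i = x i + y i := rfl
@[simp] theorem sub_app (x y : Eu 3) (i : Fin 3) : (x - y) i = x i - y i := rfl
@[simp] theorem smul_app (c : ℝ) (x : Eu 3) (i : Fin 3) : (c • x) i = c * x i := rfl
@[simp] theorem neg_app (x : Eu 3) (i : Fin 3) : (-x) i = -x i := rfl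
@[simp] theorem zero_app (i : Fin 3) : (0 : Eu 3) i = 0 := rfl

theorem inner3 (x y : Eu 3) : inner ℝ x y = x 0 * y 0 + x 1 * y 1 + x 2 * y 2 := by
  simp [PiLp.inner_apply, Fin.sum_univ_three]; ring

theorem normsq3 (x : Eu 3) : ‖x‖ ^ 2 = x 0 ^ 2 + x 1 ^ 2 + x 2 ^ 2 := by
  rw [← real_inner_self_eq_norm_sq, inner3]; ring

theorem v3_contDiff {E : Type*} [NormedAddCommGroup E] [NormedSpace ℝ E] {f g h : E → ℝ}
    {n : WithTop ℕ∞} {x : E} (hf : ContDiffAt ℝ n f x) (hg : ContDiffAt ℝ n g x)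
    (hh : ContDiffAt ℝ n h x) : ContDiffAt ℝ n (fun y => v3 (f y) (g y) (h y)) x := by
  rw [contDiffAt_euclidean]
  intro i
  fin_cases i
  · exact hf
  · exact hg
  · exact hh

theorem v3_contDiff' {E : Type*} [NormedAddCommGroup E] [NormedSpace ℝ E] {f g h : E → ℝ}
    {n : WithTop ℕ∞} (hf : ContDiff ℝ n f) (hg : ContDiff ℝ n g)
    (hh : ContDiff ℝ n h) : ContDiff ℝ n (fun y => v3 (f y) (g y) (h y)) := by
  rw [contDiff_iff_contDiffAt] at *
  exact fun x => v3_contDiff (hf x) (hg x) (hh x)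

theorem coord_contDiff {E : Type*} [NormedAddCommGroup E] [NormedSpace ℝ E] {f : E → Eu 3}
    {n : WithTop ℕ∞} {x : E} (hf : ContDiffAt ℝ n f x) (i : Fin 3) :
    ContDiffAt ℝ n (fun y => f y i) x := (contDiffAt_euclidean.1 hf) i

theorem coord_contDiff' {E : Type*} [NormedAddCommGroup E] [NormedSpace ℝ E] {f : E → Eu 3}
    {n : WithTop ℕ∞} (hf : ContDiff ℝ n f) (i : Fin 3) :
    ContDiff ℝ n (fun y => f y i) := (contDiff_euclidean.1 hf) i

theorem v3_hasDerivAt {f g h : ℝ → ℝ} {f' g' h' t : ℝ} (hf : HasDerivAt f f' t)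
    (hg : HasDerivAt g g' t) (hh : HasDerivAt h h' t) :
    HasDerivAt (fun s => v3 (f s) (g s) (h s)) (v3 f' g' h') t := by
  rw [hasDerivAt_iff_hasFDerivAt, ← hasFDerivWithinAt_univ, hasFDerivWithinAt_euclidean]
  have key : ∀ i : Fin 3, (PiLp.proj 2 (fun _ : Fin 3 => ℝ) i ∘L
      ContinuousLinearMap.toSpanSingleton ℝ (v3 f' g' h') : ℝ →L[ℝ] ℝ) =
      ContinuousLinearMap.toSpanSingleton ℝ ((v3 f' g' h') i) := by
    intro i; ext; simp
  intro i
  rw [key]
  fin_cases i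
  · exact hf.hasFDerivAt.hasFDerivWithinAt
  · exact hg.hasFDerivAt.hasFDerivWithinAt
  · exact hh.hasFDerivAt.hasFDerivWithinAt

/-- the cross product -/
def cr (a b : Eu 3) : Eu 3 := v3 (a 1 * b 2 - a 2 * b 1) (a 2 * b 0 - a 0 * b 2)
  (a 0 * b 1 - a 1 * b 0)

theorem cr_contDiff {E : Type*} [NormedAddCommGroup E] [NormedSpace ℝ E] {f g : E → Eu 3}
    {n : WithTop ℕ∞} {x : E} (hf : ContDiffAt ℝ n f x) (hg : ContDiffAt ℝ n g x) :
    ContDiffAt ℝ n (fun y => cr (f y) (g y)) x := by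
  unfold cr
  have f0 := coord_contDiff hf 0
  have f1 := coord_contDiff hf 1
  have f2 := coord_contDiff hf 2
  have g0 := coord_contDiff hg 0
  have g1 := coord_contDiff hg 1
  have g2 := coord_contDiff hg 2
  exact v3_contDiff ((f1.mul g2).sub (f2.mul g1)) ((f2.mul g0).sub (f0.mul g2))
    ((f0.mul g1).sub (f1.mul g0))

theorem inner_cr_left (a b : Eu 3) : inner ℝ (cr a b) a = 0 := by
  rw [inner3]; simp [cr]; ring

theorem inner_cr_right (a b : Eu 3) : inner ℝ (cr a b) b = 0 := by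
  rw [inner3]; simp [cr]; ring

theorem cr_self (a : Eu 3) : cr a a = 0 := by
  apply ext3 <;> simp [cr] <;> ring

/-- `a, b, a × b` are linearly independent if `a × b ≠ 0` -/
theorem indep {a b : Eu 3} (h : cr a b ≠ 0) {x y z : ℝ}
    (hs : x • a + y • b + z • cr a b = 0) : x = 0 ∧ y = 0 ∧ z = 0 := by
  have ha : a ≠ 0 := by
    rintro rfl; apply h; apply ext3 <;> simp [cr]
  have hz : z = 0 := by
    have h1 : inner ℝ (cr a b) (x • a + y • b + z • cr a b) = 0 := by rw [hs, inner_zero_right]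
    rw [inner_add_right, inner_add_right, inner_smul_right, inner_smul_right, inner_smul_right,
      inner_cr_left, inner_cr_right, real_inner_self_eq_norm_sq] at h1
    have h2 : ‖cr a b‖ ^ 2 ≠ 0 := by positivity
    have h3 : z * ‖cr a b‖ ^ 2 = 0 := by linarith
    exact (mul_eq_zero.1 h3).resolve_right h2
  subst hz
  have hy : y = 0 := by
    have h1 : cr a (x • a + y • b + (0:ℝ) • cr a b) = y • cr a b := by
      apply ext3 <;> simp [cr] <;> ring
    rw [hs] at h1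
    have h2 : cr a 0 = 0 := by apply ext3 <;> simp [cr]
    rw [h2] at h1
    exact (smul_eq_zero.1 h1.symm).resolve_right h
  subst hy
  simp only [zero_smul, add_zero] at hs
  exact ⟨(smul_eq_zero.1 hs).resolve_right ha, rfl, rfl⟩

end Pool.Agent.H414_LK
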